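import Pool.Agent.W432.PC.Final

set_option autoImplicit false

open Polynomial Pool.Agent.W432.PC

namespace Pool.Agent.Y227.SS

universe u

section defs

variable {K : Type*} [CommRing K] {n r s : ℕ}

/-- The minor of the `s × r` matrix `U` on the columns `J`. -/
noncomputable def mnr (U : Matrix (Fin s) (Fin r) K[X]) (J : Fin s → Fin r) : K[X] :=
  (U.submatrix id J).det

end defs

section semi

variable {K : Type*} [Field K] {n r : ℕ}

/-- Semistability of the parabolic bundle of degree zero on the projective line given by the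
free module `K[x] ^ r`, by the weights `w j` at `x = β j` along the basis of the fibre defined by
the constant matrix `P j` (coordinates `u * P j`) and by the weights `-e` at infinity along the
standard basis. For every submodule, spanned by the rows of `U`, of rank `s`, the sum of its orders
`τ j` at the points `β j`, computed on the `s × s` minors, is at most its degree. -/
def Semistable (β : Fin n → K) (P : Fin n → Matrix (Fin r) (Fin r) K) (w : Fin n → Fin r → ℝ)
    (e : Fin r → ℝ) : Prop :=
  ∀ (s : ℕ) (U : Matrix (Fin s) (Fin r) K[X]), (∃ J, mnr U J ≠ 0) → ∀ τ : Fin n → ℝ,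
    (∀ j J, mnr (U * (P j).map C) J ≠ 0 →
      τ j ≤ (mnr (U * (P j).map C) J).rootMultiplicity (β j) + ∑ i, w j (J i)) →
    ∃ J, mnr U J ≠ 0 ∧ ∑ j, τ j ≤ (mnr U J).natDegree + ∑ i, e (J i)

/-- The tuples `x j`, `y` of `r` real numbers are the weights, modulo the integers, of a semistable
parabolic bundle of parabolic degree zero on the projective line over `K`, at `n` distinct points
of the affine line and at infinity. -/
def SemistableWeights (K : Type*) [Field K] (x : Fin n → Fin r → ℝ) (y : Fin r → ℝ) : Prop :=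
  ∃ (β : Fin n → K) (P : Fin n → Matrix (Fin r) (Fin r) K) (w : Fin n → Fin r → ℝ)
    (e : Fin r → ℝ),
    Function.Injective β ∧ (∀ j, (P j).det ≠ 0) ∧ (∀ j l, 0 ≤ w j l ∧ w j l ≤ 1) ∧
    (∀ j, ∃ σ : Equiv.Perm (Fin r), ∀ l, ∃ m : ℤ, w j l = x j (σ l) + m) ∧
    (∃ σ : Equiv.Perm (Fin r), ∀ l, ∃ m : ℤ, e l = y (σ l) + m) ∧
    ∑ j, ∑ l, w j l = ∑ l, e l ∧ Semistable β P w e

end semi

section stable

/-- The image of the rows of `v` under `T d/dx - B`. -/
noncomputable def opRows {R : Type*} [CommRing R] {n s r : ℕ} (α : Fin n → R)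
    (A : Fin n → Matrix (Fin r) (Fin r) R) (v : Matrix (Fin s) (Fin r) R[X]) :
    Matrix (Fin s) (Fin r) R[X] :=
  Matrix.of fun i l => T α * derivative (v i l) - (B α A).mulVec (v i) l

/-- The `K(x)`-span of the rows of some matrix of rank `s` is stable under `∇ = T d/dx - B`. -/
def HasStableSubspace {K : Type*} [Field K] {n r : ℕ} (α : Fin n → K)
    (A : Fin n → Matrix (Fin r) (Fin r) K) (s : ℕ) : Prop :=
  ∃ v : Matrix (Fin s) (Fin r) K[X], (∃ J, mnr v J ≠ 0) ∧
    ∃ (c : K[X]) (G : Matrix (Fin s) (Fin s) K[X]), c ≠ 0 ∧ c • opRows α A v = G * v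

/-- Stability: for submodules of rank `s`, `0 < s < r`, the inequality in `Semistable` is strict. -/
def Stable {K : Type*} [Field K] {n r : ℕ} (β : Fin n → K) (P : Fin n → Matrix (Fin r) (Fin r) K)
    (w : Fin n → Fin r → ℝ) (e : Fin r → ℝ) : Prop :=
  ∀ (s : ℕ), 0 < s → s < r → ∀ (U : Matrix (Fin s) (Fin r) K[X]), (∃ J, mnr U J ≠ 0) →
    ∀ τ : Fin n → ℝ,
    (∀ j J, mnr (U * (P j).map C) J ≠ 0 →
      τ j ≤ (mnr (U * (P j).map C) J).rootMultiplicity (β j) + ∑ i, w j (J i)) →
    ∃ J, mnr U J ≠ 0 ∧ ∑ j, τ j < (mnr U J).natDegree + ∑ i, e (J i)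

/-- The tuples `x j`, `y` of `r` real numbers are the weights, modulo the integers, of a stable
parabolic bundle of parabolic degree zero on the projective line over `K`, at `n` distinct points
of the affine line and at infinity. -/
def StableWeights (K : Type*) [Field K] {n r : ℕ} (x : Fin n → Fin r → ℝ) (y : Fin r → ℝ) : Prop :=
  ∃ (β : Fin n → K) (P : Fin n → Matrix (Fin r) (Fin r) K) (w : Fin n → Fin r → ℝ)
    (e : Fin r → ℝ),
    Function.Injective β ∧ (∀ j, (P j).det ≠ 0) ∧ (∀ j l, 0 ≤ w j l ∧ w j l ≤ 1) ∧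
    (∀ j, ∃ σ : Equiv.Perm (Fin r), ∀ l, ∃ m : ℤ, w j l = x j (σ l) + m) ∧
    (∃ σ : Equiv.Perm (Fin r), ∀ l, ∃ m : ℤ, e l = y (σ l) + m) ∧
    ∑ j, ∑ l, w j l = ∑ l, e l ∧ Semistable β P w e ∧ Stable β P w e

/-- Irreducibility after every extension of the field of constants. -/
def AbsIrreducible {R : Type u} [CommRing R] {n r : ℕ} (α : Fin n → R)
    (A : Fin n → Matrix (Fin r) (Fin r) R) : Prop :=
  ∀ (K : Type u) [Field K] (φ : R →+* K), Function.Injective φ → ∀ s, 0 < s → s < r →
    ¬ HasStableSubspace (fun j => φ (α j)) (fun j => (A j).map φ) s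


/-- There is a set of at least `ε * φ(N)` residue classes modulo `N`, prime to `N`, such that the
`p`-curvature is nonzero at every closed point of `Spec R[1/g]` whose residue characteristic is a
large prime in one of these classes. -/
def BadClasses {R : Type*} [CommRing R] {n r : ℕ} (α : Fin n → R) (A : Fin n → Matrix (Fin r) (Fin r) R) (N : ℕ) (ε : ℝ) (g : R) :
    Prop :=
  ∃ (S : Finset (ZMod N)ˣ) (P₀ : ℕ), ε * N.totient ≤ S.card ∧
    ∀ p : ℕ, p.Prime → P₀ < p → (∃ v ∈ S, ((p : ℕ) : ZMod N) = ((v : (ZMod N)ˣ) : ZMod N)) →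
      ∀ (𝔪 : Ideal R) [𝔪.IsMaximal], (p : R) ∈ 𝔪 → g ∉ 𝔪 → ¬ PCurvZeroAt α A 𝔪

end stable

section expand

variable {R : Type*} [CommRing R] {r s : ℕ}

/-- Expansion of the determinant of a product of rectangular matrices. -/
lemma det_mul_expand (M : Matrix (Fin s) (Fin r) R) (N : Matrix (Fin r) (Fin s) R) :
    (M * N).det = ∑ J : Fin s → Fin r, (∏ c, N (J c) c) * (M.submatrix id J).det := by
  have h1 : (M * N).det = (Matrix.of fun i : Fin s => ∑ m : Fin r, N m i • (fun c => M c m)).det := by
    rw [← Matrix.det_transpose]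
    congr 1
    ext i c
    simp only [Matrix.transpose_apply, Matrix.mul_apply, Matrix.of_apply, Finset.sum_apply,
      Pi.smul_apply, smul_eq_mul]
    exact Finset.sum_congr rfl fun m _ => mul_comm _ _
  rw [h1]
  have h2 := (Matrix.detRowAlternating (n := Fin s) (R := R)).toMultilinearMap.map_sum
    (fun (i : Fin s) (m : Fin r) => N m i • (fun c => M c m))
  have h3 : (Matrix.of fun i : Fin s => ∑ m : Fin r, N m i • (fun c => M c m)).det =
      (Matrix.detRowAlternating (n := Fin s) (R := R)).toMultilinearMap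
        (fun i => ∑ m : Fin r, N m i • (fun c => M c m)) := rfl
  rw [h3, h2]
  refine Finset.sum_congr rfl fun J _ => ?_
  rw [MultilinearMap.map_smul_univ, smul_eq_mul]
  congr 1
  rw [← Matrix.det_transpose]
  rfl

end expand

end Pool.Agent.Y227.SS
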