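import Pool.Agent.Y227.SS.StableLimit
import Pool.Agent.Y227.SS.Gap

set_option autoImplicit false

/-!
The uniform dichotomy for the residue classes of primes with nonvanishing `p`-curvature.
-/

open Polynomial Filter Topology Pool.Agent.W432.PC Pool.Agent.W432.TC

namespace Pool.Agent.Y227.SS

universe u

section near

variable {n r : ℕ}

lemma StableWeights.congr {K : Type*} [Field K] {x x' : Fin n → Fin r → ℝ} {y y' : Fin r → ℝ}
    (h : StableWeights K x y) (hx : ∀ j l, ∃ m : ℤ, x j l = x' j l + m)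
    (hy : ∀ l, ∃ m : ℤ, y l = y' l + m) : StableWeights K x' y' := by
  obtain ⟨β, P, w, e, h1, h2, h3, h4, h5, h6, h7⟩ := h
  refine ⟨β, P, w, e, h1, h2, h3, ?_, ?_, h6, h7⟩
  · intro j
    obtain ⟨σ, hσ⟩ := h4 j
    refine ⟨σ, fun l => ?_⟩
    obtain ⟨m, hm⟩ := hσ l
    obtain ⟨m', hm'⟩ := hx j (σ l)
    exact ⟨m' + m, by rw [hm, hm']; push_cast; ring⟩
  · obtain ⟨σ, hσ⟩ := h5
    refine ⟨σ, fun l => ?_⟩
    obtain ⟨m, hm⟩ := hσ l
    obtain ⟨m', hm'⟩ := hy (σ l)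
    exact ⟨m' + m, by rw [hm, hm']; push_cast; ring⟩

/-- From a sequence converging in the torus to a sequence converging in the space. -/
lemma exists_shift {I : Type*} {y : I → ℝ} {x : ℕ → I → ℝ}
    (h : ∀ k c, ∃ z : ℤ, |x k c - y c - z| < 1 / ((k : ℝ) + 1)) :
    ∃ z : ℕ → I → ℤ, ∀ c, Tendsto (fun k => x k c - z k c) atTop (𝓝 (y c)) := by
  choose z hz using h
  refine ⟨z, fun c => ?_⟩
  rw [tendsto_iff_norm_sub_tendsto_zero]
  refine squeeze_zero (fun k => norm_nonneg _) (fun k => ?_) tendsto_one_div_add_atTop_nhds_zero_nat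
  rw [Real.norm_eq_abs]
  have h1 : x k c - z k c - y c = x k c - y c - z k c := by ring
  rw [h1]
  exact (hz k c).le

/-- Violations of semistability are stable. -/
lemma semistable_open (y : ExponentIndex n r → ℝ)
    (hy : ¬ SemistableWeights ℂ (fun j l => y (Sum.inl (j, l))) (fun l => y (Sum.inr l))) :
    ∃ δ : ℝ, 0 < δ ∧ ∀ x : ExponentIndex n r → ℝ, (∀ i, ∃ z : ℤ, |x i - y i - z| < δ) →
      ¬ SemistableWeights ℂ (fun j l => x (Sum.inl (j, l))) (fun l => x (Sum.inr l)) := by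
  by_contra hcon
  push Not at hcon
  choose x hx hxs using fun k : ℕ => hcon (1 / ((k : ℝ) + 1)) (by positivity)
  obtain ⟨z, hz⟩ := exists_shift hx
  apply hy
  refine limit (K := fun _ => ℂ) (fun q hq => Filter.Eventually.of_forall fun i => by exact_mod_cast hq)
    (fun j l => hz (Sum.inl (j, l))) (fun l => hz (Sum.inr l)) fun k => ?_
  exact (hxs k).congr (fun j l => ⟨z k (Sum.inl (j, l)), by ring⟩)
    (fun l => ⟨z k (Sum.inr l), by ring⟩)

/-- Violations of stability are stable along the walls. -/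
lemma stable_open (y : ExponentIndex n r → ℝ)
    (hy : ¬ StableWeights ℂ (fun j l => y (Sum.inl (j, l))) (fun l => y (Sum.inr l))) :
    ∃ δ : ℝ, 0 < δ ∧ ∀ x : ExponentIndex n r → ℝ,
      (∀ m : ExponentIndex n r → ℤ, (∀ i, |m i| ≤ ((n + 1) * r : ℕ)) →
        (∃ z : ℤ, ∑ i, (m i : ℝ) * y i = z) → ∃ z : ℤ, ∑ i, (m i : ℝ) * x i = z) →
      (∀ i, ∃ z : ℤ, |x i - y i - z| < δ) →
      ¬ StableWeights ℂ (fun j l => x (Sum.inl (j, l))) (fun l => x (Sum.inr l)) := by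
  by_contra hcon
  push Not at hcon
  choose x hxm hx hxs using fun k : ℕ => hcon (1 / ((k : ℝ) + 1)) (by positivity)
  obtain ⟨z, hz⟩ := exists_shift hx
  apply hy
  refine stable_limit (x := fun k c => x k c - z k c) hz (fun k m hm hmy => ?_) fun k => ?_
  · obtain ⟨e, he⟩ := hxm k m hm hmy
    refine ⟨e - ∑ c, m c * z k c, ?_⟩
    push_cast
    rw [← he, ← Finset.sum_sub_distrib]
    exact Finset.sum_congr rfl fun c _ => by ring
  · exact (hxs k).congr (fun j l => ⟨z k (Sum.inl (j, l)), by ring⟩)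
      (fun l => ⟨z k (Sum.inr l), by ring⟩)

end near

section classes

variable {R : Type u} [CommRing R] {n r : ℕ}

/-- Collecting the classes. -/
lemma collect' [IsDomain R] (α : Fin n → R) (A : Fin n → Matrix (Fin r) (Fin r) R) (N : ℕ)
    (hN : 0 < N) (ε : ℝ) (S : Finset (ZMod N)ˣ) (hS : ε * N.totient ≤ S.card)
    (g : (ZMod N)ˣ → R)
    (h : ∀ u ∈ S, ∃ a : ℤ, ((a : ℤ) : ZMod N) = ((u : (ZMod N)ˣ) : ZMod N) ∧
      ∃ P₀ : ℕ, ∀ p : ℕ, p.Prime → P₀ < p → (N : ℤ) ∣ a * p + 1 →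
        ∀ (𝔪 : Ideal R) [𝔪.IsMaximal], (p : R) ∈ 𝔪 → g u ∉ 𝔪 → ¬ PCurvZeroAt α A 𝔪) :
    BadClasses α A N ε (∏ u ∈ S, g u) := by
  classical
  have : NeZero N := ⟨hN.ne'⟩
  choose! a ha P hP using h
  refine ⟨S.image (fun u => -u⁻¹), S.sup P, ?_, ?_⟩
  · rw [Finset.card_image_of_injective]
    · exact hS
    · intro u v huv
      have h1 : -u⁻¹ = -v⁻¹ := huv
      exact inv_injective (neg_injective h1)
  · rintro p hp hpP ⟨v, hv, hpv⟩ 𝔪 h𝔪 hpm hgm
    obtain ⟨u, hu, rfl⟩ := Finset.mem_image.mp hv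
    refine hP u hu p hp (lt_of_le_of_lt (Finset.le_sup hu) hpP) ?_ 𝔪 hpm ?_
    · rw [← ZMod.intCast_zmod_eq_zero_iff_dvd]
      push_cast
      rw [ha u hu, hpv, Units.val_neg, mul_neg, Units.mul_inv, neg_add_cancel]
    · intro hgu
      exact hgm (𝔪.mem_of_dvd (Finset.dvd_prod_of_mem g hu) hgu)

/-- A set of bad classes contradicts condition (ii). -/
lemma BadClasses.not_condII [IsDomain R] [CharZero R] [Algebra.FiniteType ℤ R] {α : Fin n → R}
    {A : Fin n → Matrix (Fin r) (Fin r) R} {N : ℕ} (hN : 0 < N) {ε : ℝ} (hε : 0 < ε) {g : R}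
    (hg : g ≠ 0) (h : BadClasses α A N ε g) : ¬ CondII α A := by
  have : NeZero N := ⟨hN.ne'⟩
  obtain ⟨S, P₀, h1, h3⟩ := h
  have hS : S.Nonempty := by
    rw [← Finset.card_pos]
    have h4 : (0 : ℝ) < S.card := lt_of_lt_of_le
      (mul_pos hε (by exact_mod_cast Nat.totient_pos.mpr hN)) h1
    exact_mod_cast h4
  obtain ⟨v, hv⟩ := hS
  set a : ℤ := (((-v⁻¹ : (ZMod N)ˣ) : ZMod N).val : ℤ) with ha
  have haZ : ((a : ℤ) : ZMod N) = ((-v⁻¹ : (ZMod N)ˣ) : ZMod N) := by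
    rw [ha]; push_cast; rw [ZMod.natCast_zmod_val]
  have hcop : IsCoprime a (N : ℤ) := by
    rw [ha]
    exact Nat.isCoprime_iff_coprime.mpr (ZMod.val_coe_unit_coprime _)
  refine not_condII_of α A N hN a hcop ⟨g, hg, P₀, fun p hp hpP hap 𝔪 _ hpm hgm => ?_⟩
  refine h3 p hp hpP ⟨v, hv, ?_⟩ 𝔪 hpm hgm
  rw [← ZMod.intCast_zmod_eq_zero_iff_dvd] at hap
  push_cast at hap
  rw [haZ, Units.val_neg, neg_mul] at hap
  have h5 : ((v⁻¹ : (ZMod N)ˣ) : ZMod N) * (p : ZMod N) = 1 := by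
    have h6 := eq_neg_of_add_eq_zero_left hap
    exact neg_injective h6
  calc ((p : ℕ) : ZMod N) = ((v : (ZMod N)ˣ) : ZMod N) *
        (((v⁻¹ : (ZMod N)ˣ) : ZMod N) * (p : ZMod N)) := by
          rw [← mul_assoc, Units.mul_inv, one_mul]
    _ = _ := by rw [h5, mul_one]

end classes

theorem uniform (n r : ℕ) :
    ∃ (ε : ℝ) (𝒟 : Finset (AddSubgroup (ExponentIndex n r → ℤ) × (ExponentIndex n r → ℚ))),
      0 < ε ∧
      (∀ C ∈ 𝒟, ∀ z : ExponentIndex n r → ℝ, InCoset C.1 C.2 z →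
        SemistableWeights ℂ (fun j l => z (Sum.inl (j, l))) (fun l => z (Sum.inr l))) ∧
      ∀ (R : Type u) [CommRing R] [IsDomain R] [CharZero R] [Algebra.FiniteType ℤ R]
        (α : Fin n → R) (A : Fin n → Matrix (Fin r) (Fin r) R)
        (lam : Fin n → Fin r → ℚ) (phi : Fin r → ℚ) (N : ℕ),
        (∀ i j, i ≠ j → IsUnit (α i - α j)) →
        (∀ j, HasExponents (A j) (lam j)) → HasExponents (∑ j, A j) phi →
        0 < N → (∀ j l, ∃ m : ℤ, (N : ℚ) * lam j l = m) → (∀ l, ∃ m : ℤ, (N : ℚ) * phi l = m) →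
        (((∃ C ∈ 𝒟, InCoset C.1 C.2 (fun i => ((Sum.elim (fun p => lam p.1 p.2) phi i : ℚ) : ℝ))) ∧
          ∀ a : ℤ, IsCoprime a (N : ℤ) →
            SemistableWeights ℂ (fun j l => (a : ℝ) * lam j l) (fun l => (a : ℝ) * phi l)) ∨
          (BadClasses α A N ε 1 ∧ ¬ CondII α A)) ∧
        (AbsIrreducible α A →
          (∀ a : ℤ, IsCoprime a (N : ℤ) →
            StableWeights ℂ (fun j l => (a : ℝ) * lam j l) (fun l => (a : ℝ) * phi l)) ∨
          (∃ g : R, g ≠ 0 ∧ BadClasses α A N ε g) ∧ ¬ CondII α A) := by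
  classical
  obtain ⟨ε₁, hε₁, hgap₁⟩ := Pool.Agent.Y227.UD.gap (I := ExponentIndex n r) (fun _ => 0)
    {z | ¬ SemistableWeights ℂ (fun j l => z (Sum.inl (j, l))) (fun l => z (Sum.inr l))} (by
      intro y hy
      obtain ⟨δ, hδ, h⟩ := semistable_open y hy
      exact ⟨δ, hδ, fun x _ hx => h x hx⟩)
  obtain ⟨𝒟, h𝒟, hcov⟩ := torsion_cosets (I := ExponentIndex n r) (fun _ => 0)
    {z | ¬ SemistableWeights ℂ (fun j l => z (Sum.inl (j, l))) (fun l => z (Sum.inr l))} (by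
      intro y hy
      obtain ⟨δ, hδ, h⟩ := semistable_open y hy
      exact ⟨δ, hδ, fun x _ hx => h x hx⟩)
  obtain ⟨ε₂, hε₂, hgap₂⟩ := gap' (I := ExponentIndex n r) ((n + 1) * r)
    {z | ¬ StableWeights ℂ (fun j l => z (Sum.inl (j, l))) (fun l => z (Sum.inr l))} (by
      intro y hy
      exact stable_open y hy)
  refine ⟨min ε₁ ε₂, 𝒟, lt_min hε₁ hε₂, fun C hC z hz => ?_, ?_⟩
  · by_contra h
    exact (h𝒟 C hC).2.2.2 z hz h
  intro R _ _ _ _ α A lam phi N hα hlam hphi hN hNlam hNphi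
  have : NeZero N := ⟨hN.ne'⟩
  have hmin : 0 < min ε₁ ε₂ := lt_min hε₁ hε₂
  set x : ExponentIndex n r → ℚ := Sum.elim (fun p => lam p.1 p.2) phi with hx
  have hNx : ∀ i, ∃ z : ℤ, (N : ℚ) * x i = z := by
    rintro (⟨j, l⟩ | l)
    · exact hNlam j l
    · exact hNphi l
  have htr : ∃ z : ℤ, ∑ i : ExponentIndex n r, (((fun _ => 0 : ExponentIndex n r → ℤ) i : ℤ) : ℚ) * x i = z :=
    ⟨0, by simp⟩
  have hrep : ∀ u : (ZMod N)ˣ, (((((u : (ZMod N)ˣ) : ZMod N).val : ℤ)) : ZMod N) =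
      ((u : (ZMod N)ˣ) : ZMod N) := by
    intro u
    push_cast; rw [ZMod.natCast_zmod_val]
  constructor
  · by_cases key : ∃ a : ℤ, IsCoprime a (N : ℤ) ∧
      ¬ SemistableWeights ℂ (fun j l => (a : ℝ) * lam j l) (fun l => (a : ℝ) * phi l)
    · right
      obtain ⟨S, hS1, hS2⟩ := hgap₁ x htr N hN hNx key
      have hbad : BadClasses α A N (min ε₁ ε₂) (∏ u ∈ S, (fun _ => (1 : R)) u) := by
        refine collect' α A N hN _ S ((mul_le_mul_of_nonneg_right (min_le_left _ _)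
          (Nat.cast_nonneg _)).trans hS1) (fun _ => (1 : R)) fun u hu => ⟨_, hrep u, ?_⟩
        obtain ⟨P₀, hP₀⟩ := (final α hα A lam phi hlam hphi N hN hNlam hNphi
          (((u : (ZMod N)ˣ) : ZMod N).val : ℤ)).1 (hS2 u hu _ (hrep u))
        exact ⟨P₀, fun p hp hpP hap 𝔪 _ hpm _ => hP₀ p hp hpP hap 𝔪 hpm⟩
      rw [Finset.prod_const_one] at hbad
      exact ⟨hbad, hbad.not_condII hN hmin one_ne_zero⟩
    · push Not at key
      left
      refine ⟨?_, key⟩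
      refine hcov x htr ⟨N, hN, hNx, fun a ha h => h ?_⟩
      exact key a ha
  · intro hirr
    by_cases key : ∃ a : ℤ, IsCoprime a (N : ℤ) ∧
      ¬ StableWeights ℂ (fun j l => (a : ℝ) * lam j l) (fun l => (a : ℝ) * phi l)
    · right
      obtain ⟨S, hS1, hS2⟩ := hgap₂ x N hN hNx key
      have h1 : ∀ u ∈ S, ∃ g : R, g ≠ 0 ∧ ∃ P₀ : ℕ, ∀ p : ℕ, p.Prime → P₀ < p →
          (N : ℤ) ∣ (((u : (ZMod N)ˣ) : ZMod N).val : ℤ) * p + 1 →
          ∀ (𝔪 : Ideal R) [𝔪.IsMaximal], (p : R) ∈ 𝔪 → g ∉ 𝔪 → ¬ PCurvZeroAt α A 𝔪 := by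
        intro u hu
        exact (final α hα A lam phi hlam hphi N hN hNlam hNphi
          (((u : (ZMod N)ˣ) : ZMod N).val : ℤ)).2.1 hirr (hS2 u hu _ (hrep u))
      choose! g hg hP using h1
      have hbad : BadClasses α A N (min ε₁ ε₂) (∏ u ∈ S, g u) :=
        collect' α A N hN _ S ((mul_le_mul_of_nonneg_right (min_le_right _ _)
          (Nat.cast_nonneg _)).trans hS1) g fun u hu => ⟨_, hrep u, hP u hu⟩
      have hg0 : ∏ u ∈ S, g u ≠ 0 := Finset.prod_ne_zero_iff.mpr hg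
      exact ⟨⟨_, hg0, hbad⟩, hbad.not_condII hN hmin hg0⟩
    · push Not at key
      exact Or.inl key

end Pool.Agent.Y227.SS
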