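import Pool.Agent.Y227.SS.CharP

set_option autoImplicit false

/-!
Reduced bases of submodules of `k[x] ^ r`.
-/

open Polynomial Pool.Agent.W432.PC

namespace Pool.Agent.Y227.SS

section linalg

variable {k : Type*} [Field k] {s r : ℕ}

/-- A matrix with independent rows has a nonzero maximal minor. -/
lemma exists_minor (M : Matrix (Fin s) (Fin r) k)
    (h : ∀ c : Fin s → k, Matrix.vecMul c M = 0 → c = 0) :
    ∃ J : Fin s → Fin r, (M.submatrix id J).det ≠ 0 := by
  classical
  have hker : LinearMap.ker M.vecMulLinear = ⊥ := by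
    rw [LinearMap.ker_eq_bot']
    intro c hc
    exact h c hc
  obtain ⟨g, hg⟩ := LinearMap.exists_leftInverse_of_injective M.vecMulLinear hker
  let N : Matrix (Fin r) (Fin s) k := (LinearMap.toMatrix' g).transpose
  have hN : ∀ v : Fin r → k, Matrix.vecMul v N = g v := by
    intro v
    rw [Matrix.vecMul_transpose, LinearMap.toMatrix'_mulVec]
  have hMN : M * N = 1 := by
    rw [Matrix.ext_iff_vecMul]
    intro v
    rw [← Matrix.vecMul_vecMul, hN, Matrix.vecMul_one]
    exact LinearMap.congr_fun hg v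
  by_contra hcon
  push Not at hcon
  have h1 := det_mul_expand M N
  rw [hMN, Matrix.det_one] at h1
  rw [Finset.sum_eq_zero fun J _ => by rw [hcon J, mul_zero]] at h1
  exact one_ne_zero h1

end linalg

section fam

variable {k : Type*} [Field k] {s r : ℕ}

/-- The rows of `v` are independent and in the span of the rows of `V` over the rational
functions. -/
def InFam (V v : Matrix (Fin s) (Fin r) k[X]) : Prop :=
  (∃ J, mnr v J ≠ 0) ∧ ∃ c : k[X], c ≠ 0 ∧ ∃ F : Matrix (Fin s) (Fin s) k[X], c • v = F * V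

lemma mnr_updateRow {v : Matrix (Fin s) (Fin r) k[X]} (k₀ : Fin s) (l : Fin s → k[X]) (d : k[X])
    {u : Fin r → k[X]} (hu : d • u = ∑ i, l i • v i) (J : Fin s → Fin r) :
    d * mnr (v.updateRow k₀ u) J = l k₀ * mnr v J := by
  classical
  unfold mnr
  have h1 : (v.updateRow k₀ u).submatrix id J = (v.submatrix id J).updateRow k₀ (fun c => u (J c)) := by
    ext1 i c
    by_cases hi : i = k₀
    · subst hi; simp
    · simp [hi]
  rw [h1, ← Matrix.det_updateRow_smul, ← det_updateRow_sum' (v.submatrix id J) l k₀]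
  congr 2
  ext1 c
  have h2 := congrFun hu (J c)
  rw [Finset.sum_apply] at h2 ⊢
  exact h2

lemma InFam.update {V v : Matrix (Fin s) (Fin r) k[X]} (h : InFam V v) (k₀ : Fin s)
    (l : Fin s → k[X]) (hl : l k₀ ≠ 0) (d : k[X]) (hd : d ≠ 0)
    {u : Fin r → k[X]} (hu : d • u = ∑ i, l i • v i) : InFam V (v.updateRow k₀ u) := by
  classical
  obtain ⟨⟨J, hJ⟩, c, hc, F, hF⟩ := h
  refine ⟨⟨J, fun h0 => ?_⟩, d * c, mul_ne_zero hd hc, (d • F).updateRow k₀ (∑ i, l i • F i), ?_⟩
  · have h1 := mnr_updateRow k₀ l d hu J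
    rw [h0, mul_zero] at h1
    exact mul_ne_zero hl hJ h1.symm
  · ext1 i q
    have hF' : ∀ a, c * v a q = ∑ b, F a b * V b q := by
      intro a
      have := congrFun (congrFun hF a) q
      simpa [Matrix.mul_apply] using this
    by_cases hi : i = k₀
    · subst hi
      simp only [Matrix.smul_apply, Matrix.updateRow_self, smul_eq_mul, Matrix.mul_apply]
      have h2 := congrFun hu q
      rw [Finset.sum_apply] at h2
      simp only [Pi.smul_apply, smul_eq_mul] at h2
      calc d * c * u q = c * (d * u q) := by ring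
        _ = ∑ a, l a * (c * v a q) := by
            rw [h2, Finset.mul_sum]
            exact Finset.sum_congr rfl fun a _ => by ring
        _ = ∑ a, ∑ b, l a * (F a b * V b q) := by
            refine Finset.sum_congr rfl fun a _ => ?_
            rw [hF' a, Finset.mul_sum]
        _ = ∑ b, ∑ a, l a * (F a b * V b q) := Finset.sum_comm
        _ = _ := by
            refine Finset.sum_congr rfl fun b _ => ?_
            rw [Finset.sum_apply, Finset.sum_mul]
            exact Finset.sum_congr rfl fun a _ => by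
              simp only [Pi.smul_apply, smul_eq_mul]; ring
    · simp only [Matrix.smul_apply, Matrix.updateRow_ne hi, smul_eq_mul, Matrix.mul_apply]
      rw [mul_assoc, hF' i, Finset.mul_sum]
      exact Finset.sum_congr rfl fun b _ => by ring

/-- A member of minimal degree. -/
structure MinMem (V v : Matrix (Fin s) (Fin r) k[X]) : Prop where
  mem : InFam V v
  min : ∀ v', InFam V v' → ∑ i, vdeg (v i) ≤ ∑ i, vdeg (v' i)

lemma exists_minMem {V : Matrix (Fin s) (Fin r) k[X]} (hV : ∃ J, mnr V J ≠ 0) :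
    ∃ v, MinMem V v := by
  let S : Set ℕ := {m | ∃ v, InFam V v ∧ ∑ i, vdeg (v i) = m}
  have hS : S.Nonempty := ⟨_, V, ⟨hV, 1, one_ne_zero, 1, by simp⟩, rfl⟩
  obtain ⟨v, h1, h2⟩ := Nat.sInf_mem hS
  exact ⟨v, h1, fun v' hv' => by rw [h2]; exact Nat.sInf_le ⟨v', hv', rfl⟩⟩

lemma MinMem.exchange {V v : Matrix (Fin s) (Fin r) k[X]} (h : MinMem V v) (k₀ : Fin s)
    (l : Fin s → k[X]) (hl : l k₀ ≠ 0) (d : k[X]) (hd : d ≠ 0)
    {u : Fin r → k[X]} (hu : d • u = ∑ i, l i • v i) : vdeg (v k₀) ≤ vdeg u := by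
  classical
  have h1 := h.min _ (h.mem.update k₀ l hl d hd hu)
  rw [← Finset.add_sum_erase _ _ (Finset.mem_univ k₀),
    ← Finset.add_sum_erase Finset.univ (fun i => vdeg (v.updateRow k₀ u i))
      (Finset.mem_univ k₀)] at h1
  have h2 : ∑ x ∈ Finset.univ.erase k₀, vdeg (v.updateRow k₀ u x) =
      ∑ x ∈ Finset.univ.erase k₀, vdeg (v x) := by
    refine Finset.sum_congr rfl fun x hx => ?_
    rw [Matrix.updateRow_ne (Finset.mem_erase.mp hx).1]
  rw [h2, Matrix.updateRow_self] at h1
  omega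

lemma InFam.row_ne {V v : Matrix (Fin s) (Fin r) k[X]} (h : InFam V v) (k₀ : Fin s) :
    v k₀ ≠ 0 := by
  obtain ⟨⟨J, hJ⟩, -⟩ := h
  intro h0
  apply hJ
  exact Matrix.det_eq_zero_of_row_eq_zero k₀ fun j => by
    rw [Matrix.submatrix_apply, id, h0]; rfl

/-- A vector whose coordinates have degree at most `d` and zero coefficient at `d`. -/
lemma vdeg_lt_of_coeff {u : Fin r → k[X]} (hu : u ≠ 0) {d : ℕ} (h1 : ∀ i, (u i).natDegree ≤ d)
    (h2 : ∀ i, (u i).coeff d = 0) : vdeg u < d := by
  obtain ⟨j, hj⟩ := Function.ne_iff.mp hu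
  have h3 : ∀ i, u i ≠ 0 → (u i).natDegree ≠ d := by
    intro i hi h4
    apply hi
    rw [← leadingCoeff_eq_zero, leadingCoeff, h4]
    exact h2 i
  have h4 : 0 < d := by
    have := h3 j hj
    have := h1 j
    omega
  unfold vdeg
  rw [Finset.sup_lt_iff (by simpa using h4)]
  intro i _
  by_cases hi : u i = 0
  · rw [hi]; simpa using h4
  · exact lt_of_le_of_ne (h1 i) (h3 i hi)

/-- The leading vectors of a minimal member are independent. -/
lemma MinMem.lead {V v : Matrix (Fin s) (Fin r) k[X]} (h : MinMem V v) :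
    ∃ J, (mnr v J).coeff (∑ i, vdeg (v i)) ≠ 0 := by
  classical
  obtain ⟨J, hJ⟩ := exists_minor (Matrix.of fun (i : Fin s) (l : Fin r) => (v i l).coeff (vdeg (v i))) (by
    intro c hc
    by_contra hc0
    have hne : (Finset.univ.filter fun i => c i ≠ 0).Nonempty := by
      obtain ⟨i, hi⟩ := Function.ne_iff.mp hc0
      exact ⟨i, Finset.mem_filter.mpr ⟨Finset.mem_univ i, hi⟩⟩
    obtain ⟨k₀, hk₀, hmax⟩ := Finset.exists_max_image _ (fun i => vdeg (v i)) hne
    have hk₀' : c k₀ ≠ 0 := (Finset.mem_filter.mp hk₀).2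
    have hmax' : ∀ i, c i ≠ 0 → vdeg (v i) ≤ vdeg (v k₀) := fun i hi =>
      hmax i (Finset.mem_filter.mpr ⟨Finset.mem_univ i, hi⟩)
    let l : Fin s → k[X] := fun i => C (c i) * X ^ (vdeg (v k₀) - vdeg (v i))
    let u : Fin r → k[X] := ∑ i, l i • v i
    have hl : l k₀ ≠ 0 := by
      simp only [l, Nat.sub_self, pow_zero, mul_one]
      exact C_ne_zero.mpr hk₀'
    have h1 := h.exchange k₀ l hl 1 one_ne_zero (u := u) (by rw [one_smul])
    have hu0 : u ≠ 0 := by
      intro h0
      obtain ⟨⟨J, hJ⟩, -⟩ := h.mem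
      have h2 := mnr_updateRow (v := v) k₀ l 1 (u := u) (by rw [one_smul]) J
      rw [one_mul, h0] at h2
      have h3 : mnr (v.updateRow k₀ 0) J = 0 := Matrix.det_eq_zero_of_row_eq_zero k₀ fun j => by
        simp [Matrix.submatrix_apply]
      rw [h3] at h2
      exact mul_ne_zero hl hJ h2.symm
    refine absurd h1 (not_le.mpr (vdeg_lt_of_coeff hu0 ?_ ?_))
    · intro j
      simp only [u, Finset.sum_apply, Pi.smul_apply, smul_eq_mul, l]
      refine natDegree_sum_le_of_forall_le _ _ fun i _ => ?_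
      by_cases hi : c i = 0
      · simp [hi]
      · rw [mul_assoc]
        refine (natDegree_C_mul_le _ _).trans (natDegree_mul_le.trans ?_)
        rw [natDegree_X_pow]
        have := hmax' i hi
        have := natDegree_le_vdeg (v i) j
        omega
    · intro j
      have h2 : ∑ i, c i * (v i j).coeff (vdeg (v i)) = 0 := by
        have h3 := congrFun hc j
        simpa [Matrix.vecMul, dotProduct] using h3
      simp only [u, Finset.sum_apply, Pi.smul_apply, smul_eq_mul, l, finsetSum_coeff]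
      rw [← h2]
      refine Finset.sum_congr rfl fun i _ => ?_
      rw [mul_assoc, coeff_C_mul]
      by_cases hi : c i = 0
      · simp [hi]
      · congr 1
        rw [coeff_X_pow_mul', if_pos (Nat.sub_le _ _), Nat.sub_sub_self (hmax' i hi)])
  refine ⟨J, ?_⟩
  unfold mnr
  rw [coeff_det_of_natDegree_le (v.submatrix id J) (fun i => vdeg (v i))
    fun i l => natDegree_le_vdeg (v i) (J l)]
  exact hJ

/-- The minors of a minimal member have no common zero. -/
lemma MinMem.eval {V v : Matrix (Fin s) (Fin r) k[X]} (h : MinMem V v) (x₀ : k) :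
    ∃ J, (mnr v J).eval x₀ ≠ 0 := by
  classical
  obtain ⟨J, hJ⟩ := exists_minor (Matrix.of fun (i : Fin s) (l : Fin r) => (v i l).eval x₀) (by
    intro c hc
    by_contra hc0
    have hne : (Finset.univ.filter fun i => c i ≠ 0).Nonempty := by
      obtain ⟨i, hi⟩ := Function.ne_iff.mp hc0
      exact ⟨i, Finset.mem_filter.mpr ⟨Finset.mem_univ i, hi⟩⟩
    obtain ⟨k₀, hk₀, hmax⟩ := Finset.exists_max_image _ (fun i => vdeg (v i)) hne
    have hk₀' : c k₀ ≠ 0 := (Finset.mem_filter.mp hk₀).2
    have hmax' : ∀ i, c i ≠ 0 → vdeg (v i) ≤ vdeg (v k₀) := fun i hi =>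
      hmax i (Finset.mem_filter.mpr ⟨Finset.mem_univ i, hi⟩)
    have hdvd : ∀ j, (X - C x₀) ∣ ∑ i, C (c i) * v i j := by
      intro j
      rw [dvd_iff_isRoot, IsRoot.def, eval_finsetSum]
      have h3 := congrFun hc j
      simpa [Matrix.vecMul, dotProduct] using h3
    choose u hu using hdvd
    have hrel : (X - C x₀) • u = ∑ i, C (c i) • v i := by
      ext1 j
      rw [Finset.sum_apply]
      exact (hu j).symm
    have h1 := h.exchange k₀ (fun i => C (c i)) (C_ne_zero.mpr hk₀') (X - C x₀)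
      (X_sub_C_ne_zero x₀) hrel
    have hu0 : u ≠ 0 := by
      intro h0
      obtain ⟨⟨J, hJ⟩, -⟩ := h.mem
      have h2 := mnr_updateRow (v := v) k₀ (fun i => C (c i)) (X - C x₀) hrel J
      rw [h0] at h2
      have h3 : mnr (v.updateRow k₀ 0) J = 0 := Matrix.det_eq_zero_of_row_eq_zero k₀ fun j => by
        simp [Matrix.submatrix_apply]
      rw [h3, mul_zero] at h2
      exact mul_ne_zero (C_ne_zero.mpr hk₀') hJ h2.symm
    obtain ⟨j₀, hj₀⟩ := Function.ne_iff.mp hu0
    have h2 : ∀ j, u j ≠ 0 → (u j).natDegree + 1 ≤ vdeg (v k₀) := by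
      intro j hj
      have h3 : ((X - C x₀) * u j).natDegree ≤ vdeg (v k₀) := by
        rw [← hu j]
        refine natDegree_sum_le_of_forall_le _ _ fun i _ => ?_
        by_cases hi : c i = 0
        · simp [hi]
        · exact (natDegree_C_mul_le _ _).trans ((natDegree_le_vdeg _ _).trans (hmax' i hi))
      rw [natDegree_mul (X_sub_C_ne_zero x₀) hj, natDegree_X_sub_C] at h3
      omega
    have h4 : 0 < vdeg (v k₀) := by
      have := h2 j₀ hj₀
      omega
    have h5 : vdeg u < vdeg (v k₀) := by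
      have h6 : vdeg u ≤ vdeg (v k₀) - 1 := vdeg_le fun i => by
        by_cases hi : u i = 0
        · rw [hi]; simp
        · have := h2 i hi
          omega
      omega
    omega)
  refine ⟨J, ?_⟩
  unfold mnr
  rw [← coe_evalRingHom, RingHom.map_det]
  exact hJ

/-- A polynomial dividing all the minors of a minimal member, times a fixed polynomial, divides
this fixed polynomial. -/
lemma MinMem.dvd [IsAlgClosed k] {V v : Matrix (Fin s) (Fin r) k[X]} (h : MinMem V v)
    {q f : k[X]} (hq : ∀ J, q ∣ f * mnr v J) : q ∣ f := by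
  classical
  have htop : Ideal.span (Set.range fun J => mnr v J) = ⊤ := by
    by_contra hne
    let g := Submodule.IsPrincipal.generator (Ideal.span (Set.range fun J => mnr v J))
    have hg : Ideal.span {g} = Ideal.span (Set.range fun J => mnr v J) :=
      Ideal.span_singleton_generator _
    have hg1 : ¬ IsUnit g := by
      intro hu
      rw [← Ideal.span_singleton_eq_top, hg] at hu
      exact hne hu
    have hgd : ∀ J, g ∣ mnr v J := by
      intro J
      rw [← Ideal.mem_span_singleton, hg]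
      exact Ideal.subset_span ⟨J, rfl⟩
    obtain ⟨x₀, hx₀⟩ : ∃ x₀, g.eval x₀ = 0 := by
      by_cases h0 : g = 0
      · exact ⟨0, by rw [h0]; simp⟩
      · refine IsAlgClosed.exists_root g fun hd => hg1 ?_
        exact isUnit_iff_degree_eq_zero.mpr hd
    obtain ⟨J, hJ⟩ := h.eval x₀
    obtain ⟨t, ht⟩ := hgd J
    exact hJ (by rw [ht, eval_mul, hx₀, zero_mul])
  have h1 : (1 : k[X]) ∈ Ideal.span (Set.range fun J => mnr v J) := by rw [htop]; trivial
  obtain ⟨b, hb⟩ := (Ideal.mem_span_range_iff_exists_fun).mp h1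
  have h2 : f = ∑ J, b J * (f * mnr v J) := by
    calc f = f * ∑ J, b J * mnr v J := by rw [hb, mul_one]
      _ = _ := by
        rw [Finset.mul_sum]
        exact Finset.sum_congr rfl fun J _ => by ring
  rw [h2]
  exact Finset.dvd_sum fun J _ => (hq J).mul_left _

/-- The degree bound for a reduced basis. -/
lemma MinMem.degree_le [IsAlgClosed k] {V v : Matrix (Fin s) (Fin r) k[X]} (h : MinMem V v)
    {q : k[X]} (hq : ∀ J, q ∣ mnr V J) {D : ℕ} (hD : ∀ J, (mnr V J).natDegree ≤ D) :
    ∑ i, vdeg (v i) + q.natDegree ≤ D := by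
  classical
  obtain ⟨⟨J₀, hJ₀⟩, c, hc, F, hF⟩ := h.mem
  have hrel : ∀ J, c ^ s * mnr v J = F.det * mnr V J := by
    intro J
    rw [← mnr_smul, hF]
    unfold mnr
    rw [show (F * V).submatrix id J = F * V.submatrix id J from by
      ext i a; simp [Matrix.mul_apply], Matrix.det_mul]
  have hF0 : F.det ≠ 0 := by
    intro h0
    have h1 := hrel J₀
    rw [h0, zero_mul] at h1
    exact mul_ne_zero (pow_ne_zero _ hc) hJ₀ h1
  have h1 : F.det * q ∣ c ^ s := h.dvd fun J => by
    rw [hrel J]
    exact mul_dvd_mul_left _ (hq J)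
  obtain ⟨J₁, hJ₁⟩ := h.lead
  have hv1 : mnr v J₁ ≠ 0 := fun h0 => hJ₁ (by rw [h0, coeff_zero])
  have hV1 : mnr V J₁ ≠ 0 := by
    intro h0
    have h2 := hrel J₁
    rw [h0, mul_zero] at h2
    exact mul_ne_zero (pow_ne_zero _ hc) hv1 h2
  have hq0 : q ≠ 0 := by
    rintro rfl
    exact hV1 (zero_dvd_iff.mp (hq J₁))
  have h2 := natDegree_le_of_dvd h1 (pow_ne_zero _ hc)
  rw [natDegree_mul hF0 hq0] at h2
  have h3 := congrArg natDegree (hrel J₁)
  rw [natDegree_mul (pow_ne_zero _ hc) hv1, natDegree_mul hF0 hV1] at h3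
  have h4 := le_natDegree_of_ne_zero hJ₁
  have h5 := hD J₁
  omega

end fam

section stable

variable {k : Type*} [Field k] {n s r : ℕ} {α : Fin n → k} {A : Fin n → Matrix (Fin r) (Fin r) k}

/-- The span of solutions is stable. -/
lemma InFam.stable {V v : Matrix (Fin s) (Fin r) k[X]} (h : InFam V v)
    (hV : ∀ i, Sol α A (V i)) :
    ∃ (c : k[X]) (G : Matrix (Fin s) (Fin s) k[X]), c ≠ 0 ∧ c • opRows α A v = G * v := by
  classical
  obtain ⟨⟨J₀, hJ₀⟩, c, hc, F, hF⟩ := h
  have hrel : c ^ s * mnr v J₀ = F.det * mnr V J₀ := by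
    rw [← mnr_smul, hF]
    unfold mnr
    rw [show (F * V).submatrix id J₀ = F * V.submatrix id J₀ from by
      ext i a; simp [Matrix.mul_apply], Matrix.det_mul]
  have hF0 : F.det ≠ 0 := by
    intro h0
    rw [h0, zero_mul] at hrel
    exact mul_ne_zero (pow_ne_zero _ hc) hJ₀ hrel
  -- `V` in terms of `v`
  have hVv : F.det • V = (c • F.adjugate) * v := by
    rw [Matrix.smul_mul, ← Matrix.mul_smul, hF, ← Matrix.mul_assoc, Matrix.adjugate_mul,
      Matrix.smul_mul, Matrix.one_mul]
  -- the derivative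
  have hder : c • opRows α A v = (T α • F.map derivative) * V - (T α * derivative c) • v := by
    ext1 i l
    have hF' : ∀ q, c * v i q = ∑ b, F i b * V b q := by
      intro q
      have := congrFun (congrFun hF i) q
      simpa [Matrix.mul_apply] using this
    have h1 := congrArg derivative (hF' l)
    rw [derivative_mul, derivative_sum] at h1
    simp only [derivative_mul] at h1
    have h2 : c * (B α A).mulVec (v i) l = ∑ b, F i b * (B α A).mulVec (V b) l := by
      simp only [Matrix.mulVec, dotProduct, Finset.mul_sum]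
      calc ∑ q, c * (B α A l q * v i q) = ∑ q, B α A l q * (c * v i q) :=
            Finset.sum_congr rfl fun q _ => by ring
        _ = ∑ q, ∑ b, B α A l q * (F i b * V b q) := by
            refine Finset.sum_congr rfl fun q _ => ?_
            rw [hF' q, Finset.mul_sum]
        _ = ∑ b, ∑ q, B α A l q * (F i b * V b q) := Finset.sum_comm
        _ = _ := Finset.sum_congr rfl fun b _ => Finset.sum_congr rfl fun q _ => by ring
    simp only [opRows, Matrix.smul_apply, Matrix.of_apply, smul_eq_mul, Matrix.sub_apply,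
      Matrix.mul_apply, Matrix.map_apply]
    rw [mul_sub, h2]
    have h3 : ∑ b, F i b * (B α A).mulVec (V b) l = ∑ b, F i b * (T α * derivative (V b l)) :=
      Finset.sum_congr rfl fun b _ => by rw [← hV b l]
    rw [h3]
    have h4 : ∑ b, (derivative (F i b) * V b l + F i b * derivative (V b l)) =
        ∑ b, derivative (F i b) * V b l + ∑ b, F i b * derivative (V b l) :=
      Finset.sum_add_distrib
    rw [h4] at h1
    have h5 : ∑ b, F i b * (T α * derivative (V b l)) = T α * ∑ b, F i b * derivative (V b l) := by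
      rw [Finset.mul_sum]
      exact Finset.sum_congr rfl fun b _ => by ring
    have h6 : ∑ b, T α * derivative (F i b) * V b l = T α * ∑ b, derivative (F i b) * V b l := by
      rw [Finset.mul_sum]
      exact Finset.sum_congr rfl fun b _ => by ring
    rw [h5, h6]
    linear_combination T α * h1
  refine ⟨F.det * c, (T α • F.map derivative) * (c • F.adjugate) -
    (F.det * (T α * derivative c)) • 1, mul_ne_zero hF0 hc, ?_⟩
  rw [Matrix.sub_mul, Matrix.smul_mul _ (1 : Matrix (Fin s) (Fin s) k[X]), Matrix.one_mul,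
    Matrix.mul_assoc (T α • F.map derivative), ← hVv,
    mul_smul, hder, smul_sub, Matrix.mul_smul, smul_smul]

/-- The cofactor form of stability. -/
lemma cofactor_of_stable {u v : Matrix (Fin s) (Fin r) k[X]} {c : k[X]} (hc : c ≠ 0)
    {G : Matrix (Fin s) (Fin s) k[X]} (h : c • u = G * v) (J : Fin s → Fin r) :
    mnr v J • u = u.submatrix id J * (v.submatrix id J).adjugate * v := by
  have h1 : c • u.submatrix id J = G * v.submatrix id J := by
    have h2 := congrArg (fun M : Matrix (Fin s) (Fin r) k[X] => M.submatrix id J) h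
    rw [show (G * v).submatrix id J = G * v.submatrix id J from by
      ext i a; simp [Matrix.mul_apply]] at h2
    exact h2
  have h3 : c • (mnr v J • u) = c • (u.submatrix id J * (v.submatrix id J).adjugate * v) := by
    calc c • (mnr v J • u) = mnr v J • (c • u) := smul_comm _ _ _
      _ = mnr v J • (G * v) := by rw [h]
      _ = (G * (mnr v J • (1 : Matrix (Fin s) (Fin s) k[X]))) * v := by
          rw [Matrix.mul_smul, Matrix.mul_one, Matrix.smul_mul]
      _ = (G * (v.submatrix id J * (v.submatrix id J).adjugate)) * v := by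
          rw [Matrix.mul_adjugate]; rfl
      _ = ((c • u.submatrix id J) * (v.submatrix id J).adjugate) * v := by
          rw [h1]; simp only [Matrix.mul_assoc]
      _ = c • (u.submatrix id J * (v.submatrix id J).adjugate * v) := by
          rw [Matrix.smul_mul, Matrix.smul_mul]
  ext1 i l
  have h4 := congrFun (congrFun h3 i) l
  simp only [Matrix.smul_apply, smul_eq_mul] at h4
  exact mul_left_cancel₀ hc h4

end stable

section pull

variable {k : Type*} [Field k] {n s r : ℕ} {α : Fin n → k} {A : Fin n → Matrix (Fin r) (Fin r) k}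

/-- The rows `U(x^p) Y`. -/
noncomputable def pull (p : ℕ) (U : Matrix (Fin s) (Fin r) k[X]) (Y : Matrix (Fin r) (Fin r) k[X]) :
    Matrix (Fin s) (Fin r) k[X] := U.map (expand k p) * Y

lemma pull_eq (p : ℕ) (U : Matrix (Fin s) (Fin r) k[X]) (Y : Matrix (Fin r) (Fin r) k[X]) :
    pull p U Y = U.map (expand k p).toRingHom * Y := rfl

lemma pull_minor {p : ℕ} (hp : 0 < p) {U : Matrix (Fin s) (Fin r) k[X]}
    {Y : Matrix (Fin r) (Fin r) k[X]} (hU : ∃ J, mnr U J ≠ 0) (hY : Y.det ≠ 0) :
    ∃ J, mnr (pull p U Y) J ≠ 0 := by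
  obtain ⟨J₀, hJ₀⟩ := hU
  by_contra hcon
  push Not at hcon
  have h1 : mnr (pull p U Y * Y.adjugate) J₀ = 0 := by
    rw [mnr_mul]
    exact Finset.sum_eq_zero fun J _ => by rw [hcon J, mul_zero]
  rw [pull_eq, Matrix.mul_assoc, Matrix.mul_adjugate, Matrix.mul_smul, Matrix.mul_one, mnr_smul,
    mnr_map] at h1
  exact mul_ne_zero (pow_ne_zero _ hY) ((expand_ne_zero hp).mpr hJ₀) h1

lemma pull_natDegree {p : ℕ} {U : Matrix (Fin s) (Fin r) k[X]}
    {Y : Matrix (Fin r) (Fin r) k[X]} {D : ℕ}
    (hD : ∀ J, mnr U J ≠ 0 → p * (mnr U J).natDegree + ∑ c, vdeg (Y (J c)) ≤ D)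
    (J' : Fin s → Fin r) : (mnr (pull p U Y) J').natDegree ≤ D := by
  rw [pull_eq, mnr_mul]
  refine natDegree_sum_le_of_forall_le _ _ fun J _ => ?_
  rw [mnr_map]
  by_cases h0 : mnr U J = 0
  · rw [h0, map_zero, mul_zero]; simp
  · have h1 := hD J h0
    refine natDegree_mul_le.trans ?_
    have h2 : (∏ c, Y (J c) (J' c)).natDegree ≤ ∑ c, vdeg (Y (J c)) :=
      (natDegree_prod_le _ _).trans (Finset.sum_le_sum fun c _ => natDegree_le_vdeg _ _)
    have h3 : ((expand k p).toRingHom (mnr U J)).natDegree = (mnr U J).natDegree * p :=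
      natDegree_expand _ _
    rw [h3]
    have h4 : (mnr U J).natDegree * p = p * (mnr U J).natDegree := mul_comm _ _
    omega

lemma pull_dvd (hα : Function.Injective α) {Y : Matrix (Fin r) (Fin r) k[X]}
    {p : ℕ} [Fact p.Prime] [CharP k p]
    {e : Fin n → Fin r → ℕ} {P : Fin n → Matrix (Fin r) (Fin r) k}
    {z : Fin n → Matrix (Fin r) (Fin r) k[X]} (hb : ∀ j, LocBasis (α j) p Y (e j) (P j) (z j))
    {U : Matrix (Fin s) (Fin r) k[X]} {M : Fin n → ℕ}
    (hM : ∀ j J, mnr (U * ((P j)⁻¹).map C) J ≠ 0 →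
      M j ≤ p * (mnr (U * ((P j)⁻¹).map C) J).rootMultiplicity (α j ^ p) + ∑ c, e j (J c))
    (J' : Fin s → Fin r) : ∏ j, (X - C (α j)) ^ M j ∣ mnr (pull p U Y) J' := by
  classical
  let F : k[X] →+* k[X] := (expand k p).toRingHom
  have hF : ∀ f : k[X], F f = expand k p f := fun _ => rfl
  have hFC : ∀ c : k, F (C c) = C c := fun c => by rw [hF, expand_C]
  have hV : pull p U Y = U.map F * Y := rfl
  refine prod_dvd_of_dvd hα M fun j => ?_
  have hPdet : IsUnit (P j).det := isUnit_iff_ne_zero.mpr (hb j).detP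
  have h1 : U.map F * Y = (U * ((P j)⁻¹).map C).map F *
      Matrix.of (fun i l => (X - C (α j)) ^ e j i * z j i l) := by
    have h2 : ((P j).map C) * Y = Matrix.of fun i l => (X - C (α j)) ^ e j i * z j i l := by
      ext1 i l
      rw [Matrix.mul_apply, Matrix.of_apply, ← (hb j).eq i l]
      rfl
    rw [← h2]
    have h3 : (U * ((P j)⁻¹).map C).map F = U.map F * ((P j)⁻¹).map C := by
      rw [Matrix.map_mul]
      congr 1
      ext1 a b
      simp only [Matrix.map_apply]
      exact hFC _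
    rw [h3, Matrix.mul_assoc, ← Matrix.mul_assoc (((P j)⁻¹).map C)]
    have h4 : ((P j)⁻¹).map (C : k →+* k[X]) * (P j).map C = 1 := by
      rw [← Matrix.map_mul, Matrix.nonsing_inv_mul _ hPdet]
      exact Matrix.map_one _ (map_zero _) (map_one _)
    rw [h4, Matrix.one_mul]
  rw [hV, h1, mnr_mul]
  refine Finset.dvd_sum fun J _ => ?_
  simp only [Matrix.of_apply]
  rw [mnr_map, Finset.prod_mul_distrib, Finset.prod_pow_eq_pow_sum]
  by_cases h0 : mnr (U * ((P j)⁻¹).map C) J = 0
  · rw [h0, map_zero, mul_zero]; exact dvd_zero _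
  · have h5 := hM j J h0
    set m := (mnr (U * ((P j)⁻¹).map C) J).rootMultiplicity (α j ^ p) with hm
    have h6 : M j ≤ ∑ c, e j (J c) + p * m := by omega
    refine (pow_dvd_pow _ h6).trans ?_
    rw [pow_add, mul_assoc]
    refine mul_dvd_mul_left _ (dvd_mul_of_dvd_right ?_ _)
    have h8 : (X - C (α j ^ p)) ^ m ∣ mnr (U * ((P j)⁻¹).map C) J := pow_rootMultiplicity_dvd _ _
    have h9 := map_dvd F h8
    rw [map_pow, map_sub, hFC] at h9
    have h10 : F X - C (α j ^ p) = (X - C (α j)) ^ p := by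
      rw [hF, expand_X, sub_pow_char, C_pow]
    rw [h10, ← pow_mul] at h9
    exact h9

lemma pull_sol {p : ℕ} [CharP k p] (U : Matrix (Fin s) (Fin r) k[X])
    {Y : Matrix (Fin r) (Fin r) k[X]} (hY : ∀ i, Sol α A (Y i)) (i : Fin s) :
    Sol α A (pull p U Y i) := by
  have h1 : pull p U Y i = ∑ m, (expand k p (U i m)) • Y m := by
    ext1 l
    rw [Finset.sum_apply]
    rfl
  rw [h1]
  refine Sol.sum _ fun m _ => (hY m).smul ?_
  rw [derivative_expand, CharP.cast_eq_zero, zero_mul, mul_zero]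

/-- A submodule of the Cartier descent gives a subspace of small degree stable under the
connection. -/
theorem exists_bounded_sub [IsAlgClosed k] (hα : Function.Injective α)
    {Y : Matrix (Fin r) (Fin r) k[X]} (hYs : ∀ i, Sol α A (Y i)) (hY : Y.det ≠ 0)
    {p : ℕ} [Fact p.Prime] [CharP k p]
    {e : Fin n → Fin r → ℕ} {P : Fin n → Matrix (Fin r) (Fin r) k}
    {z : Fin n → Matrix (Fin r) (Fin r) k[X]} (hb : ∀ j, LocBasis (α j) p Y (e j) (P j) (z j))
    {U : Matrix (Fin s) (Fin r) k[X]} (hU : ∃ J, mnr U J ≠ 0) {M : Fin n → ℕ}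
    (hM : ∀ j J, mnr (U * ((P j)⁻¹).map C) J ≠ 0 →
      M j ≤ p * (mnr (U * ((P j)⁻¹).map C) J).rootMultiplicity (α j ^ p) + ∑ c, e j (J c))
    {D : ℕ} (hD : ∀ J, mnr U J ≠ 0 → p * (mnr U J).natDegree + ∑ c, vdeg (Y (J c)) ≤ D) :
    ∃ v : Matrix (Fin s) (Fin r) k[X], (∃ J, mnr v J ≠ 0) ∧
      (∀ i l, (v i l).natDegree + ∑ j, M j ≤ D) ∧
      ∀ J, mnr v J • opRows α A v =
        (opRows α A v).submatrix id J * (v.submatrix id J).adjugate * v := by
  have hp : 0 < p := (Fact.out : p.Prime).pos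
  obtain ⟨v, hv⟩ := exists_minMem (pull_minor hp hU hY)
  obtain ⟨c, G, hc, hG⟩ := hv.mem.stable (α := α) (A := A) (pull_sol (p := p) U hYs)
  refine ⟨v, hv.mem.1, fun i l => ?_, fun J => cofactor_of_stable hc hG J⟩
  have h1 := hv.degree_le (pull_dvd hα hb hM) (pull_natDegree hD)
  rw [natDegree_prod_pow (α := α)] at h1
  have h2 : (v i l).natDegree ≤ ∑ i, vdeg (v i) :=
    (natDegree_le_vdeg (v i) l).trans
      (Finset.single_le_sum (f := fun i => vdeg (v i)) (fun _ _ => Nat.zero_le _) (Finset.mem_univ i))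
  omega

end pull

end Pool.Agent.Y227.SS
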