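import Pool.Agent.Y227.SS.Limit
import Pool.Agent.Y227.SS.Sub

set_option autoImplicit false

/-!
Submodules of degree zero of an ultraproduct of Cartier descents come from subspaces stable under
the connection.
-/

open Polynomial Filter Topology Pool.Agent.W432.PC

namespace Pool.Agent.Y227.SS

universe u

section cof

variable {R S : Type*} [CommRing R] [CommRing S] {n s r : ℕ}

lemma opRows_map (f : R →+* S) (α : Fin n → R) (A : Fin n → Matrix (Fin r) (Fin r) R)
    (v : Matrix (Fin s) (Fin r) R[X]) :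
    (opRows α A v).map (mapRingHom f) =
      opRows (fun j => f (α j)) (fun j => (A j).map f) (v.map (mapRingHom f)) := by
  have hT : (mapRingHom f) (T α) = T (fun j => f (α j)) := by
    unfold T
    rw [map_prod]
    simp
  have hTc : ∀ j, (mapRingHom f) (Tc α j) = Tc (fun j => f (α j)) j := by
    intro j
    unfold Tc
    rw [map_prod]
    simp
  have hB : ∀ a b, (mapRingHom f) (B α A a b) = B (fun j => f (α j)) (fun j => (A j).map f) a b := by
    intro a b
    unfold B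
    rw [Matrix.sum_apply, Matrix.sum_apply, map_sum]
    refine Finset.sum_congr rfl fun j _ => ?_
    rw [Matrix.smul_apply, Matrix.smul_apply, smul_eq_mul, smul_eq_mul, map_mul, hTc]
    simp
  ext1 i l
  simp only [opRows, Matrix.map_apply, Matrix.of_apply, map_sub, map_mul, hT, Matrix.mulVec,
    dotProduct, map_sum, hB]
  congr 2
  rw [coe_mapRingHom, derivative_map]

/-- The cofactor form of the stability of the span of the rows of `v`. -/
noncomputable def cof (α : Fin n → R) (A : Fin n → Matrix (Fin r) (Fin r) R)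
    (v : Matrix (Fin s) (Fin r) R[X]) (J : Fin s → Fin r) : Matrix (Fin s) (Fin r) R[X] :=
  mnr v J • opRows α A v - (opRows α A v).submatrix id J * (v.submatrix id J).adjugate * v

lemma cof_map (f : R →+* S) (α : Fin n → R) (A : Fin n → Matrix (Fin r) (Fin r) R)
    (v : Matrix (Fin s) (Fin r) R[X]) (J : Fin s → Fin r) :
    (cof α A v J).map (mapRingHom f) =
      cof (fun j => f (α j)) (fun j => (A j).map f) (v.map (mapRingHom f)) J := by
  unfold cof
  rw [← opRows_map, mnr_map]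
  have h1 : ((v.map (mapRingHom f)).submatrix id J).adjugate =
      ((v.submatrix id J).adjugate).map (mapRingHom f) := by
    have h2 := RingHom.map_adjugate (mapRingHom f) (v.submatrix id J)
    exact h2.symm
  rw [h1]
  rw [Matrix.map_sub _ (map_sub _), Matrix.map_mul, Matrix.map_mul]
  congr 1
  ext1 i l
  simp

end cof

section lift

variable {K : ℕ → Type u} [∀ i, Field (K i)]

/-- Polynomials of bounded degree have a common lift. -/
lemma exists_lift (f : ∀ i, (K i)[X]) (δ : ℕ) :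
    ∃ g : (∀ i, K i)[X], ∀ i, (f i).natDegree ≤ δ → cp K i g = f i := by
  refine ⟨∑ m ∈ Finset.range (δ + 1), monomial m (fun i => (f i).coeff m), fun i hi => ?_⟩
  rw [map_sum]
  conv_rhs => rw [as_sum_range' (f i) (δ + 1) (by omega)]
  refine Finset.sum_congr rfl fun m _ => ?_
  rw [coe_mapRingHom, map_monomial]
  rfl

end lift

section main

variable {K : ℕ → Type u} [∀ i, Field (K i)] [∀ i, IsAlgClosed (K i)] {n r : ℕ}
  {p : ℕ → ℕ} [hp : ∀ i, Fact (p i).Prime] [∀ i, CharP (K i) (p i)]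

/-- The ultraproduct of the Cartier descents: a submodule violating stability gives a stable
subspace. -/
theorem exists_sub_up (F : Ultrafilter ℕ) {α : ∀ i, Fin n → K i}
    {A : ∀ i, Fin n → Matrix (Fin r) (Fin r) (K i)} (hα : ∀ i, Function.Injective (α i))
    {Y : ∀ i, Matrix (Fin r) (Fin r) (K i)[X]} (hYs : ∀ i l, Sol (α i) (A i) (Y i l))
    (hY : ∀ i, (Y i).det ≠ 0) {e : ℕ → Fin n → Fin r → ℕ}
    {P : ∀ i, Fin n → Matrix (Fin r) (Fin r) (K i)}
    {z : ∀ i, Fin n → Matrix (Fin r) (Fin r) (K i)[X]}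
    (hb : ∀ i j, LocBasis (α i j) (p i) (Y i) (e i j) (P i j) (z i j))
    {w₀ : Fin n → Fin r → ℝ} {e₀ : Fin r → ℝ} {c₀ : ℝ}
    (hw : ∀ᶠ i in (F : Filter ℕ), ∀ j l, |(e i j l : ℝ) - p i * w₀ j l| ≤ c₀)
    (he : ∀ᶠ i in (F : Filter ℕ), ∀ l, |(vdeg (Y i l) : ℝ) - p i * e₀ l| ≤ c₀)
    {s : ℕ} (U : Matrix (Fin s) (Fin r) (UP K F)[X]) (hU : ∃ J, mnr U J ≠ 0) (τ : Fin n → ℝ)
    (hτ : ∀ j J, mnr (U * ((Matrix.of fun a b => fun i => (P i j)⁻¹ a b :
        Matrix (Fin r) (Fin r) (∀ i, K i)).map (up K F)).map C) J ≠ 0 →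
      τ j ≤ (mnr (U * ((Matrix.of fun a b => fun i => (P i j)⁻¹ a b :
        Matrix (Fin r) (Fin r) (∀ i, K i)).map (up K F)).map C) J).rootMultiplicity
          (up K F fun i => α i j ^ p i) + ∑ i, w₀ j (J i))
    (hbad : ∀ J, mnr U J ≠ 0 → (mnr U J).natDegree + ∑ i, e₀ (J i) ≤ ∑ j, τ j) :
    HasStableSubspace (fun j => up K F fun i => α i j)
      (fun j => (Matrix.of fun a b => fun i => A i j a b :
        Matrix (Fin r) (Fin r) (∀ i, K i)).map (up K F)) s := by
  classical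
  have hlift : ∀ a b, ∃ f : (∀ i, K i)[X], mp K F f = U a b := fun a b => mp_surjective K F _
  choose V hV using hlift
  let V : Matrix (Fin s) (Fin r) (∀ i, K i)[X] := V
  have hUV : U = V.map (mp K F) := by
    ext1 a b
    exact (hV a b).symm
  let Q : Fin n → Matrix (Fin r) (Fin r) (∀ i, K i) := fun j =>
    Matrix.of fun a b => fun i => (P i j)⁻¹ a b
  have hQ : ∀ i j, (Q j).map (Pi.evalRingHom K i) = (P i j)⁻¹ := fun i j => rfl
  have hm : ∀ J, mnr U J = mp K F (mnr V J) := fun J => by rw [hUV, mnr_map]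
  have hP : ∀ j J, mnr (U * ((Q j).map (up K F)).map C) J = mp K F (mnr (V * (Q j).map C) J) := by
    intro j J
    rw [hUV, ← mnr_map, map_mul_C]
  have hPc : ∀ i j J, mnr (V.map (cp K i) * ((P i j)⁻¹).map C) J =
      cp K i (mnr (V * (Q j).map C) J) := by
    intro i j J
    rw [← mnr_map, map_mul_C, hQ]
  obtain ⟨J₀, hJ₀⟩ := hU
  have E1 : ∀ᶠ i in (F : Filter ℕ), ∀ J, mnr U J ≠ 0 →
      (cp K i (mnr V J)).natDegree ≤ (mnr U J).natDegree := by
    rw [Filter.eventually_all]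
    intro J
    filter_upwards [natDegree_cp_le K F (mnr V J)] with i h4 _
    rwa [← hm] at h4
  have E2 : ∀ᶠ i in (F : Filter ℕ), ∀ J, mnr U J = 0 → cp K i (mnr V J) = 0 := by
    rw [Filter.eventually_all]
    intro J
    by_cases hJ : mnr U J = 0
    · have h1 := hJ
      rw [hm, mp_eq_zero] at h1
      filter_upwards [h1] with i h2 _
      exact h2
    · exact Filter.Eventually.of_forall fun _ h => absurd h hJ
  have E4 : ∀ᶠ i in (F : Filter ℕ), ∀ j J, mnr (V.map (cp K i) * ((P i j)⁻¹).map C) J ≠ 0 →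
      τ j ≤ (mnr (V.map (cp K i) * ((P i j)⁻¹).map C) J).rootMultiplicity (α i j ^ p i) +
        ∑ c, w₀ j (J c) := by
    rw [Filter.eventually_all]
    intro j
    rw [Filter.eventually_all]
    intro J
    by_cases hJ : mnr (U * ((Q j).map (up K F)).map C) J = 0
    · have h1 := hJ
      rw [hP, mp_eq_zero] at h1
      filter_upwards [h1] with i h2 h3
      rw [hPc] at h3
      exact absurd h2 h3
    · have h1 := hτ j J hJ
      have h2 := hJ
      rw [hP] at h2
      have h3 := le_rootMultiplicity_cp K F (fun i => α i j ^ p i) h2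
      filter_upwards [h3] with i h6 _
      rw [hPc]
      have h1' : τ j ≤ ((mp K F (mnr (V * (Q j).map C) J)).rootMultiplicity
          (up K F fun i => α i j ^ p i) : ℝ) + ∑ c, w₀ j (J c) := by
        rw [← hP]; exact h1
      have h8 : ((mp K F (mnr (V * (Q j).map C) J)).rootMultiplicity
          (up K F fun i => α i j ^ p i) : ℝ) ≤
          ((cp K i (mnr (V * (Q j).map C) J)).rootMultiplicity (α i j ^ p i) : ℝ) := by
        exact_mod_cast h6
      linarith
  have E5 : ∀ᶠ i in (F : Filter ℕ), cp K i (mnr V J₀) ≠ 0 := by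
    rw [← mp_ne_zero, ← hm]
    exact hJ₀
  -- the degree bound
  set δ : ℕ := ⌊((n : ℝ) + 1) * (s * c₀)⌋₊ with hδ
  have hex : ∀ᶠ i in (F : Filter ℕ), ∃ v : Matrix (Fin s) (Fin r) (K i)[X],
      (∃ J, mnr v J ≠ 0) ∧ (∀ a b, (v a b).natDegree ≤ δ) ∧
      ∀ J, mnr v J • opRows (α i) (A i) v =
        (opRows (α i) (A i) v).submatrix id J * (v.submatrix id J).adjugate * v := by
    filter_upwards [E1, E2, E4, E5, hw, he] with i h1 h2 h4 h5 h6 h7
    have hpi : (0 : ℝ) < p i := by exact_mod_cast (hp i).out.pos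
    have hsumw : ∀ (j : Fin n) (J : Fin s → Fin r),
        (p i : ℝ) * ∑ c, w₀ j (J c) ≤ ∑ c, (e i j (J c) : ℝ) + s * c₀ := by
      intro j J
      have h8 : ∑ c, (p i : ℝ) * w₀ j (J c) ≤ ∑ c, ((e i j (J c) : ℝ) + c₀) :=
        Finset.sum_le_sum fun c _ => by
          have := (abs_le.mp (h6 j (J c))).1
          linarith
      rw [← Finset.mul_sum, Finset.sum_add_distrib] at h8
      simpa using h8
    have hsume : ∀ (J : Fin s → Fin r),
        ∑ c, (vdeg (Y i (J c)) : ℝ) ≤ (p i : ℝ) * ∑ c, e₀ (J c) + s * c₀ := by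
      intro J
      have h8 : ∑ c, (vdeg (Y i (J c)) : ℝ) ≤ ∑ c, ((p i : ℝ) * e₀ (J c) + c₀) :=
        Finset.sum_le_sum fun c _ => by
          have := (abs_le.mp (h7 (J c))).2
          linarith
      rw [Finset.sum_add_distrib, ← Finset.mul_sum] at h8
      simpa using h8
    have hreal : ∀ J, mnr (V.map (cp K i)) J ≠ 0 →
        ((p i * (mnr (V.map (cp K i)) J).natDegree + ∑ c, vdeg (Y i (J c)) : ℕ) : ℝ) ≤
        p i * ∑ j, τ j + s * c₀ := by
      intro J hJ
      rw [mnr_map] at hJ ⊢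
      have h8 : mnr U J ≠ 0 := fun h0 => hJ (h2 J h0)
      have h9 : ((cp K i (mnr V J)).natDegree : ℝ) ≤ ((mnr U J).natDegree : ℝ) := by
        exact_mod_cast h1 J h8
      have h10 := hbad J h8
      have h11 := hsume J
      push_cast
      nlinarith
    have hnn : 0 ≤ (p i : ℝ) * ∑ j, τ j + s * c₀ :=
      (Nat.cast_nonneg _).trans (hreal J₀ (by rw [mnr_map]; exact h5))
    obtain ⟨v, hv1, hv2, hv3⟩ := exists_bounded_sub (hα i) (hYs i) (hY i) (hb i)
      (U := V.map (cp K i)) ⟨J₀, by rw [mnr_map]; exact h5⟩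
      (M := fun j => ⌈(p i : ℝ) * τ j - s * c₀⌉₊) (by
        intro j J hJ
        refine Nat.ceil_le.mpr ?_
        have h8 := h4 j J hJ
        have h9 := hsumw j J
        push_cast
        nlinarith)
      (D := ⌊(p i : ℝ) * ∑ j, τ j + s * c₀⌋₊) (by
        intro J hJ
        exact Nat.le_floor (hreal J hJ))
    refine ⟨v, hv1, fun a b => ?_, hv3⟩
    refine Nat.le_floor ?_
    have h8 := hv2 a b
    have h9 : ((v a b).natDegree : ℝ) + ∑ j, (⌈(p i : ℝ) * τ j - s * c₀⌉₊ : ℝ) ≤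
        (⌊(p i : ℝ) * ∑ j, τ j + s * c₀⌋₊ : ℝ) := by exact_mod_cast h8
    have h10 : (⌊(p i : ℝ) * ∑ j, τ j + s * c₀⌋₊ : ℝ) ≤ (p i : ℝ) * ∑ j, τ j + s * c₀ :=
      Nat.floor_le hnn
    have h11 : ∑ j, ((p i : ℝ) * τ j - s * c₀) ≤ ∑ j, (⌈(p i : ℝ) * τ j - s * c₀⌉₊ : ℝ) :=
      Finset.sum_le_sum fun j _ => Nat.le_ceil _
    rw [Finset.sum_sub_distrib, ← Finset.mul_sum] at h11
    simp only [Finset.sum_const, Finset.card_univ, Fintype.card_fin, nsmul_eq_mul] at h11
    linarith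
  -- choose the subspaces
  have hex' : ∀ i, ∃ (v : Matrix (Fin s) (Fin r) (K i)[X]) (J₁ : Fin s → Fin r),
      (∃ v : Matrix (Fin s) (Fin r) (K i)[X],
      (∃ J, mnr v J ≠ 0) ∧ (∀ a b, (v a b).natDegree ≤ δ) ∧
      ∀ J, mnr v J • opRows (α i) (A i) v =
        (opRows (α i) (A i) v).submatrix id J * (v.submatrix id J).adjugate * v) →
      mnr v J₁ ≠ 0 ∧ (∀ a b, (v a b).natDegree ≤ δ) ∧ cof (α i) (A i) v J₁ = 0 := by
    intro i
    by_cases hx : ∃ v : Matrix (Fin s) (Fin r) (K i)[X],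
      (∃ J, mnr v J ≠ 0) ∧ (∀ a b, (v a b).natDegree ≤ δ) ∧
      ∀ J, mnr v J • opRows (α i) (A i) v =
        (opRows (α i) (A i) v).submatrix id J * (v.submatrix id J).adjugate * v
    · obtain ⟨v, ⟨J, hJ⟩, h2, h3⟩ := hx
      exact ⟨v, J, fun _ => ⟨hJ, h2, by unfold cof; rw [h3 J, sub_self]⟩⟩
    · exact ⟨0, J₀, fun h => absurd h hx⟩
  choose v J₁ hvJ using hex'
  obtain ⟨J₂, hJ₂⟩ := (F.map J₁).eq_pure_of_finite
  have hJ₂' : ∀ᶠ i in (F : Filter ℕ), J₁ i = J₂ := by
    have h8 : {J₂} ∈ (F.map J₁) := by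
      rw [hJ₂]
      exact Filter.mem_pure.mpr rfl
    exact h8
  choose V' hV' using fun (a : Fin s) (b : Fin r) => exists_lift (fun i => v i a b) δ
  let V' : Matrix (Fin s) (Fin r) (∀ i, K i)[X] := V'
  have hgood : ∀ᶠ i in (F : Filter ℕ), V'.map (cp K i) = v i ∧ mnr (v i) J₂ ≠ 0 ∧
      cof (α i) (A i) (v i) J₂ = 0 := by
    filter_upwards [hex, hJ₂'] with i h1 h2
    obtain ⟨h3, h4, h5⟩ := hvJ i h1
    rw [h2] at h3 h5
    refine ⟨?_, h3, h5⟩
    ext1 a b
    exact hV' a b i (h4 a b)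
  let α' : Fin n → (∀ i, K i) := fun j i => α i j
  let A' : Fin n → Matrix (Fin r) (Fin r) (∀ i, K i) := fun j => Matrix.of fun a b => fun i => A i j a b
  have hcof : (cof α' A' V' J₂).map (mp K F) = 0 := by
    ext1 a b
    rw [Matrix.map_apply, Matrix.zero_apply, mp_eq_zero]
    filter_upwards [hgood] with i hi
    have h1 := cof_map (Pi.evalRingHom K i) α' A' V' J₂
    rw [hi.1] at h1
    have h2 : cof (fun j => Pi.evalRingHom K i (α' j)) (fun j => (A' j).map (Pi.evalRingHom K i))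
        (v i) J₂ = cof (α i) (A i) (v i) J₂ := rfl
    rw [h2, hi.2.2] at h1
    have h3 := congrFun (congrFun h1 a) b
    exact h3
  rw [cof_map] at hcof
  refine ⟨V'.map (mp K F), ⟨J₂, ?_⟩, mnr (V'.map (mp K F)) J₂, _, ?_, sub_eq_zero.mp hcof⟩
  · rw [mnr_map, mp_ne_zero]
    filter_upwards [hgood] with i hi
    rw [← mnr_map, hi.1]
    exact hi.2.1
  · rw [mnr_map, mp_ne_zero]
    filter_upwards [hgood] with i hi
    rw [← mnr_map, hi.1]
    exact hi.2.1

end main

end Pool.Agent.Y227.SS
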