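import Pool.Agent.Y227.SS.Defs
import Pool.Agent.W432.PC.Final

set_option autoImplicit false

open Polynomial Pool.Agent.W432.PC

namespace Pool.Agent.Y227.SS

section

variable {R S : Type*} [CommRing R] [CommRing S] {r s : ℕ}

lemma mnr_map (f : R[X] →+* S[X]) (U : Matrix (Fin s) (Fin r) R[X]) (J : Fin s → Fin r) :
    mnr (U.map f) J = f (mnr U J) := by
  unfold mnr
  rw [RingHom.map_det]
  rfl

lemma mnr_mul (U : Matrix (Fin s) (Fin r) R[X]) (V : Matrix (Fin r) (Fin r) R[X])
    (J' : Fin s → Fin r) :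
    mnr (U * V) J' = ∑ J : Fin s → Fin r, (∏ c, V (J c) (J' c)) * mnr U J := by
  unfold mnr
  rw [show (U * V).submatrix id J' = U * V.submatrix id J' from by
    ext i c; simp [Matrix.mul_apply]]
  rw [det_mul_expand]
  rfl

lemma mnr_smul (a : R[X]) (U : Matrix (Fin s) (Fin r) R[X]) (J : Fin s → Fin r) :
    mnr (a • U) J = a ^ s * mnr U J := by
  unfold mnr
  rw [show (a • U).submatrix id J = a • (U.submatrix id J) from rfl, Matrix.det_smul]
  simp

end

section

variable {k : Type*} [Field k] {n r : ℕ} {α : Fin n → k} {A : Fin n → Matrix (Fin r) (Fin r) k}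

theorem charP_semistable (hα : Function.Injective α) {Y : Matrix (Fin r) (Fin r) k[X]}
    (hY : Y.det ≠ 0) (p : ℕ) [Fact p.Prime] [CharP k p]
    {e : Fin n → Fin r → ℕ} {P : Fin n → Matrix (Fin r) (Fin r) k}
    {z : Fin n → Matrix (Fin r) (Fin r) k[X]} (hb : ∀ j, LocBasis (α j) p Y (e j) (P j) (z j)) :
    Semistable (fun j => α j ^ p) (fun j => (P j)⁻¹) (fun j l => (e j l : ℝ) / p)
      (fun i => (vdeg (Y i) : ℝ) / p) := by
  classical
  have hp : 0 < p := (Fact.out : p.Prime).pos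
  have hpR : (0 : ℝ) < p := by exact_mod_cast hp
  intro s U hU τ hτ
  obtain ⟨J₀, hJ₀⟩ := hU
  let F : k[X] →+* k[X] := (expand k p).toRingHom
  have hF : ∀ f : k[X], F f = expand k p f := fun _ => rfl
  have hF0 : ∀ f : k[X], f ≠ 0 → F f ≠ 0 := fun f hf => by
    rw [hF]; exact (expand_ne_zero hp).mpr hf
  have hFC : ∀ c : k, F (C c) = C c := fun c => by rw [hF, expand_C]
  set UF : Matrix (Fin s) (Fin r) k[X] := U.map F with hUF
  -- some minor of `UF * Y` is nonzero
  obtain ⟨J', hJ'⟩ : ∃ J', mnr (UF * Y) J' ≠ 0 := by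
    by_contra hcon
    push Not at hcon
    have h1 : mnr (UF * Y * Y.adjugate) J₀ = 0 := by
      rw [mnr_mul]
      exact Finset.sum_eq_zero fun J _ => by rw [hcon J, mul_zero]
    rw [Matrix.mul_assoc, Matrix.mul_adjugate, Matrix.mul_smul, Matrix.mul_one, mnr_smul,
      hUF, mnr_map] at h1
    exact mul_ne_zero (pow_ne_zero _ hY) (hF0 _ hJ₀) h1
  -- the orders of vanishing
  let M : Fin n → ℕ := fun j => ⌈(p : ℝ) * τ j⌉₊
  have hdvd : ∀ j, (X - C (α j)) ^ M j ∣ mnr (UF * Y) J' := by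
    intro j
    have hPdet : IsUnit (P j).det := isUnit_iff_ne_zero.mpr (hb j).detP
    have h1 : UF * Y = (U * ((P j)⁻¹).map C).map F *
        Matrix.of (fun i l => (X - C (α j)) ^ e j i * z j i l) := by
      have h2 : ((P j).map C) * Y = Matrix.of fun i l => (X - C (α j)) ^ e j i * z j i l := by
        ext1 i l
        rw [Matrix.mul_apply, Matrix.of_apply, ← (hb j).eq i l]
        rfl
      rw [← h2]
      have h3 : (U * ((P j)⁻¹).map C).map F = UF * ((P j)⁻¹).map C := by
        rw [Matrix.map_mul]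
        congr 1
        ext1 a b
        simp only [Matrix.map_apply]
        exact hFC _
      rw [h3, Matrix.mul_assoc, ← Matrix.mul_assoc (((P j)⁻¹).map C)]
      have h4 : ((P j)⁻¹).map (C : k →+* k[X]) * (P j).map C = 1 := by
        rw [← Matrix.map_mul, Matrix.nonsing_inv_mul _ hPdet]
        exact Matrix.map_one _ (map_zero _) (map_one _)
      rw [h4, Matrix.one_mul]
    rw [h1, mnr_mul]
    refine Finset.dvd_sum fun J _ => ?_
    simp only [Matrix.of_apply]
    rw [mnr_map, Finset.prod_mul_distrib, Finset.prod_pow_eq_pow_sum]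
    by_cases h0 : mnr (U * ((P j)⁻¹).map C) J = 0
    · rw [h0, map_zero, mul_zero]; exact dvd_zero _
    · have h5 := hτ j J h0
      set m := (mnr (U * ((P j)⁻¹).map C) J).rootMultiplicity (α j ^ p) with hm
      have h6 : M j ≤ ∑ c, e j (J c) + p * m := by
        refine Nat.ceil_le.mpr ?_
        rw [← Finset.sum_div] at h5
        have h7 := mul_le_mul_of_nonneg_left h5 hpR.le
        rw [mul_add, mul_div_cancel₀ _ hpR.ne'] at h7
        push_cast
        linarith
      refine (pow_dvd_pow _ h6).trans ?_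
      rw [pow_add, mul_assoc]
      refine mul_dvd_mul_left _ (dvd_mul_of_dvd_right ?_ _)
      have h8 : (X - C (α j ^ p)) ^ m ∣ mnr (U * ((P j)⁻¹).map C) J := pow_rootMultiplicity_dvd _ _
      have h9 := map_dvd F h8
      rw [map_pow, map_sub, hFC] at h9
      have h10 : F X - C (α j ^ p) = (X - C (α j)) ^ p := by
        rw [hF, expand_X, sub_pow_char, C_pow]
      rw [h10, ← pow_mul] at h9
      exact h9
  have hle : ∑ j, M j ≤ (mnr (UF * Y) J').natDegree := by
    have h1 := prod_dvd_of_dvd hα M hdvd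
    have h2 := natDegree_le_of_dvd h1 hJ'
    rwa [natDegree_prod_pow (α := α)] at h2
  by_contra hcon
  push Not at hcon
  have hbd : ∀ J, mnr U J ≠ 0 → ∑ c, vdeg (Y (J c)) + p * (mnr U J).natDegree < ∑ j, M j := by
    intro J hJ
    have h1 := hcon J hJ
    rw [← Finset.sum_div] at h1
    have h2 := mul_lt_mul_of_pos_left h1 hpR
    rw [mul_add, mul_div_cancel₀ _ hpR.ne', Finset.mul_sum] at h2
    have h3 : ∑ j, (p : ℝ) * τ j ≤ ∑ j, (M j : ℝ) := Finset.sum_le_sum fun j _ => Nat.le_ceil _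
    have h4 : ((∑ c, vdeg (Y (J c)) + p * (mnr U J).natDegree : ℕ) : ℝ) < ((∑ j, M j : ℕ) : ℝ) := by
      push_cast
      linarith
    exact_mod_cast h4
  have hD : 0 < ∑ j, M j := lt_of_le_of_lt (Nat.zero_le _) (hbd J₀ hJ₀)
  have hdeg : (mnr (UF * Y) J').natDegree ≤ ∑ j, M j - 1 := by
    rw [mnr_mul]
    refine natDegree_sum_le_of_forall_le _ _ fun J _ => ?_
    rw [hUF, mnr_map]
    by_cases h0 : mnr U J = 0
    · rw [h0, map_zero, mul_zero]; simp
    · have h1 := hbd J h0
      refine natDegree_mul_le.trans ?_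
      have h2 : (∏ c, Y (J c) (J' c)).natDegree ≤ ∑ c, vdeg (Y (J c)) :=
        (natDegree_prod_le _ _).trans (Finset.sum_le_sum fun c _ => natDegree_le_vdeg _ _)
      have h3 : (F (mnr U J)).natDegree = (mnr U J).natDegree * p := by
        rw [hF, natDegree_expand]
      rw [h3]
      have h4 : (mnr U J).natDegree * p = p * (mnr U J).natDegree := mul_comm _ _
      omega
  omega

lemma natDegree_det_le (Y : Matrix (Fin r) (Fin r) k[X]) :
    Y.det.natDegree ≤ ∑ i, vdeg (Y i) := by
  rw [Matrix.det_apply]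
  refine natDegree_sum_le_of_forall_le _ _ fun σ _ => ?_
  refine (natDegree_smul_le _ _).trans ?_
  refine (natDegree_prod_le _ _).trans ?_
  calc ∑ i, (Y (σ i) i).natDegree ≤ ∑ i, vdeg (Y (σ i)) :=
        Finset.sum_le_sum fun i _ => natDegree_le_vdeg _ _
    _ = ∑ i, vdeg (Y i) := Equiv.sum_comp σ fun i => vdeg (Y i)

lemma exists_perm_of_multiset {u v : Fin r → ℕ}
    (h : (Finset.univ : Finset (Fin r)).val.map u = (Finset.univ : Finset (Fin r)).val.map v) :
    ∃ σ : Equiv.Perm (Fin r), ∀ l, u l = v (σ l) := by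
  classical
  have h1 : ∀ m : ℕ, Nonempty ({ i // u i = m } ≃ { i // v i = m }) := by
    intro m
    refine ⟨Fintype.equivOfCardEq ?_⟩
    rw [Fintype.card_subtype, Fintype.card_subtype, Finset.card_filter, Finset.card_filter]
    exact sum_comp_eq_of_multiset (fun a => if a = m then 1 else 0) h
  refine ⟨Equiv.ofFiberEquiv (f := u) (g := v) fun m => (h1 m).some, fun l => ?_⟩
  exact (Equiv.ofFiberEquiv_map _ l).symm

/-- Systems with a full family of polynomial solutions in characteristic `p` have exponents which,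
divided by `p`, are the weights of a semistable parabolic bundle. -/
theorem charP_weights [IsAlgClosed k] (hα : Function.Injective α) (p : ℕ) [Fact p.Prime]
    [CharP k p] (hfull : Full α A) (e : Fin n → Fin r → ℕ) (he : ∀ j i, e j i < p)
    (hA : ∀ j, (A j).charpoly = ∏ i, (X - C ((e j i : ℕ) : k)))
    (f : Fin r → ℕ) (hf : ∀ i, f i < p)
    (hAs : (∑ j, A j).charpoly = ∏ i, (X - C ((f i : ℕ) : k))) :
    SemistableWeights k (fun j l => (e j l : ℝ) / p) (fun l => (f l : ℝ) / p) := by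
  classical
  have hp : 0 < p := (Fact.out : p.Prime).pos
  have hpR : (0 : ℝ) < p := by exact_mod_cast hp
  obtain ⟨Y₀, hY₀, hdet₀⟩ := hfull
  obtain ⟨Y, h⟩ := exists_minFam hY₀ hdet₀
  choose e₁ P z hb using fun j => h.exists_locBasis hα p j
  have hms : ∀ j, (Finset.univ : Finset (Fin r)).val.map (e₁ j) =
      (Finset.univ : Finset (Fin r)).val.map (e j) := by
    intro j
    refine multiset_nat_eq (k := k) (hb j).lt (he j) ?_
    rw [← hA j, ← h.charpoly_loc hα (hb j)]
  have hms' : (Finset.univ : Finset (Fin r)).val.map (fun i => vdeg (Y i) % p) =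
      (Finset.univ : Finset (Fin r)).val.map f := by
    refine multiset_nat_eq (k := k) (fun i => Nat.mod_lt _ hp) hf ?_
    rw [← hAs, h.charpoly_sum p]
    refine Finset.prod_congr rfl fun i _ => ?_
    congr 2
    rw [CharP.natCast_eq_natCast k p]
    exact Nat.mod_modEq _ _
  have hdeg : Y.det.natDegree = ∑ i, vdeg (Y i) :=
    le_antisymm (natDegree_det_le Y) (h.sum_vdeg_le p)
  refine ⟨fun j => α j ^ p, fun j => (P j)⁻¹, fun j l => (e₁ j l : ℝ) / p,
    fun i => (vdeg (Y i) : ℝ) / p, ?_, ?_, ?_, ?_, ?_, ?_, charP_semistable hα h.det p hb⟩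
  · intro i j hij
    exact hα (frobenius_inj k p (by simpa [frobenius_def] using hij))
  · intro j
    rw [Matrix.det_nonsing_inv]
    exact (isUnit_ringInverse.mpr (isUnit_iff_ne_zero.mpr (hb j).detP)).ne_zero
  · intro j l
    refine ⟨by positivity, ?_⟩
    rw [div_le_one hpR]
    exact_mod_cast ((hb j).lt l).le
  · intro j
    obtain ⟨σ, hσ⟩ := exists_perm_of_multiset (hms j)
    exact ⟨σ, fun l => ⟨0, by simp only [hσ l]; simp⟩⟩
  · obtain ⟨σ, hσ⟩ := exists_perm_of_multiset hms'
    refine ⟨σ, fun l => ⟨(vdeg (Y l) / p : ℕ), ?_⟩⟩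
    have hσl : vdeg (Y l) % p = f (σ l) := hσ l
    show (vdeg (Y l) : ℝ) / p = (f (σ l) : ℝ) / p + ((vdeg (Y l) / p : ℕ) : ℤ)
    rw [← hσl]
    have h1 : (vdeg (Y l) : ℝ) = (vdeg (Y l) % p : ℕ) + (p : ℝ) * (vdeg (Y l) / p : ℕ) := by
      exact_mod_cast (Nat.mod_add_div (vdeg (Y l)) p).symm
    rw [h1, Int.cast_natCast]
    field_simp
  · simp only [← Finset.sum_div]
    congr 1
    have h1 := h.natDegree_det hα p hb
    rw [hdeg] at h1
    exact_mod_cast h1.symm

end

end Pool.Agent.Y227.SS
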