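import Pool.Agent.Y227.SS.Limit
import Pool.Agent.Y227.UD.Final

set_option autoImplicit false

/-!
Vanishing `p`-curvatures give semistable parabolic bundles with the conjugate exponents.
-/

open Polynomial Filter Topology Pool.Agent.W432.PC

namespace Pool.Agent.Y227.SS

universe u

section congr

variable {K : Type*} [Field K] {n r : ℕ}

lemma SemistableWeights.congr {x x' : Fin n → Fin r → ℝ} {y y' : Fin r → ℝ}
    (h : SemistableWeights K x y) (hx : ∀ j l, ∃ m : ℤ, x j l = x' j l + m)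
    (hy : ∀ l, ∃ m : ℤ, y l = y' l + m) : SemistableWeights K x' y' := by
  obtain ⟨β, P, w, e, h1, h2, h3, h4, h5, h6, h7⟩ := h
  refine ⟨β, P, w, e, h1, h2, h3, ?_, ?_, h6, h7⟩
  · intro j
    obtain ⟨σ, hσ⟩ := h4 j
    refine ⟨σ, fun l => ?_⟩
    obtain ⟨m, hm⟩ := hσ l
    obtain ⟨m', hm'⟩ := hx j (σ l)
    exact ⟨m' + m, by rw [hm, hm']; push_cast; ring⟩
  · obtain ⟨σ, hσ⟩ := h5
    refine ⟨σ, fun l => ?_⟩
    obtain ⟨m, hm⟩ := hσ l
    obtain ⟨m', hm'⟩ := hy (σ l)
    exact ⟨m' + m, by rw [hm, hm']; push_cast; ring⟩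

end congr

lemma wt_congr (a : ℤ) (q : ℚ) : ∃ m : ℤ, wt a q = a * q + m := by
  unfold wt
  split_ifs with h
  · obtain ⟨z, rfl⟩ : ∃ z : ℤ, (z : ℚ) = q := ⟨q.num, (Rat.den_eq_one_iff q).mp h.2⟩
    exact ⟨1 - a * z, by push_cast; ring⟩
  · exact ⟨-⌊(a : ℚ) * q⌋, by rw [Int.fract]; push_cast; ring⟩

section main

variable {R : Type u} [CommRing R] [IsDomain R] [CharZero R] {n r : ℕ}

/-- One closed point. -/
lemma point (α : Fin n → R) (hα : ∀ i j, i ≠ j → IsUnit (α i - α j))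
    (A : Fin n → Matrix (Fin r) (Fin r) R) (lam : Fin n → Fin r → ℚ) (phi : Fin r → ℚ)
    (hlam : ∀ j, HasExponents (A j) (lam j)) (hphi : HasExponents (∑ j, A j) phi)
    (N : ℕ) (hN : 0 < N) (hNlam : ∀ j l, ∃ m : ℤ, (N : ℚ) * lam j l = m)
    (hNphi : ∀ l, ∃ m : ℤ, (N : ℚ) * phi l = m) (a : ℤ) :
    ∃ P₀ : ℕ, ∀ p : ℕ, p.Prime → P₀ < p → (N : ℤ) ∣ a * p + 1 →
      ∀ (𝔪 : Ideal R) [𝔪.IsMaximal], (p : R) ∈ 𝔪 → PCurvZeroAt α A 𝔪 →
      ∃ (K : Type u) (_ : Field K) (_ : IsAlgClosed K) (_ : CharP K p),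
        SemistableWeights K (fun j l => (a : ℝ) * lam j l + lam j l / p)
          (fun l => (a : ℝ) * phi l + phi l / p) := by
  classical
  choose m hm using hNlam
  choose m' hm' using hNphi
  let M : ℤ := ∑ j, ∑ l, |m j l| + ∑ l, |m' l|
  have hM : ∀ j l, |m j l| ≤ M := by
    intro j l
    have h1 : |m j l| ≤ ∑ l, |m j l| :=
      Finset.single_le_sum (f := fun l => |m j l|) (fun _ _ => abs_nonneg _) (Finset.mem_univ l)
    have h2 : ∑ l, |m j l| ≤ ∑ j, ∑ l, |m j l| :=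
      Finset.single_le_sum (f := fun j => ∑ l, |m j l|)
        (fun _ _ => Finset.sum_nonneg fun _ _ => abs_nonneg _) (Finset.mem_univ j)
    have h3 : 0 ≤ ∑ l, |m' l| := Finset.sum_nonneg fun _ _ => abs_nonneg _
    simp only [M]; linarith
  have hM' : ∀ l, |m' l| ≤ M := by
    intro l
    have h1 : |m' l| ≤ ∑ l, |m' l| :=
      Finset.single_le_sum (f := fun l => |m' l|) (fun _ _ => abs_nonneg _) (Finset.mem_univ l)
    have h3 : 0 ≤ ∑ j, ∑ l, |m j l| :=
      Finset.sum_nonneg fun _ _ => Finset.sum_nonneg fun _ _ => abs_nonneg _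
    simp only [M]; linarith
  refine ⟨max M.toNat N, fun p hp hpP hap 𝔪 h𝔪 hpm hpc => ?_⟩
  have hpM : M < p := by
    have := lt_of_le_of_lt (le_max_left _ _) hpP
    omega
  have hpN : N < p := lt_of_le_of_lt (le_max_right _ _) hpP
  have : Fact p.Prime := ⟨hp⟩
  have hpR : (0 : ℝ) < p := by exact_mod_cast hp.pos
  obtain ⟨K, iF, iA, iC, φ, -, h2, h3⟩ := geometric_point hα hp hpm hpc
  refine ⟨K, iF, iA, iC, ?_⟩
  have hNK : (N : K) ≠ 0 := by
    rw [Ne, CharP.cast_eq_zero_iff K p]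
    intro hd
    exact absurd (Nat.le_of_dvd hN hd) (not_le.mpr hpN)
  choose e he1 he2 t ht using fun j l => exists_rep hN (hm j l) (lt_of_le_of_lt (hM j l) hpM) hap
  choose f hf1 hf2 s hs using fun l => exists_rep hN (hm' l) (lt_of_le_of_lt (hM' l) hpM) hap
  have hA : ∀ j, ((A j).map φ).charpoly = ∏ i, (X - C ((e j i : ℕ) : K)) := fun j =>
    (hlam j).charpoly_map hN (hm j) φ hNK fun l => by
      have h9 := congrArg (fun x : ℤ => (x : K)) (ht j l)
      push_cast at h9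
      rw [CharP.cast_eq_zero K p, zero_mul, add_zero] at h9
      exact h9
  have hAs : (∑ j, (A j).map φ).charpoly = ∏ i, (X - C ((f i : ℕ) : K)) := by
    have h5 : ∑ j, (A j).map φ = (∑ j, A j).map φ := by
      rw [← RingHom.mapMatrix_apply, map_sum]
      rfl
    rw [h5]
    exact hphi.charpoly_map hN hm' φ hNK fun l => by
      have h9 := congrArg (fun x : ℤ => (x : K)) (hs l)
      push_cast at h9
      rw [CharP.cast_eq_zero K p, zero_mul, add_zero] at h9
      exact h9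
  have hinj : Function.Injective fun j => φ (α j) := by
    intro i j hij
    by_contra hne
    exact h2 i j hne hij
  have key := charP_weights hinj p h3 e he1 hA f hf1 hAs
  refine key.congr (fun j l => ?_) fun l => ?_
  · obtain ⟨v, hv⟩ := wt_congr a (lam j l)
    refine ⟨v, ?_⟩
    have h6 : ((e j l : ℕ) : ℝ) = p * (a * lam j l + v) + lam j l := by
      have := congrArg (fun q : ℚ => (q : ℝ)) (he2 j l)
      rw [hv] at this
      push_cast at this
      exact this
    rw [h6]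
    field_simp
    ring
  · obtain ⟨v, hv⟩ := wt_congr a (phi l)
    refine ⟨v, ?_⟩
    have h6 : ((f l : ℕ) : ℝ) = p * (a * phi l + v) + phi l := by
      have := congrArg (fun q : ℚ => (q : ℝ)) (hf2 l)
      rw [hv] at this
      push_cast at this
      exact this
    rw [h6]
    field_simp
    ring

/-- If the `p`-curvature vanishes at closed points for infinitely many primes of a residue class,
the conjugate exponents are the weights of a semistable parabolic bundle. -/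
theorem semistable_of_pCurv (α : Fin n → R) (hα : ∀ i j, i ≠ j → IsUnit (α i - α j))
    (A : Fin n → Matrix (Fin r) (Fin r) R) (lam : Fin n → Fin r → ℚ) (phi : Fin r → ℚ)
    (hlam : ∀ j, HasExponents (A j) (lam j)) (hphi : HasExponents (∑ j, A j) phi)
    (N : ℕ) (hN : 0 < N) (hNlam : ∀ j l, ∃ m : ℤ, (N : ℚ) * lam j l = m)
    (hNphi : ∀ l, ∃ m : ℤ, (N : ℚ) * phi l = m) (a : ℤ)
    (hinf : ∀ P₀ : ℕ, ∃ p : ℕ, p.Prime ∧ P₀ < p ∧ (N : ℤ) ∣ a * p + 1 ∧
      ∃ (𝔪 : Ideal R) (_ : 𝔪.IsMaximal), (p : R) ∈ 𝔪 ∧ PCurvZeroAt α A 𝔪) :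
    SemistableWeights ℂ (fun j l => (a : ℝ) * lam j l) (fun l => (a : ℝ) * phi l) := by
  classical
  obtain ⟨P₀, hP₀⟩ := point α hα A lam phi hlam hphi N hN hNlam hNphi a
  have h1 : ∀ i : ℕ, ∃ p : ℕ, p.Prime ∧ i < p ∧
      ∃ (K : Type u) (_ : Field K) (_ : IsAlgClosed K) (_ : CharP K p),
        SemistableWeights K (fun j l => (a : ℝ) * lam j l + lam j l / p)
          (fun l => (a : ℝ) * phi l + phi l / p) := by
    intro i
    obtain ⟨p, hp, hpP, hap, 𝔪, h𝔪, hpm, hpc⟩ := hinf (max i P₀)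
    exact ⟨p, hp, lt_of_le_of_lt (le_max_left _ _) hpP,
      hP₀ p hp (lt_of_le_of_lt (le_max_right _ _) hpP) hap 𝔪 hpm hpc⟩
  choose p hp hip K i1 i2 i3 hK using h1
  have hptop : Tendsto (fun i => (p i : ℝ)) atTop atTop := by
    refine tendsto_natCast_atTop_atTop.comp ?_
    exact tendsto_atTop_mono (fun i => (hip i).le) tendsto_id
  have hlim : ∀ q : ℚ, Tendsto (fun i => (a : ℝ) * q + (q : ℝ) / p i) atTop (𝓝 ((a : ℝ) * q)) := by
    intro q
    have h2 : Tendsto (fun i => (q : ℝ) / p i) atTop (𝓝 0) := tendsto_const_nhds.div_atTop hptop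
    have h3 := (tendsto_const_nhds (x := (a : ℝ) * q)).add h2
    rwa [add_zero] at h3
  refine limit (K := K) ?_ (fun j l => hlim (lam j l)) (fun l => hlim (phi l)) hK
  intro q hq
  filter_upwards [eventually_ge_atTop q] with i hi h0
  have := i3 i
  rw [CharP.cast_eq_zero_iff (K i) (p i)] at h0
  have h2 := Nat.le_of_dvd (Nat.pos_of_ne_zero hq) h0
  have h3 := hip i
  omega

end main

end Pool.Agent.Y227.SS
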