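import Mathlib

set_option autoImplicit false

/-!
Ultraproducts of fields indexed by the natural numbers.
-/

open Polynomial Filter

namespace Pool.Agent.Y227.SS

universe u

section ultra

variable (K : ℕ → Type u) [∀ i, Field (K i)] (F : Ultrafilter ℕ)

/-- The ideal of the sequences which are zero almost everywhere. -/
def nullIdeal : Ideal (∀ i, K i) where
  carrier := {a | ∀ᶠ i in (F : Filter ℕ), a i = 0}
  add_mem' := by
    intro a b ha hb
    filter_upwards [ha, hb] with i h1 h2
    rw [Pi.add_apply, h1, h2, add_zero]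
  zero_mem' := Filter.Eventually.of_forall fun _ => rfl
  smul_mem' := by
    intro c a ha
    filter_upwards [ha] with i h1
    rw [Pi.smul_apply', h1, smul_zero]

lemma mem_nullIdeal {a : ∀ i, K i} : a ∈ nullIdeal K F ↔ ∀ᶠ i in (F : Filter ℕ), a i = 0 := Iff.rfl

instance nullIdeal_isMaximal : (nullIdeal K F).IsMaximal := by
  rw [Ideal.isMaximal_iff]
  refine ⟨?_, ?_⟩
  · intro h
    rw [mem_nullIdeal] at h
    obtain ⟨i, hi⟩ := h.exists
    exact one_ne_zero hi
  · intro J x hJ hx hxJ
    have h1 : ∀ᶠ i in (F : Filter ℕ), ¬ x i = 0 := Ultrafilter.eventually_not.mpr hx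
    have h2 : (1 : ∀ i, K i) - (fun i => (x i)⁻¹) * x ∈ nullIdeal K F := by
      rw [mem_nullIdeal]
      filter_upwards [h1] with i hi
      rw [Pi.sub_apply, Pi.one_apply, Pi.mul_apply, inv_mul_cancel₀ hi, sub_self]
    have h3 := J.add_mem (hJ h2) (J.mul_mem_left (fun i => (x i)⁻¹) hxJ)
    rwa [sub_add_cancel] at h3

/-- The ultraproduct. -/
def UP : Type u := (∀ i, K i) ⧸ nullIdeal K F

noncomputable instance : Field (UP K F) := Ideal.Quotient.field (nullIdeal K F)

/-- The quotient map to the ultraproduct. -/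
noncomputable def up : (∀ i, K i) →+* UP K F := Ideal.Quotient.mk (nullIdeal K F)

lemma up_surjective : Function.Surjective (up K F) := Ideal.Quotient.mk_surjective

lemma up_eq_zero {a : ∀ i, K i} : up K F a = 0 ↔ ∀ᶠ i in (F : Filter ℕ), a i = 0 :=
  Ideal.Quotient.eq_zero_iff_mem

lemma up_ne_zero {a : ∀ i, K i} : up K F a ≠ 0 ↔ ∀ᶠ i in (F : Filter ℕ), a i ≠ 0 := by
  rw [Ne, up_eq_zero]
  exact Ultrafilter.eventually_not.symm

/-- The component of a polynomial. -/
noncomputable abbrev cp (i : ℕ) : (∀ i, K i)[X] →+* (K i)[X] := mapRingHom (Pi.evalRingHom K i)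

/-- The image of a polynomial. -/
noncomputable abbrev mp : (∀ i, K i)[X] →+* (UP K F)[X] := mapRingHom (up K F)

lemma mp_eq_zero {f : (∀ i, K i)[X]} : mp K F f = 0 ↔ ∀ᶠ i in (F : Filter ℕ), cp K i f = 0 := by
  constructor
  · intro h
    have h1 : ∀ᶠ i in (F : Filter ℕ), ∀ m ∈ Finset.range (f.natDegree + 1), (f.coeff m) i = 0 := by
      rw [Filter.eventually_all_finset]
      intro m _
      rw [← up_eq_zero, ← coeff_map, ← coe_mapRingHom, h, coeff_zero]
    filter_upwards [h1] with i hi
    ext m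
    rw [coe_mapRingHom, coeff_map, coeff_zero]
    by_cases hm : m ∈ Finset.range (f.natDegree + 1)
    · exact hi m hm
    · rw [coeff_eq_zero_of_natDegree_lt (by simpa using hm)]
      simp
  · intro h
    ext m
    rw [coe_mapRingHom, coeff_map, coeff_zero, up_eq_zero]
    filter_upwards [h] with i hi
    have h1 := congrArg (fun g => coeff g m) hi
    simp only [coe_mapRingHom, coeff_map, coeff_zero] at h1
    exact h1

lemma mp_ne_zero {f : (∀ i, K i)[X]} : mp K F f ≠ 0 ↔ ∀ᶠ i in (F : Filter ℕ), cp K i f ≠ 0 := by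
  rw [Ne, mp_eq_zero]
  exact Ultrafilter.eventually_not.symm

lemma mp_surjective : Function.Surjective (mp K F) := map_surjective _ (up_surjective K F)

lemma natDegree_cp_le (f : (∀ i, K i)[X]) :
    ∀ᶠ i in (F : Filter ℕ), (cp K i f).natDegree ≤ (mp K F f).natDegree := by
  obtain ⟨g, hg1, hg2⟩ := exists_natDegree_eq_of_mem_lifts
    (mem_lifts_of_surjective (up_surjective K F) (mp K F f))
  have h1 : mp K F (f - g) = 0 := by
    rw [map_sub, sub_eq_zero, ← hg1, coe_mapRingHom]
  rw [mp_eq_zero] at h1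
  filter_upwards [h1] with i hi
  rw [map_sub, sub_eq_zero] at hi
  rw [hi, ← hg2]
  exact natDegree_map_le

lemma le_rootMultiplicity_cp (b : ∀ i, K i) {f : (∀ i, K i)[X]} (hf : mp K F f ≠ 0) :
    ∀ᶠ i in (F : Filter ℕ),
      (mp K F f).rootMultiplicity (up K F b) ≤ (cp K i f).rootMultiplicity (b i) := by
  obtain ⟨g, hg⟩ := pow_rootMultiplicity_dvd (mp K F f) (up K F b)
  set m := (mp K F f).rootMultiplicity (up K F b) with hm
  obtain ⟨g', rfl⟩ := mp_surjective K F g
  have h1 : mp K F (f - (X - C b) ^ m * g') = 0 := by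
    rw [map_sub, sub_eq_zero, map_mul, map_pow, map_sub]
    conv_lhs => rw [hg]
    simp
  rw [mp_eq_zero] at h1
  rw [mp_ne_zero] at hf
  filter_upwards [h1, hf] with i h2 h3
  rw [le_rootMultiplicity_iff h3]
  rw [map_sub, sub_eq_zero] at h2
  rw [h2, map_mul, map_pow, map_sub]
  refine Dvd.intro (cp K i g') ?_
  simp

lemma up_charZero (h : ∀ q : ℕ, q ≠ 0 → ∀ᶠ i in (F : Filter ℕ), ((q : ℕ) : K i) ≠ 0) :
    CharZero (UP K F) := by
  refine charZero_of_inj_zero fun q hq => ?_
  by_contra hq0
  have h1 := h q hq0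
  have h2 : up K F (fun i => ((q : ℕ) : K i)) = 0 := by
    have h3 : (fun i => ((q : ℕ) : K i)) = ((q : ℕ) : ∀ i, K i) := by
      ext i; simp
    rw [h3, map_natCast, hq]
  rw [up_eq_zero] at h2
  obtain ⟨i, h4, h5⟩ := (h1.and h2).exists
  exact h4 h5

lemma up_isAlgClosed [∀ i, IsAlgClosed (K i)] : IsAlgClosed (UP K F) := by
  refine IsAlgClosed.of_exists_root _ fun f hf hirr => ?_
  obtain ⟨g, hg1, hg2, hg3⟩ := lifts_and_natDegree_eq_and_monic
    (mem_lifts_of_surjective (up_surjective K F) f) hf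
  have hroot : ∀ i, ∃ x : K i, (cp K i g).eval x = 0 := by
    intro i
    have h1 : (cp K i g).natDegree = g.natDegree := by
      rw [coe_mapRingHom]
      exact hg3.natDegree_map _
    have h2 : (cp K i g).degree ≠ 0 := by
      have h3 : 0 < (cp K i g).natDegree := by
        rw [h1, hg2]
        exact hirr.natDegree_pos
      exact (natDegree_pos_iff_degree_pos.mp h3).ne'
    exact IsAlgClosed.exists_root _ h2
  choose x hx using hroot
  refine ⟨up K F x, ?_⟩
  rw [← hg1, eval_map, eval₂_at_apply, up_eq_zero]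
  refine Filter.Eventually.of_forall fun i => ?_
  have h1 := hx i
  have h2 : (cp K i g).eval ((Pi.evalRingHom K i) x) = (Pi.evalRingHom K i) (g.eval x) := by
    rw [coe_mapRingHom, eval_map, eval₂_at_apply]
  exact h2.symm.trans h1

open Cardinal in
/-- The cardinality of an ultraproduct of countable infinite fields. -/
lemma up_equiv_complex [∀ i, Countable (K i)] [∀ i, Infinite (K i)]
    (hF : (F : Filter ℕ) ≤ cofinite) : Nonempty (UP K F ≃ ℂ) ∧ ℵ₀ < #(UP K F) := by
  classical
  -- upper bound
  have hup : #(UP K F) ≤ 𝔠 := by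
    refine (mk_le_of_surjective (up_surjective K F)).trans ?_
    have h1 : ∀ i, ∃ f : K i → ℕ, Function.Injective f := fun i =>
      ⟨_, (Countable.exists_injective_nat (K i)).choose_spec⟩
    choose f hf using h1
    have h2 : Function.Injective (fun (a : ∀ i, K i) (i : ℕ) => f i (a i)) := by
      intro a b hab
      ext1 i
      exact hf i (congrFun hab i)
    have h3 := mk_le_of_injective (α := ∀ i, K i) (β := ULift.{u} (ℕ → ℕ))
      (f := fun a => ⟨fun i => f i (a i)⟩) (fun a b hab => h2 (ULift.up_injective hab))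
    refine h3.trans ?_
    simp
  have hlow : 𝔠 ≤ #(UP K F) := by
    let code : ∀ i : ℕ, (Fin i → Bool) → K i := fun i x =>
      (Infinite.natEmbedding (K i)) (Encodable.encode x)
    have hcode : ∀ i, Function.Injective (code i) := fun i =>
      (Infinite.natEmbedding (K i)).injective.comp Encodable.encode_injective
    let g : ULift.{u} (ℕ → Bool) → UP K F := fun x => up K F fun i => code i fun m => x.down m
    have hg : Function.Injective g := by
      intro x y hxy
      by_contra hne
      have h1 : x.down ≠ y.down := fun h => hne (ULift.down_injective h)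
      obtain ⟨m, hm⟩ := Function.ne_iff.mp h1
      have h2 : up K F ((fun i => code i fun m => x.down m) - fun i => code i fun m => y.down m) = 0 := by
        rw [map_sub, sub_eq_zero]
        exact hxy
      rw [up_eq_zero] at h2
      have h3 : ∀ᶠ i in (F : Filter ℕ), m < i := by
        have h4 : ∀ᶠ i in (cofinite : Filter ℕ), m < i := by
          rw [Nat.cofinite_eq_atTop]
          exact eventually_gt_atTop m
        exact hF h4
      obtain ⟨i, h5, h6⟩ := (h2.and h3).exists
      rw [Pi.sub_apply, sub_eq_zero] at h5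
      exact hm (congrFun (hcode i h5) ⟨m, h6⟩)
    have h7 := mk_le_of_injective hg
    simpa using h7
  have heq : #(UP K F) = 𝔠 := le_antisymm hup hlow
  refine ⟨?_, ?_⟩
  · rw [← lift_mk_eq', heq, mk_complex]
    simp
  · rw [heq]
    exact aleph0_lt_continuum

theorem up_ringEquiv_complex [∀ i, Countable (K i)] [∀ i, IsAlgClosed (K i)]
    (hF : (F : Filter ℕ) ≤ cofinite)
    (h : ∀ q : ℕ, q ≠ 0 → ∀ᶠ i in (F : Filter ℕ), ((q : ℕ) : K i) ≠ 0) :
    Nonempty (UP K F ≃+* ℂ) := by
  have := up_charZero K F h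
  have := up_isAlgClosed K F
  have : ∀ i, Infinite (K i) := fun i => inferInstance
  obtain ⟨h1, h2⟩ := up_equiv_complex K F hF
  exact IsAlgClosed.ringEquiv_of_equiv_of_charZero h2 h1

end ultra

end Pool.Agent.Y227.SS
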