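import Pool.Agent.Y227.SS.CharP
import Pool.Agent.Y227.SS.Ultra

set_option autoImplicit false

/-!
Limits of semistable parabolic bundles over varying fields.
-/

open Polynomial Filter Topology

namespace Pool.Agent.Y227.SS

universe u

section restrict

variable {L K : Type*} [Field L] [Field K] {n r : ℕ}

lemma map_mul_C {R S : Type*} [CommRing R] [CommRing S] {s r : ℕ} (f : R →+* S)
    (U : Matrix (Fin s) (Fin r) R[X]) (P : Matrix (Fin r) (Fin r) R) :
    (U * P.map C).map (mapRingHom f) = U.map (mapRingHom f) * (P.map f).map C := by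
  rw [Matrix.map_mul]
  congr 1
  ext1 a b
  simp

lemma Semistable.restrict (f : L →+* K) {β : Fin n → L} {P : Fin n → Matrix (Fin r) (Fin r) L}
    {w : Fin n → Fin r → ℝ} {e : Fin r → ℝ}
    (h : Semistable (fun j => f (β j)) (fun j => (P j).map f) w e) : Semistable β P w e := by
  intro s U hU τ hτ
  have hinj : Function.Injective (mapRingHom f) := map_injective f f.injective
  obtain ⟨J₀, hJ₀⟩ := hU
  obtain ⟨J, hJ, hle⟩ := h s (U.map (mapRingHom f))
    ⟨J₀, by rw [mnr_map]; exact (map_ne_zero_iff _ hinj).mpr hJ₀⟩ τ (by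
      intro j J hJ
      rw [← map_mul_C, mnr_map] at hJ ⊢
      have h1 := hτ j J ((map_ne_zero_iff _ hinj).mp hJ)
      rwa [eq_rootMultiplicity_map f.injective, ← coe_mapRingHom] at h1)
  rw [mnr_map] at hJ hle
  refine ⟨J, (map_ne_zero_iff _ hinj).mp hJ, ?_⟩
  rwa [coe_mapRingHom, natDegree_map] at hle

lemma Semistable.nonneg {β : Fin n → K} {P : Fin n → Matrix (Fin r) (Fin r) K}
    {w : Fin n → Fin r → ℝ} {e : Fin r → ℝ} (h : Semistable β P w e) (hw : ∀ j l, 0 ≤ w j l)
    (i : Fin r) : 0 ≤ e i := by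
  classical
  let U : Matrix (Fin 1) (Fin r) K[X] := Matrix.of fun _ l => if l = i then 1 else 0
  have hm : ∀ J, mnr U J = if J 0 = i then 1 else 0 := by
    intro J
    unfold mnr
    rw [Matrix.det_unique]
    rfl
  obtain ⟨J, hJ, hle⟩ := h 1 U ⟨fun _ => i, by rw [hm]; simp⟩ (fun _ => 0) (by
    intro j J _
    have h1 : 0 ≤ ∑ i, w j (J i) := Finset.sum_nonneg fun _ _ => hw _ _
    positivity)
  rw [hm] at hJ hle
  have hJi : J 0 = i := by
    by_contra hne
    exact hJ (if_neg hne)
  simpa [hJi] using hle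

/-- A countable algebraically closed subfield containing a given countable set. -/
lemma exists_countable_subfield {K : Type u} [Field K] [IsAlgClosed K] (s : Set K)
    (hs : s.Countable) :
    ∃ (L : Type u) (_ : Field L) (_ : IsAlgClosed L) (_ : Countable L) (f : L →+* K),
      s ⊆ Set.range f := by
  let F₀ : Subfield K := Subfield.closure s
  have h0 : Cardinal.mk F₀ ≤ Cardinal.aleph0 := by
    refine (Subfield.cardinalMk_closure_le_max s).trans ?_
    rw [max_le_iff]
    exact ⟨Cardinal.mk_le_aleph0_iff.mpr hs, le_rfl⟩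
  let L := algebraicClosure F₀ K
  have h1 : Cardinal.mk L ≤ Cardinal.aleph0 := by
    refine (Algebra.IsAlgebraic.cardinalMk_le_max F₀ L).trans ?_
    exact max_le h0 le_rfl
  have h2 : IsAlgClosed L := (algebraicClosure.isAlgClosure F₀ K).isAlgClosed
  refine ⟨L, inferInstance, h2, Cardinal.mk_le_aleph0_iff.mp h1, algebraMap L K, ?_⟩
  intro x hx
  have hx0 : x ∈ F₀ := Subfield.subset_closure hx
  refine ⟨algebraMap F₀ L ⟨x, hx0⟩, ?_⟩
  rfl

lemma SemistableWeights.countable {K : Type u} [Field K] [IsAlgClosed K]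
    {x : Fin n → Fin r → ℝ} {y : Fin r → ℝ} (h : SemistableWeights K x y) :
    ∃ (L : Type u) (_ : Field L) (_ : IsAlgClosed L) (_ : Countable L) (_ : L →+* K),
      SemistableWeights L x y := by
  obtain ⟨β, P, w, e, h1, h2, h3, h4, h5, h6, h7⟩ := h
  obtain ⟨L, i1, i2, i3, f, hf⟩ := exists_countable_subfield
    (Set.range β ∪ Set.range fun t : Fin n × Fin r × Fin r => P t.1 t.2.1 t.2.2)
    ((Set.countable_range _).union (Set.countable_range _))
  have hβ : ∀ j, ∃ b : L, f b = β j := fun j => hf (Or.inl ⟨j, rfl⟩)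
  have hP : ∀ j a b, ∃ c : L, f c = P j a b := fun j a b => hf (Or.inr ⟨(j, a, b), rfl⟩)
  choose β' hβ' using hβ
  choose P' hP' using hP
  let P' : Fin n → Matrix (Fin r) (Fin r) L := P'
  refine ⟨L, i1, i2, i3, f, β', P', w, e, ?_, ?_, h3, h4, h5, h6, ?_⟩
  · intro i j hij
    exact h1 (by rw [← hβ', ← hβ', hij])
  · intro j h0
    apply h2 j
    have h8 : P j = (P' j).map f := by
      ext1 a b
      exact (hP' j a b).symm
    have h9 := RingHom.map_det f (P' j)
    rw [h0, map_zero] at h9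
    rw [h8]
    exact h9.symm
  · apply Semistable.restrict f
    have h8 : (fun j => f (β' j)) = β := funext hβ'
    have h9 : (fun j => (P' j).map f) = P := by
      ext1 j
      ext1 a b
      exact hP' j a b
    rw [h8, h9]
    exact h7

end restrict

section limit

variable {K : ℕ → Type u} [∀ i, Field (K i)] {n r : ℕ}

/-- The ultraproduct of semistable parabolic bundles is semistable for the limit weights. -/
lemma semistable_up (F : Ultrafilter ℕ) {β : ∀ i, Fin n → K i}
    {P : ∀ i, Fin n → Matrix (Fin r) (Fin r) (K i)} {w : ℕ → Fin n → Fin r → ℝ}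
    {e : ℕ → Fin r → ℝ} (h : ∀ i, Semistable (β i) (P i) (w i) (e i))
    {w₀ : Fin n → Fin r → ℝ} {e₀ : Fin r → ℝ} (hw : ∀ j l, Tendsto (fun i => w i j l) F (𝓝 (w₀ j l)))
    (he : ∀ l, Tendsto (fun i => e i l) F (𝓝 (e₀ l))) :
    Semistable (fun j => up K F fun i => β i j)
      (fun j => (Matrix.of fun a b => fun i => P i j a b : Matrix (Fin r) (Fin r) (∀ i, K i)).map
        (up K F)) w₀ e₀ := by
  classical
  intro s U hU τ hτ
  have hlift : ∀ a b, ∃ f : (∀ i, K i)[X], mp K F f = U a b := fun a b => mp_surjective K F _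
  choose V hV using hlift
  let V : Matrix (Fin s) (Fin r) (∀ i, K i)[X] := V
  have hUV : U = V.map (mp K F) := by
    ext1 a b
    exact (hV a b).symm
  let Q : Fin n → Matrix (Fin r) (Fin r) (∀ i, K i) := fun j => Matrix.of fun a b => fun i => P i j a b
  have hQ : ∀ i j, (Q j).map (Pi.evalRingHom K i) = P i j := fun i j => rfl
  have hm : ∀ J, mnr U J = mp K F (mnr V J) := fun J => by rw [hUV, mnr_map]
  have hP : ∀ j J, mnr (U * ((Q j).map (up K F)).map C) J = mp K F (mnr (V * (Q j).map C) J) := by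
    intro j J
    rw [hUV, ← mnr_map, map_mul_C]
  have hPc : ∀ i j J, mnr (V.map (cp K i) * (P i j).map C) J = cp K i (mnr (V * (Q j).map C) J) := by
    intro i j J
    rw [← mnr_map, map_mul_C, hQ]
  obtain ⟨J₀, hJ₀⟩ := hU
  by_contra hcon
  push Not at hcon
  -- a small positive number
  obtain ⟨δ, hδ, hδ0⟩ : ∃ δ : ℝ, (∀ J, mnr U J ≠ 0 →
      (mnr U J).natDegree + ∑ i, e₀ (J i) < ∑ j, (τ j - δ)) ∧ 0 < δ := by
    have h1 : ∀ᶠ δ in 𝓝[>] (0 : ℝ), ∀ J, mnr U J ≠ 0 →
        (mnr U J).natDegree + ∑ i, e₀ (J i) < ∑ j, (τ j - δ) := by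
      rw [Filter.eventually_all]
      intro J
      by_cases hJ : mnr U J = 0
      · exact Filter.Eventually.of_forall fun _ h => absurd hJ h
      · have h2 : Tendsto (fun δ : ℝ => ∑ j, (τ j - δ)) (𝓝[>] 0) (𝓝 (∑ j, (τ j - 0))) := by
          refine tendsto_finsetSum _ fun j _ => ?_
          exact tendsto_const_nhds.sub (tendsto_nhdsWithin_of_tendsto_nhds tendsto_id)
        have h3 : (mnr U J).natDegree + ∑ i, e₀ (J i) < ∑ j, (τ j - 0) := by
          simpa using hcon J hJ
        filter_upwards [h2.eventually_const_lt h3] with δ h4 _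
        exact h4
    exact (h1.and self_mem_nhdsWithin).exists
  have E1 : ∀ᶠ i in (F : Filter ℕ), ∀ J, mnr U J ≠ 0 →
      ((cp K i (mnr V J)).natDegree : ℝ) + ∑ c, e i (J c) < ∑ j, (τ j - δ) := by
    rw [Filter.eventually_all]
    intro J
    by_cases hJ : mnr U J = 0
    · exact Filter.Eventually.of_forall fun _ h => absurd hJ h
    · have h1 : Tendsto (fun i => ((mnr U J).natDegree : ℝ) + ∑ c, e i (J c)) F
          (𝓝 (((mnr U J).natDegree : ℝ) + ∑ c, e₀ (J c))) :=
        tendsto_const_nhds.add (tendsto_finsetSum _ fun c _ => he (J c))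
      have h2 := h1.eventually_lt_const (hδ J hJ)
      filter_upwards [h2, natDegree_cp_le K F (mnr V J)] with i h3 h4 _
      rw [← hm] at h4
      have h5 : ((cp K i (mnr V J)).natDegree : ℝ) ≤ (mnr U J).natDegree := by exact_mod_cast h4
      linarith
  have E2 : ∀ᶠ i in (F : Filter ℕ), ∀ J, mnr U J = 0 → cp K i (mnr V J) = 0 := by
    rw [Filter.eventually_all]
    intro J
    by_cases hJ : mnr U J = 0
    · have h1 := hJ
      rw [hm, mp_eq_zero] at h1
      filter_upwards [h1] with i h2 _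
      exact h2
    · exact Filter.Eventually.of_forall fun _ h => absurd h hJ
  have E4 : ∀ᶠ i in (F : Filter ℕ), ∀ j J, mnr (V.map (cp K i) * (P i j).map C) J ≠ 0 →
      τ j - δ ≤ (mnr (V.map (cp K i) * (P i j).map C) J).rootMultiplicity (β i j) +
        ∑ c, w i j (J c) := by
    rw [Filter.eventually_all]
    intro j
    rw [Filter.eventually_all]
    intro J
    by_cases hJ : mnr (U * ((Q j).map (up K F)).map C) J = 0
    · have h1 := hJ
      rw [hP, mp_eq_zero] at h1
      filter_upwards [h1] with i h2 h3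
      rw [hPc] at h3
      exact absurd h2 h3
    · have h1 := hτ j J hJ
      have h2 := hJ
      rw [hP] at h2
      have h3 := le_rootMultiplicity_cp K F (fun i => β i j) h2
      have h4 : Tendsto (fun i => ∑ c, w i j (J c)) F (𝓝 (∑ c, w₀ j (J c))) :=
        tendsto_finsetSum _ fun c _ => hw j (J c)
      have h5 : ∑ c, w₀ j (J c) - δ < ∑ c, w₀ j (J c) := by linarith
      filter_upwards [h3, h4.eventually_const_lt h5] with i h6 h7 _
      rw [hPc]
      have h1' : τ j ≤ ((mp K F (mnr (V * (Q j).map C) J)).rootMultiplicity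
          (up K F fun i => β i j) : ℝ) + ∑ c, w₀ j (J c) := by
        rw [← hP]; exact h1
      have h8 : ((mp K F (mnr (V * (Q j).map C) J)).rootMultiplicity
          (up K F fun i => β i j) : ℝ) ≤
          ((cp K i (mnr (V * (Q j).map C) J)).rootMultiplicity (β i j) : ℝ) := by
        exact_mod_cast h6
      linarith
  have E5 : ∀ᶠ i in (F : Filter ℕ), cp K i (mnr V J₀) ≠ 0 := by
    rw [← mp_ne_zero, ← hm]
    exact hJ₀
  obtain ⟨i, ⟨⟨h1, h2⟩, h4⟩, h5⟩ := (((E1.and E2).and E4).and E5).exists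
  obtain ⟨J, hJ, hle⟩ := h i s (V.map (cp K i)) ⟨J₀, by rw [mnr_map]; exact h5⟩
    (fun j => τ j - δ) h4
  rw [mnr_map] at hJ hle
  by_cases hJ0 : mnr U J = 0
  · exact hJ (h2 J hJ0)
  · exact absurd (h1 J hJ0) (not_lt.mpr hle)

/-- The limit of the weights of semistable parabolic bundles over algebraically closed fields
whose characteristics are zero or tend to infinity. -/
theorem limit [∀ i, IsAlgClosed (K i)]
    (hchar : ∀ q : ℕ, q ≠ 0 → ∀ᶠ i in atTop, ((q : ℕ) : K i) ≠ 0)
    {x : ℕ → Fin n → Fin r → ℝ} {y : ℕ → Fin r → ℝ} {x₀ : Fin n → Fin r → ℝ} {y₀ : Fin r → ℝ}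
    (hx : ∀ j l, Tendsto (fun i => x i j l) atTop (𝓝 (x₀ j l)))
    (hy : ∀ l, Tendsto (fun i => y i l) atTop (𝓝 (y₀ l)))
    (h : ∀ i, SemistableWeights (K i) (x i) (y i)) : SemistableWeights ℂ x₀ y₀ := by
  classical
  have h' := fun i => (h i).countable
  choose L i1 i2 i3 f hL using h'
  unfold SemistableWeights at hL
  choose β P w e h1 h2 h3 h4 h5 h6 h7 using hL
  choose σ hσ using h4
  choose ρ hρ using h5
  let F : Ultrafilter ℕ := hyperfilter ℕ
  have hFtop : (F : Filter ℕ) ≤ atTop := Nat.hyperfilter_le_atTop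
  -- the ultraproduct
  obtain ⟨g⟩ := up_ringEquiv_complex L F hyperfilter_le_cofinite (by
    intro q hq
    have h8 := hFtop (hchar q hq)
    filter_upwards [h8] with i h9 h10
    apply h9
    rw [← map_natCast (f i), h10, map_zero])
  -- constant permutations
  obtain ⟨c, hc⟩ := (F.map fun i => (σ i, ρ i)).eq_pure_of_finite
  have hc' : ∀ᶠ i in (F : Filter ℕ), (σ i, ρ i) = c := by
    have h8 : {c} ∈ (F.map fun i => (σ i, ρ i)) := by
      rw [hc]
      exact Filter.mem_pure.mpr rfl
    exact h8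
  -- the limits of the weights
  have hen : ∀ i l, 0 ≤ e i l := fun i l => (h7 i).nonneg (fun j l => (h3 i j l).1) l
  have heb : ∀ i l, e i l ≤ n * r := by
    intro i l
    calc e i l ≤ ∑ l, e i l :=
          Finset.single_le_sum (f := fun l => e i l) (fun l _ => hen i l) (Finset.mem_univ l)
      _ = ∑ j, ∑ l, w i j l := (h6 i).symm
      _ ≤ ∑ _j : Fin n, ∑ _l : Fin r, (1 : ℝ) :=
          Finset.sum_le_sum fun j _ => Finset.sum_le_sum fun l _ => (h3 i j l).2
      _ = n * r := by simp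
  have hwlim : ∀ j l, ∃ v : ℝ, (0 ≤ v ∧ v ≤ 1) ∧ Tendsto (fun i => w i j l) F (𝓝 v) := by
    intro j l
    obtain ⟨v, hv1, hv2⟩ := (isCompact_Icc (a := (0 : ℝ)) (b := 1)).ultrafilter_le_nhds
      (F.map fun i => w i j l) (by
        rw [le_principal_iff]
        show ∀ᶠ i in (F : Filter ℕ), w i j l ∈ Set.Icc (0 : ℝ) 1
        exact Filter.Eventually.of_forall fun i => h3 i j l)
    exact ⟨v, hv1, hv2⟩
  have helim : ∀ l, ∃ v : ℝ, Tendsto (fun i => e i l) F (𝓝 v) := by
    intro l
    obtain ⟨v, hv1, hv2⟩ := (isCompact_Icc (a := (0 : ℝ)) (b := n * r)).ultrafilter_le_nhds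
      (F.map fun i => e i l) (by
        rw [le_principal_iff]
        show ∀ᶠ i in (F : Filter ℕ), e i l ∈ Set.Icc (0 : ℝ) (n * r)
        exact Filter.Eventually.of_forall fun i => ⟨hen i l, heb i l⟩)
    exact ⟨v, hv2⟩
  choose w₀ hw₀ hw using hwlim
  choose e₀ he using helim
  have hsem := semistable_up F h7 hw he
  have hint : ∀ (u v : ℕ → ℝ) (u₀ v₀ : ℝ), Tendsto u F (𝓝 u₀) → Tendsto v F (𝓝 v₀) →
      (∀ᶠ i in (F : Filter ℕ), ∃ m : ℤ, u i = v i + m) → ∃ m : ℤ, u₀ = v₀ + m := by
    intro u v u₀ v₀ hu hv huv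
    have h8 : u₀ - v₀ ∈ Set.range ((↑) : ℤ → ℝ) := by
      refine Int.isClosedEmbedding_coe_real.isClosed_range.mem_of_tendsto (hu.sub hv) ?_
      filter_upwards [huv] with i hi
      obtain ⟨m, hm⟩ := hi
      exact ⟨m, by rw [hm]; ring⟩
    obtain ⟨m, hm⟩ := h8
    exact ⟨m, by rw [hm]; ring⟩
  refine ⟨fun j => g (up L F fun i => β i j), fun j =>
    ((Matrix.of fun a b => fun i => P i j a b : Matrix (Fin r) (Fin r) (∀ i, L i)).map
        (up L F)).map g, w₀, e₀, ?_, ?_, hw₀, ?_, ?_, ?_, ?_⟩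
  · intro a b hab
    by_contra hne
    have h8 := g.injective hab
    rw [← sub_eq_zero, ← map_sub, up_eq_zero] at h8
    obtain ⟨i, hi⟩ := h8.exists
    rw [Pi.sub_apply, sub_eq_zero] at hi
    exact hne (h1 i hi)
  · intro j h0
    have h8 : g (up L F (Matrix.of fun a b => fun i => P i j a b :
        Matrix (Fin r) (Fin r) (∀ i, L i)).det) = 0 := by
      rw [RingHom.map_det, ← RingEquiv.coe_toRingHom, RingHom.map_det]
      exact h0
    rw [map_eq_zero_iff _ g.injective, up_eq_zero] at h8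
    obtain ⟨i, hi⟩ := h8.exists
    apply h2 i j
    have h9 : (Pi.evalRingHom L i) (Matrix.of fun a b => fun i => P i j a b :
        Matrix (Fin r) (Fin r) (∀ i, L i)).det = (P i j).det := by
      rw [RingHom.map_det]
      rfl
    rw [← h9]
    exact hi
  · intro j
    refine ⟨c.1 j, fun l => ?_⟩
    refine hint _ _ _ _ (hw j l) ((hx j (c.1 j l)).mono_left hFtop) ?_
    filter_upwards [hc'] with i hi
    obtain ⟨m, hm⟩ := hσ i j l
    refine ⟨m, ?_⟩
    rw [hm, ← hi]
  · refine ⟨c.2, fun l => ?_⟩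
    refine hint _ _ _ _ (he l) ((hy (c.2 l)).mono_left hFtop) ?_
    filter_upwards [hc'] with i hi
    obtain ⟨m, hm⟩ := hρ i l
    refine ⟨m, ?_⟩
    rw [hm, ← hi]
  · have h8 : Tendsto (fun i => ∑ j, ∑ l, w i j l) F (𝓝 (∑ j, ∑ l, w₀ j l)) :=
      tendsto_finsetSum _ fun j _ => tendsto_finsetSum _ fun l _ => hw j l
    have h9 : Tendsto (fun i => ∑ l, e i l) F (𝓝 (∑ l, e₀ l)) :=
      tendsto_finsetSum _ fun l _ => he l
    simp only [h6] at h8
    exact tendsto_nhds_unique h8 h9
  · apply Semistable.restrict (g.symm : ℂ →+* UP L F)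
    have h8 : (fun j : Fin n => (g.symm : ℂ →+* UP L F) (g (up L F fun i => β i j))) =
        fun j => up L F fun i => β i j := by
      ext1 j
      exact g.symm_apply_apply _
    have h9 : (fun j : Fin n => ((((Matrix.of fun a b => fun i => P i j a b :
        Matrix (Fin r) (Fin r) (∀ i, L i)).map (up L F)).map g).map (g.symm : ℂ →+* UP L F))) =
        fun j => ((Matrix.of fun a b => fun i => P i j a b :
        Matrix (Fin r) (Fin r) (∀ i, L i)).map (up L F)) := by
      ext1 j
      ext1 a b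
      exact g.symm_apply_apply _
    rw [h8, h9]
    exact hsem

end limit

end Pool.Agent.Y227.SS
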