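import Pool.Agent.Y227.SS.StableUp
import Pool.Agent.Y227.SS.Final

set_option autoImplicit false

/-!
Irreducible systems with vanishing `p`-curvatures give stable parabolic bundles with the conjugate
exponents.
-/

open Polynomial Filter Topology Pool.Agent.W432.PC

namespace Pool.Agent.Y227.SS

universe u

section charP

variable {k : Type*} [Field k] {n r : ℕ} {α : Fin n → k} {A : Fin n → Matrix (Fin r) (Fin r) k}

/-- The Cartier descent in terms of a matrix of solutions. -/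
theorem charP_data [IsAlgClosed k] (hα : Function.Injective α) (p : ℕ) [Fact p.Prime]
    [CharP k p] (hfull : Full α A) (e : Fin n → Fin r → ℕ) (he : ∀ j i, e j i < p)
    (hA : ∀ j, (A j).charpoly = ∏ i, (X - C ((e j i : ℕ) : k)))
    (f : Fin r → ℕ) (hf : ∀ i, f i < p)
    (hAs : (∑ j, A j).charpoly = ∏ i, (X - C ((f i : ℕ) : k))) :
    ∃ (Y : Matrix (Fin r) (Fin r) k[X]) (e₁ : Fin n → Fin r → ℕ)
      (P : Fin n → Matrix (Fin r) (Fin r) k) (z : Fin n → Matrix (Fin r) (Fin r) k[X]),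
      (∀ i, Sol α A (Y i)) ∧ Y.det ≠ 0 ∧ (∀ j, LocBasis (α j) p Y (e₁ j) (P j) (z j)) ∧
      ∑ j, ∑ l, e₁ j l = ∑ l, vdeg (Y l) ∧
      (∀ j, ∃ σ : Equiv.Perm (Fin r), ∀ l, e₁ j l = e j (σ l)) ∧
      (∃ ρ : Equiv.Perm (Fin r), ∀ l, vdeg (Y l) % p = f (ρ l)) := by
  classical
  have hp : 0 < p := (Fact.out : p.Prime).pos
  obtain ⟨Y₀, hY₀, hdet₀⟩ := hfull
  obtain ⟨Y, h⟩ := exists_minFam hY₀ hdet₀
  choose e₁ P z hb using fun j => h.exists_locBasis hα p j
  have hms : ∀ j, (Finset.univ : Finset (Fin r)).val.map (e₁ j) =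
      (Finset.univ : Finset (Fin r)).val.map (e j) := by
    intro j
    refine multiset_nat_eq (k := k) (hb j).lt (he j) ?_
    rw [← hA j, ← h.charpoly_loc hα (hb j)]
  have hms' : (Finset.univ : Finset (Fin r)).val.map (fun i => vdeg (Y i) % p) =
      (Finset.univ : Finset (Fin r)).val.map f := by
    refine multiset_nat_eq (k := k) (fun i => Nat.mod_lt _ hp) hf ?_
    rw [← hAs, h.charpoly_sum p]
    refine Finset.prod_congr rfl fun i _ => ?_
    congr 2
    rw [CharP.natCast_eq_natCast k p]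
    exact Nat.mod_modEq _ _
  have hdeg : Y.det.natDegree = ∑ i, vdeg (Y i) :=
    le_antisymm (natDegree_det_le Y) (h.sum_vdeg_le p)
  refine ⟨Y, e₁, P, z, h.sol, h.det, hb, ?_, fun j => exists_perm_of_multiset (hms j),
    exists_perm_of_multiset hms'⟩
  rw [← hdeg, h.natDegree_det hα p hb]

end charP

section point

variable {R : Type u} [CommRing R] [IsDomain R] [CharZero R] {n r : ℕ}

omit [IsDomain R] [CharZero R] in
/-- Closed points of residue characteristic `p` give countable geometric points of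
characteristic `p`. -/
lemma geometric_point_countable [Countable R] {α : Fin n → R}
    {A : Fin n → Matrix (Fin r) (Fin r) R}
    (hα : ∀ i j, i ≠ j → IsUnit (α i - α j)) {𝔪 : Ideal R} [h𝔪 : 𝔪.IsMaximal] {p : ℕ}
    (hp : p.Prime) (hpm : (p : R) ∈ 𝔪) (hpc : PCurvZeroAt α A 𝔪) :
    ∃ (K : Type u) (_ : Field K) (_ : IsAlgClosed K) (_ : CharP K p) (_ : Countable K)
      (φ : R →+* K),
      (∀ g, g ∉ 𝔪 → φ g ≠ 0) ∧ (∀ i j, i ≠ j → φ (α i) ≠ φ (α j)) ∧
      Full (fun j => φ (α j)) (fun j => (A j).map φ) := by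
  let _ : Field (R ⧸ 𝔪) := Ideal.Quotient.field 𝔪
  have hrc : ringChar (R ⧸ 𝔪) = p := by
    have h1 : ((p : ℕ) : R ⧸ 𝔪) = 0 := by
      have : ((p : ℕ) : R ⧸ 𝔪) = Ideal.Quotient.mk 𝔪 (p : R) := by simp
      rw [this]
      exact Ideal.Quotient.eq_zero_iff_mem.mpr hpm
    have h2 : ringChar (R ⧸ 𝔪) ∣ p := ringChar.dvd h1
    rcases (Nat.dvd_prime hp).mp h2 with h3 | h3
    · exact absurd h3 (CharP.ringChar_ne_one)
    · exact h3
  have hcharP : CharP (R ⧸ 𝔪) p := ringChar.of_eq hrc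
  have hfact : Fact p.Prime := ⟨hp⟩
  let K := AlgebraicClosure (R ⧸ 𝔪)
  let ι : (R ⧸ 𝔪) →+* K := algebraMap (R ⧸ 𝔪) K
  have hK : CharP K p := charP_of_injective_algebraMap (algebraMap (R ⧸ 𝔪) K).injective p
  have hcount0 : Countable (R ⧸ 𝔪) := (Ideal.Quotient.mk_surjective (I := 𝔪)).countable
  have hcount : Countable K := by
    have h1 : Cardinal.mk K ≤ Cardinal.aleph0 := by
      refine (Algebra.IsAlgebraic.cardinalMk_le_max (R ⧸ 𝔪) K).trans ?_
      exact max_le (Cardinal.mk_le_aleph0_iff.mpr hcount0) le_rfl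
    exact Cardinal.mk_le_aleph0_iff.mp h1
  refine ⟨K, inferInstance, inferInstance, hK, hcount, ι.comp (Ideal.Quotient.mk 𝔪), ?_, ?_, ?_⟩
  · intro g hg h0
    apply hg
    rw [RingHom.comp_apply, map_eq_zero_iff ι ι.injective] at h0
    exact Ideal.Quotient.eq_zero_iff_mem.mp h0
  · intro i j hij h0
    have h1 := (hα i j hij).map (ι.comp (Ideal.Quotient.mk 𝔪))
    rw [map_sub, h0, sub_self] at h1
    exact not_isUnit_zero h1
  · apply exists_full (p := p)
    have h1 := Q_eq_zero_of_pCurvZero hpc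
    rw [hrc] at h1
    have h2 := Q_map ι (fun j => Ideal.Quotient.mk 𝔪 (α j))
      (fun j => (A j).map (Ideal.Quotient.mk 𝔪)) p
    rw [h1] at h2
    rw [show Q (fun j => (ι.comp (Ideal.Quotient.mk 𝔪)) (α j))
      (fun j => (A j).map (ι.comp (Ideal.Quotient.mk 𝔪))) p =
      Q (fun j => ι (Ideal.Quotient.mk 𝔪 (α j)))
        (fun j => ((A j).map (Ideal.Quotient.mk 𝔪)).map ι) p by
        congr 1]
    rw [← h2]
    ext1 i l
    simp

/-- The data at one closed point. -/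
lemma point_data [Countable R] (α : Fin n → R) (hα : ∀ i j, i ≠ j → IsUnit (α i - α j))
    (A : Fin n → Matrix (Fin r) (Fin r) R) (lam : Fin n → Fin r → ℚ) (phi : Fin r → ℚ)
    (hlam : ∀ j, HasExponents (A j) (lam j)) (hphi : HasExponents (∑ j, A j) phi)
    (N : ℕ) (hN : 0 < N) (hNlam : ∀ j l, ∃ m : ℤ, (N : ℚ) * lam j l = m)
    (hNphi : ∀ l, ∃ m : ℤ, (N : ℚ) * phi l = m) (a : ℤ) :
    ∃ P₀ : ℕ, ∀ p : ℕ, p.Prime → P₀ < p → (N : ℤ) ∣ a * p + 1 →
      ∀ (𝔪 : Ideal R) [𝔪.IsMaximal], (p : R) ∈ 𝔪 → PCurvZeroAt α A 𝔪 →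
      ∃ (K : Type u) (_ : Field K) (_ : IsAlgClosed K) (_ : CharP K p) (_ : Countable K)
        (φ : R →+* K) (Y : Matrix (Fin r) (Fin r) K[X]) (e : Fin n → Fin r → ℕ)
        (P : Fin n → Matrix (Fin r) (Fin r) K) (z : Fin n → Matrix (Fin r) (Fin r) K[X]),
        (∀ g, g ∉ 𝔪 → φ g ≠ 0) ∧ (Function.Injective fun j => φ (α j)) ∧
        (∀ i, Sol (fun j => φ (α j)) (fun j => (A j).map φ) (Y i)) ∧ Y.det ≠ 0 ∧
        (∀ j, LocBasis (φ (α j)) p Y (e j) (P j) (z j)) ∧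
        ∑ j, ∑ l, e j l = ∑ l, vdeg (Y l) ∧
        (∀ j, ∃ σ : Equiv.Perm (Fin r), ∀ l, ∃ m : ℤ,
          (e j l : ℝ) = p * (a * lam j (σ l) + m) + lam j (σ l)) ∧
        (∃ ρ : Equiv.Perm (Fin r), ∀ l, ∃ m : ℤ,
          (vdeg (Y l) : ℝ) = p * (a * phi (ρ l) + m) + phi (ρ l)) := by
  classical
  choose m hm using hNlam
  choose m' hm' using hNphi
  let M : ℤ := ∑ j, ∑ l, |m j l| + ∑ l, |m' l|
  have hM : ∀ j l, |m j l| ≤ M := by
    intro j l
    have h1 : |m j l| ≤ ∑ l, |m j l| :=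
      Finset.single_le_sum (f := fun l => |m j l|) (fun _ _ => abs_nonneg _) (Finset.mem_univ l)
    have h2 : ∑ l, |m j l| ≤ ∑ j, ∑ l, |m j l| :=
      Finset.single_le_sum (f := fun j => ∑ l, |m j l|)
        (fun _ _ => Finset.sum_nonneg fun _ _ => abs_nonneg _) (Finset.mem_univ j)
    have h3 : 0 ≤ ∑ l, |m' l| := Finset.sum_nonneg fun _ _ => abs_nonneg _
    simp only [M]; linarith
  have hM' : ∀ l, |m' l| ≤ M := by
    intro l
    have h1 : |m' l| ≤ ∑ l, |m' l| :=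
      Finset.single_le_sum (f := fun l => |m' l|) (fun _ _ => abs_nonneg _) (Finset.mem_univ l)
    have h3 : 0 ≤ ∑ j, ∑ l, |m j l| :=
      Finset.sum_nonneg fun _ _ => Finset.sum_nonneg fun _ _ => abs_nonneg _
    simp only [M]; linarith
  refine ⟨max M.toNat N, fun p hp hpP hap 𝔪 h𝔪 hpm hpc => ?_⟩
  have hpM : M < p := by
    have := lt_of_le_of_lt (le_max_left _ _) hpP
    omega
  have hpN : N < p := lt_of_le_of_lt (le_max_right _ _) hpP
  have : Fact p.Prime := ⟨hp⟩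
  obtain ⟨K, iF, iA, iC, iN, φ, h1, h2, h3⟩ := geometric_point_countable hα hp hpm hpc
  have hNK : (N : K) ≠ 0 := by
    rw [Ne, CharP.cast_eq_zero_iff K p]
    intro hd
    exact absurd (Nat.le_of_dvd hN hd) (not_le.mpr hpN)
  choose e he1 he2 t ht using fun j l => exists_rep hN (hm j l) (lt_of_le_of_lt (hM j l) hpM) hap
  choose f hf1 hf2 s hs using fun l => exists_rep hN (hm' l) (lt_of_le_of_lt (hM' l) hpM) hap
  have hA : ∀ j, ((A j).map φ).charpoly = ∏ i, (X - C ((e j i : ℕ) : K)) := fun j =>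
    (hlam j).charpoly_map hN (hm j) φ hNK fun l => by
      have h9 := congrArg (fun x : ℤ => (x : K)) (ht j l)
      push_cast at h9
      rw [CharP.cast_eq_zero K p, zero_mul, add_zero] at h9
      exact h9
  have hAs : (∑ j, (A j).map φ).charpoly = ∏ i, (X - C ((f i : ℕ) : K)) := by
    have h5 : ∑ j, (A j).map φ = (∑ j, A j).map φ := by
      rw [← RingHom.mapMatrix_apply, map_sum]
      rfl
    rw [h5]
    exact hphi.charpoly_map hN hm' φ hNK fun l => by
      have h9 := congrArg (fun x : ℤ => (x : K)) (hs l)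
      push_cast at h9
      rw [CharP.cast_eq_zero K p, zero_mul, add_zero] at h9
      exact h9
  have hinj : Function.Injective fun j => φ (α j) := by
    intro i j hij
    by_contra hne
    exact h2 i j hne hij
  obtain ⟨Y, e₁, P, z, k1, k2, k3, k4, k5, k6⟩ := charP_data hinj p h3 e he1 hA f hf1 hAs
  refine ⟨K, iF, iA, iC, iN, φ, Y, e₁, P, z, h1, hinj, k1, k2, k3, k4, ?_, ?_⟩
  · intro j
    obtain ⟨σ, hσ⟩ := k5 j
    refine ⟨σ, fun l => ?_⟩
    obtain ⟨v, hv⟩ := wt_congr a (lam j (σ l))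
    refine ⟨v, ?_⟩
    rw [hσ l]
    have := congrArg (fun q : ℚ => (q : ℝ)) (he2 j (σ l))
    rw [hv] at this
    push_cast at this
    exact this
  · obtain ⟨ρ, hρ⟩ := k6
    refine ⟨ρ, fun l => ?_⟩
    obtain ⟨v, hv⟩ := wt_congr a (phi (ρ l))
    refine ⟨v + ((vdeg (Y l) / p : ℕ) : ℤ), ?_⟩
    have h6 := congrArg (fun q : ℚ => (q : ℝ)) (hf2 (ρ l))
    rw [hv] at h6
    push_cast at h6
    have h7 : (vdeg (Y l) : ℝ) = (vdeg (Y l) % p : ℕ) + (p : ℝ) * (vdeg (Y l) / p : ℕ) := by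
      exact_mod_cast (Nat.mod_add_div (vdeg (Y l)) p).symm
    rw [h7, hρ l, h6, Int.cast_add, Int.cast_natCast]
    ring

end point

section limit

lemma int_eventually {F : Ultrafilter ℕ} {m : ℕ → ℤ} {L : ℝ}
    (h : Tendsto (fun i => (m i : ℝ)) F (𝓝 L)) :
    ∃ m₀ : ℤ, (m₀ : ℝ) = L ∧ ∀ᶠ i in (F : Filter ℕ), m i = m₀ := by
  have h8 : L ∈ Set.range ((↑) : ℤ → ℝ) :=
    Int.isClosedEmbedding_coe_real.isClosed_range.mem_of_tendsto h
      (Filter.Eventually.of_forall fun i => ⟨m i, rfl⟩)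
  obtain ⟨m₀, rfl⟩ := h8
  refine ⟨m₀, rfl, ?_⟩
  have h9 : Tendsto m F (𝓝 m₀) := Int.isClosedEmbedding_coe_real.isEmbedding.tendsto_nhds_iff.mpr h
  rw [nhds_discrete, tendsto_pure] at h9
  exact h9

lemma eventually_const {F : Ultrafilter ℕ} {ι : Type*} [Finite ι] (f : ℕ → ι) :
    ∃ c, ∀ᶠ i in (F : Filter ℕ), f i = c := by
  obtain ⟨c, hc⟩ := (F.map f).eq_pure_of_finite
  refine ⟨c, ?_⟩
  have h8 : {c} ∈ (F.map f) := by
    rw [hc]
    exact Filter.mem_pure.mpr rfl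
  exact h8

/-- Weights along an ultrafilter: a bounded sequence `E i / p i`, with
`E i = p i * (a q + m i) + q`, is eventually within `q` of `p i` times a constant. -/
lemma limit_weight {F : Ultrafilter ℕ} (hF : (F : Filter ℕ) ≤ atTop) {p : ℕ → ℕ}
    (hp : ∀ i, i < p i) {E : ℕ → ℕ} {B : ℝ} (hE : ∀ i, (E i : ℝ) ≤ p i * B) {a : ℤ} {q : ℚ}
    {m : ℕ → ℤ} (hm : ∀ᶠ i in (F : Filter ℕ), (E i : ℝ) = p i * (a * q + m i) + q) :
    ∃ w : ℝ, 0 ≤ w ∧ w ≤ B ∧ (∃ m₀ : ℤ, w = a * q + m₀) ∧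
      Tendsto (fun i => (E i : ℝ) / p i) F (𝓝 w) ∧
      ∀ᶠ i in (F : Filter ℕ), |(E i : ℝ) - p i * w| ≤ |(q : ℝ)| := by
  have hp0 : ∀ i, (0 : ℝ) < p i := fun i => by
    have := hp i
    exact_mod_cast (Nat.zero_le i).trans_lt this
  obtain ⟨w, hw1, hw2⟩ := (isCompact_Icc (a := (0 : ℝ)) (b := B)).ultrafilter_le_nhds
    (F.map fun i => (E i : ℝ) / p i) (by
      rw [le_principal_iff]
      show ∀ᶠ i in (F : Filter ℕ), (E i : ℝ) / p i ∈ Set.Icc (0 : ℝ) B
      refine Filter.Eventually.of_forall fun i => ⟨by positivity, ?_⟩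
      rw [div_le_iff₀ (hp0 i), mul_comm]
      exact hE i)
  have hw2' : Tendsto (fun i => (E i : ℝ) / p i) F (𝓝 w) := hw2
  have hptop : Tendsto (fun i => (p i : ℝ)) F atTop := by
    have h1 : Tendsto (fun i => (p i : ℝ)) atTop atTop :=
      tendsto_natCast_atTop_atTop.comp (tendsto_atTop_mono (fun i => (hp i).le) tendsto_id)
    exact h1.mono_left hF
  have h2 : Tendsto (fun i => (q : ℝ) / p i) F (𝓝 0) := tendsto_const_nhds.div_atTop hptop
  have h3 : Tendsto (fun i => (m i : ℝ)) F (𝓝 (w - a * q - 0)) := by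
    refine Tendsto.congr' ?_ ((hw2'.sub (tendsto_const_nhds (x := (a : ℝ) * q))).sub h2)
    filter_upwards [hm] with i hi
    have := (hp0 i).ne'
    rw [hi]
    field_simp
    ring
  obtain ⟨m₀, hm₀, hev⟩ := int_eventually h3
  refine ⟨w, hw1.1, hw1.2, ⟨m₀, by rw [hm₀]; ring⟩, hw2', ?_⟩
  filter_upwards [hm, hev] with i h4 h5
  rw [h4, h5]
  have h6 : w = a * q + m₀ := by rw [hm₀]; ring
  rw [h6]
  have h7 : (p i : ℝ) * (a * q + m₀) + q - p i * (a * q + m₀) = q := by ring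
  rw [h7]

lemma Stable.restrict {L K : Type*} [Field L] [Field K] {n r : ℕ} (f : L →+* K) {β : Fin n → L}
    {P : Fin n → Matrix (Fin r) (Fin r) L}
    {w : Fin n → Fin r → ℝ} {e : Fin r → ℝ}
    (h : Stable (fun j => f (β j)) (fun j => (P j).map f) w e) : Stable β P w e := by
  intro s hs hs' U hU τ hτ
  have hinj : Function.Injective (mapRingHom f) := map_injective f f.injective
  obtain ⟨J₀, hJ₀⟩ := hU
  obtain ⟨J, hJ, hle⟩ := h s hs hs' (U.map (mapRingHom f))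
    ⟨J₀, by rw [mnr_map]; exact (map_ne_zero_iff _ hinj).mpr hJ₀⟩ τ (by
      intro j J hJ
      rw [← map_mul_C, mnr_map] at hJ ⊢
      have h1 := hτ j J ((map_ne_zero_iff _ hinj).mp hJ)
      rwa [eq_rootMultiplicity_map f.injective, ← coe_mapRingHom] at h1)
  rw [mnr_map] at hJ hle
  refine ⟨J, (map_ne_zero_iff _ hinj).mp hJ, ?_⟩
  rwa [coe_mapRingHom, natDegree_map] at hle

end limit

section main

variable {R : Type u} [CommRing R] [IsDomain R] [CharZero R] {n r : ℕ}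

/-- Irreducible systems: if the `p`-curvature vanishes at a Zariski dense set of closed points with
large residue characteristics in a residue class, the conjugate exponents are the weights of a
stable parabolic bundle. -/
theorem stable_of_pCurv [Countable R] (α : Fin n → R) (hα : ∀ i j, i ≠ j → IsUnit (α i - α j))
    (A : Fin n → Matrix (Fin r) (Fin r) R) (lam : Fin n → Fin r → ℚ) (phi : Fin r → ℚ)
    (hlam : ∀ j, HasExponents (A j) (lam j)) (hphi : HasExponents (∑ j, A j) phi)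
    (N : ℕ) (hN : 0 < N) (hNlam : ∀ j l, ∃ m : ℤ, (N : ℚ) * lam j l = m)
    (hNphi : ∀ l, ∃ m : ℤ, (N : ℚ) * phi l = m) (a : ℤ) (hirr : AbsIrreducible α A)
    (hinf : ∀ g : R, g ≠ 0 → ∀ P₀ : ℕ, ∃ p : ℕ, p.Prime ∧ P₀ < p ∧ (N : ℤ) ∣ a * p + 1 ∧
      ∃ (𝔪 : Ideal R) (_ : 𝔪.IsMaximal), (p : R) ∈ 𝔪 ∧ g ∉ 𝔪 ∧ PCurvZeroAt α A 𝔪) :
    StableWeights ℂ (fun j l => (a : ℝ) * lam j l) (fun l => (a : ℝ) * phi l) := by
  classical
  obtain ⟨P₀, hP₀⟩ := point_data α hα A lam phi hlam hphi N hN hNlam hNphi a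
  obtain ⟨en, hen⟩ := exists_surjective_nat R
  let g : ℕ → R := fun i => ∏ k ∈ Finset.range i, if en k = 0 then 1 else en k
  have hg : ∀ i, g i ≠ 0 := fun i => by
    refine Finset.prod_ne_zero_iff.mpr fun k _ => ?_
    split_ifs with h
    · exact one_ne_zero
    · exact h
  have h1 := fun i => hinf (g i) (hg i) (max i P₀)
  choose p hp hpi hap 𝔪 h𝔪 hpm hgm hpc using h1
  have hip : ∀ i, i < p i := fun i => lt_of_le_of_lt (le_max_left _ _) (hpi i)
  have h2 := fun i => hP₀ (p i) (hp i) (lt_of_le_of_lt (le_max_right _ _) (hpi i)) (hap i) (𝔪 i)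
    (hpm i) (hpc i)
  choose K i1 i2 i3 i4 φ Y e P z k1 k2 k3 k4 k5 k6 k7 k8 using h2
  have hfact : ∀ i, Fact (p i).Prime := fun i => ⟨hp i⟩
  choose σ m hσ using k7
  choose ρ m' hρ using k8
  have hpR : ∀ i, (0 : ℝ) < p i := fun i => by exact_mod_cast (hp i).pos
  let F : Ultrafilter ℕ := hyperfilter ℕ
  have hFtop : (F : Filter ℕ) ≤ atTop := Nat.hyperfilter_le_atTop
  obtain ⟨ψ⟩ := up_ringEquiv_complex K F hyperfilter_le_cofinite (by
    intro q hq
    refine hFtop ?_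
    filter_upwards [eventually_ge_atTop q] with i hi h0
    rw [CharP.cast_eq_zero_iff (K i) (p i)] at h0
    have h3 := Nat.le_of_dvd (Nat.pos_of_ne_zero hq) h0
    have h4 := hip i
    omega)
  obtain ⟨σ₀, hσ₀⟩ := eventually_const (F := F) σ
  obtain ⟨ρ₀, hρ₀⟩ := eventually_const (F := F) ρ
  -- bounds for the weights
  have hwb : ∀ i j l, (e i j l : ℝ) ≤ p i * 1 := fun i j l => by
    rw [mul_one]
    exact_mod_cast ((k5 i j).lt l).le
  have heb : ∀ i l, (vdeg (Y i l) : ℝ) ≤ p i * (n * r) := by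
    intro i l
    have h3 : vdeg (Y i l) ≤ ∑ l, vdeg (Y i l) :=
      Finset.single_le_sum (f := fun l => vdeg (Y i l)) (fun _ _ => Nat.zero_le _)
        (Finset.mem_univ l)
    rw [← k6 i] at h3
    have h4 : ∑ j, ∑ l, e i j l ≤ ∑ _j : Fin n, ∑ _l : Fin r, p i :=
      Finset.sum_le_sum fun j _ => Finset.sum_le_sum fun l _ => ((k5 i j).lt l).le
    have h5 : ∑ _j : Fin n, ∑ _l : Fin r, p i = n * (r * p i) := by simp
    have h6 : (vdeg (Y i l) : ℝ) ≤ ((n * (r * p i) : ℕ) : ℝ) := by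
      exact_mod_cast h3.trans (h4.trans h5.le)
    push_cast at h6
    linarith
  have hwl := fun (j : Fin n) (l : Fin r) => limit_weight hFtop hip (E := fun i => e i j l)
    (fun i => hwb i j l) (a := a) (q := lam j (σ₀ j l)) (m := fun i => m i j l) (by
      filter_upwards [hσ₀] with i hi
      rw [hσ i j l, hi])
  have hel := fun (l : Fin r) => limit_weight hFtop hip (E := fun i => vdeg (Y i l))
    (fun i => heb i l) (a := a) (q := phi (ρ₀ l)) (m := fun i => m' i l) (by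
      filter_upwards [hρ₀] with i hi
      rw [hρ i l, hi])
  choose w₀ hw1 hw2 hw3 hw4 hw5 using hwl
  choose e₀ he1 he2 he3 he4 he5 using hel
  -- semistability
  have hsem := semistable_up F (β := fun i j => φ i (α j) ^ p i) (P := fun i j => (P i j)⁻¹)
    (w := fun i j l => (e i j l : ℝ) / p i) (e := fun i l => (vdeg (Y i l) : ℝ) / p i)
    (fun i => charP_semistable (k2 i) (k4 i) (p i) (k5 i)) hw4 he4
  -- stability
  let Φ : R →+* (∀ i, K i) := RingHom.pi φ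
  have hΦ : Function.Injective ((up K F).comp Φ) := by
    rw [injective_iff_map_eq_zero]
    intro x hx
    by_contra hx0
    rw [RingHom.comp_apply, up_eq_zero] at hx
    obtain ⟨kx, rfl⟩ := hen x
    have h3 : ∀ᶠ i in (F : Filter ℕ), kx < i := hFtop (eventually_gt_atTop kx)
    obtain ⟨i, h4, h5⟩ := (hx.and h3).exists
    refine k1 i (en kx) (fun h6 => hgm i ?_) h4
    refine (𝔪 i).mem_of_dvd ?_ h6
    have h7 : (if en kx = 0 then 1 else en kx) = en kx := if_neg hx0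
    rw [← h7]
    exact Finset.dvd_prod_of_mem _ (Finset.mem_range.mpr h5)
  have hst : Stable (fun j => up K F fun i => φ i (α j) ^ p i)
      (fun j => (Matrix.of fun a b => fun i => (P i j)⁻¹ a b :
        Matrix (Fin r) (Fin r) (∀ i, K i)).map (up K F)) w₀ e₀ := by
    intro s hs hsr U hU τ hτ
    by_contra hcon
    push Not at hcon
    let c₀ : ℝ := ∑ j, ∑ l, |((lam j l : ℚ) : ℝ)| + ∑ l, |((phi l : ℚ) : ℝ)|
    have hc1 : ∀ j l, |((lam j l : ℚ) : ℝ)| ≤ c₀ := by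
      intro j l
      have h1 : |((lam j l : ℚ) : ℝ)| ≤ ∑ l, |((lam j l : ℚ) : ℝ)| :=
        Finset.single_le_sum (f := fun l => |((lam j l : ℚ) : ℝ)|) (fun _ _ => abs_nonneg _)
          (Finset.mem_univ l)
      have h2 : ∑ l, |((lam j l : ℚ) : ℝ)| ≤ ∑ j, ∑ l, |((lam j l : ℚ) : ℝ)| :=
        Finset.single_le_sum (f := fun j => ∑ l, |((lam j l : ℚ) : ℝ)|)
          (fun _ _ => Finset.sum_nonneg fun _ _ => abs_nonneg _) (Finset.mem_univ j)
      have h3 : 0 ≤ ∑ l, |((phi l : ℚ) : ℝ)| := Finset.sum_nonneg fun _ _ => abs_nonneg _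
      simp only [c₀]; linarith
    have hc2 : ∀ l, |((phi l : ℚ) : ℝ)| ≤ c₀ := by
      intro l
      have h1 : |((phi l : ℚ) : ℝ)| ≤ ∑ l, |((phi l : ℚ) : ℝ)| :=
        Finset.single_le_sum (f := fun l => |((phi l : ℚ) : ℝ)|) (fun _ _ => abs_nonneg _)
          (Finset.mem_univ l)
      have h3 : 0 ≤ ∑ j, ∑ l, |((lam j l : ℚ) : ℝ)| :=
        Finset.sum_nonneg fun _ _ => Finset.sum_nonneg fun _ _ => abs_nonneg _
      simp only [c₀]; linarith
    have key := exists_sub_up F (α := fun i j => φ i (α j)) (A := fun i j => (A j).map (φ i)) k2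
      (Y := Y) (fun i l => k3 i l) k4 (e := e) (P := P) (z := z) k5 (w₀ := w₀) (e₀ := e₀)
      (c₀ := c₀) (by
        rw [Filter.eventually_all]
        intro j
        rw [Filter.eventually_all]
        intro l
        filter_upwards [hw5 j l] with i hi
        exact hi.trans (hc1 _ _)) (by
        rw [Filter.eventually_all]
        intro l
        filter_upwards [he5 l] with i hi
        exact hi.trans (hc2 _)) U hU τ hτ hcon
    exact hirr (UP K F) ((up K F).comp Φ) hΦ s hs hsr key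
  refine ⟨fun j => ψ (up K F fun i => φ i (α j) ^ p i), fun j =>
    ((Matrix.of fun a b => fun i => (P i j)⁻¹ a b : Matrix (Fin r) (Fin r) (∀ i, K i)).map
        (up K F)).map ψ, w₀, e₀, ?_, ?_, fun j l => ⟨hw1 j l, hw2 j l⟩, ?_, ?_, ?_, ?_, ?_⟩
  · intro a b hab
    by_contra hne
    have h8 := ψ.injective hab
    rw [← sub_eq_zero, ← map_sub, up_eq_zero] at h8
    obtain ⟨i, hi⟩ := h8.exists
    rw [Pi.sub_apply, sub_eq_zero] at hi
    exact hne (k2 i (frobenius_inj (K i) (p i) (by simpa [frobenius_def] using hi)))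
  · intro j h0
    have h8 : ψ (up K F (Matrix.of fun a b => fun i => (P i j)⁻¹ a b :
        Matrix (Fin r) (Fin r) (∀ i, K i)).det) = 0 := by
      rw [RingHom.map_det, ← RingEquiv.coe_toRingHom, RingHom.map_det]
      exact h0
    rw [map_eq_zero_iff _ ψ.injective, up_eq_zero] at h8
    obtain ⟨i, hi⟩ := h8.exists
    have h9 : (Pi.evalRingHom K i) (Matrix.of fun a b => fun i => (P i j)⁻¹ a b :
        Matrix (Fin r) (Fin r) (∀ i, K i)).det = ((P i j)⁻¹).det := by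
      rw [RingHom.map_det]
      rfl
    have h10 : ((P i j)⁻¹).det = 0 := by
      rw [← h9]
      exact hi
    rw [Matrix.det_nonsing_inv] at h10
    exact (isUnit_ringInverse.mpr (isUnit_iff_ne_zero.mpr (k5 i j).detP)).ne_zero h10
  · intro j
    refine ⟨σ₀ j, fun l => ?_⟩
    obtain ⟨m₀, hm₀⟩ := hw3 j l
    exact ⟨m₀, hm₀⟩
  · refine ⟨ρ₀, fun l => ?_⟩
    obtain ⟨m₀, hm₀⟩ := he3 l
    exact ⟨m₀, hm₀⟩
  · have h8 : Tendsto (fun i => ∑ j, ∑ l, (e i j l : ℝ) / p i) F (𝓝 (∑ j, ∑ l, w₀ j l)) :=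
      tendsto_finsetSum _ fun j _ => tendsto_finsetSum _ fun l _ => hw4 j l
    have h9 : Tendsto (fun i => ∑ l, (vdeg (Y i l) : ℝ) / p i) F (𝓝 (∑ l, e₀ l)) :=
      tendsto_finsetSum _ fun l _ => he4 l
    refine tendsto_nhds_unique h8 (h9.congr fun i => ?_)
    simp only [← Finset.sum_div]
    congr 1
    exact_mod_cast (k6 i).symm
  · apply Semistable.restrict (ψ.symm : ℂ →+* UP K F)
    have h8 : (fun j : Fin n => (ψ.symm : ℂ →+* UP K F) (ψ (up K F fun i => φ i (α j) ^ p i))) =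
        fun j => up K F fun i => φ i (α j) ^ p i := by
      ext1 j
      exact ψ.symm_apply_apply _
    have h9 : (fun j : Fin n => ((((Matrix.of fun a b => fun i => (P i j)⁻¹ a b :
        Matrix (Fin r) (Fin r) (∀ i, K i)).map (up K F)).map ψ).map (ψ.symm : ℂ →+* UP K F))) =
        fun j => ((Matrix.of fun a b => fun i => (P i j)⁻¹ a b :
        Matrix (Fin r) (Fin r) (∀ i, K i)).map (up K F)) := by
      ext1 j
      ext1 a b
      exact ψ.symm_apply_apply _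
    rw [h8, h9]
    exact hsem
  · apply Stable.restrict (ψ.symm : ℂ →+* UP K F)
    have h8 : (fun j : Fin n => (ψ.symm : ℂ →+* UP K F) (ψ (up K F fun i => φ i (α j) ^ p i))) =
        fun j => up K F fun i => φ i (α j) ^ p i := by
      ext1 j
      exact ψ.symm_apply_apply _
    have h9 : (fun j : Fin n => ((((Matrix.of fun a b => fun i => (P i j)⁻¹ a b :
        Matrix (Fin r) (Fin r) (∀ i, K i)).map (up K F)).map ψ).map (ψ.symm : ℂ →+* UP K F))) =
        fun j => ((Matrix.of fun a b => fun i => (P i j)⁻¹ a b :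
        Matrix (Fin r) (Fin r) (∀ i, K i)).map (up K F)) := by
      ext1 j
      ext1 a b
      exact ψ.symm_apply_apply _
    rw [h8, h9]
    exact hst

lemma countable_of_finiteType (R : Type u) [CommRing R] [Algebra.FiniteType ℤ R] :
    Countable R := by
  obtain ⟨s, f, hf⟩ := Algebra.FiniteType.iff_quotient_mvPolynomial.mp
    (inferInstance : Algebra.FiniteType ℤ R)
  have h1 : Cardinal.mk (MvPolynomial {x // x ∈ s} ℤ) ≤ Cardinal.aleph0 := by
    refine (MvPolynomial.cardinalMk_le_max_lift).trans ?_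
    simp
  have h2 : Countable (MvPolynomial {x // x ∈ s} ℤ) := Cardinal.mk_le_aleph0_iff.mp h1
  exact hf.countable

theorem final [Algebra.FiniteType ℤ R] (α : Fin n → R)
    (hα : ∀ i j, i ≠ j → IsUnit (α i - α j))
    (A : Fin n → Matrix (Fin r) (Fin r) R) (lam : Fin n → Fin r → ℚ) (phi : Fin r → ℚ)
    (hlam : ∀ j, HasExponents (A j) (lam j)) (hphi : HasExponents (∑ j, A j) phi)
    (N : ℕ) (hN : 0 < N) (hNlam : ∀ j l, ∃ m : ℤ, (N : ℚ) * lam j l = m)
    (hNphi : ∀ l, ∃ m : ℤ, (N : ℚ) * phi l = m) (a : ℤ) :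
    (¬ SemistableWeights ℂ (fun j l => (a : ℝ) * lam j l) (fun l => (a : ℝ) * phi l) →
      ∃ P₀ : ℕ, ∀ p : ℕ, p.Prime → P₀ < p → (N : ℤ) ∣ a * p + 1 →
        ∀ (𝔪 : Ideal R) [𝔪.IsMaximal], (p : R) ∈ 𝔪 → ¬ PCurvZeroAt α A 𝔪) ∧
    (AbsIrreducible α A →
      ¬ StableWeights ℂ (fun j l => (a : ℝ) * lam j l) (fun l => (a : ℝ) * phi l) →
      ∃ g : R, g ≠ 0 ∧ ∃ P₀ : ℕ, ∀ p : ℕ, p.Prime → P₀ < p → (N : ℤ) ∣ a * p + 1 →
        ∀ (𝔪 : Ideal R) [𝔪.IsMaximal], (p : R) ∈ 𝔪 → g ∉ 𝔪 → ¬ PCurvZeroAt α A 𝔪) ∧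
    (IsCoprime a (N : ℤ) → CondII α A →
      SemistableWeights ℂ (fun j l => (a : ℝ) * lam j l) (fun l => (a : ℝ) * phi l) ∧
      (AbsIrreducible α A →
        StableWeights ℂ (fun j l => (a : ℝ) * lam j l) (fun l => (a : ℝ) * phi l))) := by
  have hcount := countable_of_finiteType R
  have h1 : ¬ SemistableWeights ℂ (fun j l => (a : ℝ) * lam j l) (fun l => (a : ℝ) * phi l) →
      ∃ P₀ : ℕ, ∀ p : ℕ, p.Prime → P₀ < p → (N : ℤ) ∣ a * p + 1 →
        ∀ (𝔪 : Ideal R) [𝔪.IsMaximal], (p : R) ∈ 𝔪 → ¬ PCurvZeroAt α A 𝔪 := by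
    intro h
    by_contra hcon
    push Not at hcon
    refine h (semistable_of_pCurv α hα A lam phi hlam hphi N hN hNlam hNphi a fun P₀ => ?_)
    obtain ⟨p, hp, hpP, hap, 𝔪, h𝔪, hpm, hpc⟩ := hcon P₀
    exact ⟨p, hp, hpP, hap, 𝔪, h𝔪, hpm, hpc⟩
  have h2 : AbsIrreducible α A →
      ¬ StableWeights ℂ (fun j l => (a : ℝ) * lam j l) (fun l => (a : ℝ) * phi l) →
      ∃ g : R, g ≠ 0 ∧ ∃ P₀ : ℕ, ∀ p : ℕ, p.Prime → P₀ < p → (N : ℤ) ∣ a * p + 1 →
        ∀ (𝔪 : Ideal R) [𝔪.IsMaximal], (p : R) ∈ 𝔪 → g ∉ 𝔪 → ¬ PCurvZeroAt α A 𝔪 := by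
    intro hirr h
    by_contra hcon
    push Not at hcon
    refine h (stable_of_pCurv α hα A lam phi hlam hphi N hN hNlam hNphi a hirr
      fun g hg P₀ => ?_)
    obtain ⟨p, hp, hpP, hap, 𝔪, h𝔪, hpm, hgm, hpc⟩ := hcon g hg P₀
    exact ⟨p, hp, hpP, hap, 𝔪, h𝔪, hpm, hgm, hpc⟩
  refine ⟨h1, h2, fun ha hII => ⟨?_, fun hirr => ?_⟩⟩
  · by_contra h
    obtain ⟨P₀, hP₀⟩ := h1 h
    exact not_condII_of α A N hN a ha ⟨1, one_ne_zero, P₀,
      fun p hp hpP hap 𝔪 _ hpm _ => hP₀ p hp hpP hap 𝔪 hpm⟩ hII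
  · by_contra h
    exact not_condII_of α A N hN a ha (h2 hirr h) hII

end main

end Pool.Agent.Y227.SS
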