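import Pool.Agent.Y227.SS.StableFinal
import Pool.Agent.W432.TC.Final

set_option autoImplicit false

/-!
Limits of stable parabolic bundles along the walls.
-/

open Polynomial Filter Topology Pool.Agent.W432.PC Pool.Agent.W432.TC

namespace Pool.Agent.Y227.SS

universe u

section countable

variable {n r : ℕ}

lemma StableWeights.countable {K : Type u} [Field K] [IsAlgClosed K]
    {x : Fin n → Fin r → ℝ} {y : Fin r → ℝ} (h : StableWeights K x y) :
    ∃ (L : Type u) (_ : Field L) (_ : IsAlgClosed L) (_ : Countable L) (_ : L →+* K),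
      StableWeights L x y := by
  obtain ⟨β, P, w, e, h1, h2, h3, h4, h5, h6, h7, h7'⟩ := h
  obtain ⟨L, i1, i2, i3, f, hf⟩ := exists_countable_subfield
    (Set.range β ∪ Set.range fun t : Fin n × Fin r × Fin r => P t.1 t.2.1 t.2.2)
    ((Set.countable_range _).union (Set.countable_range _))
  have hβ : ∀ j, ∃ b : L, f b = β j := fun j => hf (Or.inl ⟨j, rfl⟩)
  have hP : ∀ j a b, ∃ c : L, f c = P j a b := fun j a b => hf (Or.inr ⟨(j, a, b), rfl⟩)
  choose β' hβ' using hβ
  choose P' hP' using hP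
  let P' : Fin n → Matrix (Fin r) (Fin r) L := P'
  have h8 : (fun j => f (β' j)) = β := funext hβ'
  have h9 : (fun j => (P' j).map f) = P := by
    ext1 j
    ext1 a b
    exact hP' j a b
  refine ⟨L, i1, i2, i3, f, β', P', w, e, ?_, ?_, h3, h4, h5, h6, ?_, ?_⟩
  · intro i j hij
    exact h1 (by rw [← hβ', ← hβ', hij])
  · intro j h0
    apply h2 j
    have h9 := RingHom.map_det f (P' j)
    rw [h0, map_zero] at h9
    have h8 : P j = (P' j).map f := by
      ext1 a b
      exact (hP' j a b).symm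
    rw [h8]
    exact h9.symm
  · apply Semistable.restrict f
    rw [h8, h9]
    exact h7
  · apply Stable.restrict f
    rw [h8, h9]
    exact h7'

end countable

lemma exists_mnr_mul {K : Type*} [Field K] {s r : ℕ} {U : Matrix (Fin s) (Fin r) K[X]}
    (hU : ∃ J, mnr U J ≠ 0) {P : Matrix (Fin r) (Fin r) K} (hP : P.det ≠ 0) :
    ∃ J, mnr (U * P.map C) J ≠ 0 := by
  obtain ⟨J₀, hJ₀⟩ := hU
  by_contra hcon
  push Not at hcon
  have hPdet : IsUnit P.det := isUnit_iff_ne_zero.mpr hP
  have h4 : P.map (C : K →+* K[X]) * (P⁻¹).map C = 1 := by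
    rw [← Matrix.map_mul, Matrix.mul_nonsing_inv _ hPdet]
    exact Matrix.map_one _ (map_zero _) (map_one _)
  have h1 : mnr (U * P.map C * (P⁻¹).map C) J₀ = 0 := by
    rw [mnr_mul]
    exact Finset.sum_eq_zero fun J _ => by rw [hcon J, mul_zero]
  rw [Matrix.mul_assoc, h4, Matrix.mul_one] at h1
  exact hJ₀ h1

section limit

variable {n r : ℕ}

/-- Along a sequence of points satisfying all the integral relations with bounded coefficients
satisfied by the limit, stability passes to the limit. -/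
theorem stable_limit {x : ℕ → ExponentIndex n r → ℝ} {y : ExponentIndex n r → ℝ}
    (hx : ∀ c, Tendsto (fun i => x i c) atTop (𝓝 (y c)))
    (hwall : ∀ i, ∀ m : ExponentIndex n r → ℤ, (∀ c, |m c| ≤ ((n + 1) * r : ℕ)) →
      (∃ z : ℤ, ∑ c, (m c : ℝ) * y c = z) → ∃ z : ℤ, ∑ c, (m c : ℝ) * x i c = z)
    (h : ∀ i, StableWeights ℂ (fun j l => x i (Sum.inl (j, l))) (fun l => x i (Sum.inr l))) :
    StableWeights ℂ (fun j l => y (Sum.inl (j, l))) (fun l => y (Sum.inr l)) := by
  classical
  have h' := fun i => (h i).countable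
  choose K i1 i2 i3 f hL using h'
  unfold StableWeights at hL
  choose β P w e h1 h2 h3 h4 h5 h6 h7 h7' using hL
  choose σ m hσ using h4
  choose ρ m' hρ using h5
  let F : Ultrafilter ℕ := hyperfilter ℕ
  have hFtop : (F : Filter ℕ) ≤ atTop := Nat.hyperfilter_le_atTop
  obtain ⟨ψ⟩ := up_ringEquiv_complex K F hyperfilter_le_cofinite (by
    intro q hq
    refine Filter.Eventually.of_forall fun i h10 => ?_
    have h11 : ((q : ℕ) : ℂ) = 0 := by rw [← map_natCast (f i), h10, map_zero]
    exact hq (by exact_mod_cast h11))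
  obtain ⟨σ₀, hσ₀⟩ := eventually_const (F := F) σ
  obtain ⟨ρ₀, hρ₀⟩ := eventually_const (F := F) ρ
  have hxF : ∀ c, Tendsto (fun i => x i c) F (𝓝 (y c)) := fun c => (hx c).mono_left hFtop
  -- the limits of the weights
  have hen : ∀ i l, 0 ≤ e i l := fun i l => (h7 i).nonneg (fun j l => (h3 i j l).1) l
  have heb : ∀ i l, e i l ≤ n * r := by
    intro i l
    calc e i l ≤ ∑ l, e i l :=
          Finset.single_le_sum (f := fun l => e i l) (fun l _ => hen i l) (Finset.mem_univ l)
      _ = ∑ j, ∑ l, w i j l := (h6 i).symm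
      _ ≤ ∑ _j : Fin n, ∑ _l : Fin r, (1 : ℝ) :=
          Finset.sum_le_sum fun j _ => Finset.sum_le_sum fun l _ => (h3 i j l).2
      _ = n * r := by simp
  have hwlim : ∀ j l, ∃ v : ℝ, (0 ≤ v ∧ v ≤ 1) ∧ Tendsto (fun i => w i j l) F (𝓝 v) := by
    intro j l
    obtain ⟨v, hv1, hv2⟩ := (isCompact_Icc (a := (0 : ℝ)) (b := 1)).ultrafilter_le_nhds
      (F.map fun i => w i j l) (by
        rw [le_principal_iff]
        show ∀ᶠ i in (F : Filter ℕ), w i j l ∈ Set.Icc (0 : ℝ) 1
        exact Filter.Eventually.of_forall fun i => h3 i j l)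
    exact ⟨v, hv1, hv2⟩
  have helim : ∀ l, ∃ v : ℝ, Tendsto (fun i => e i l) F (𝓝 v) := by
    intro l
    obtain ⟨v, hv1, hv2⟩ := (isCompact_Icc (a := (0 : ℝ)) (b := n * r)).ultrafilter_le_nhds
      (F.map fun i => e i l) (by
        rw [le_principal_iff]
        show ∀ᶠ i in (F : Filter ℕ), e i l ∈ Set.Icc (0 : ℝ) (n * r)
        exact Filter.Eventually.of_forall fun i => ⟨hen i l, heb i l⟩)
    exact ⟨v, hv2⟩
  choose w₀ hw₀ hw using hwlim
  choose e₀ he using helim
  -- the integral parts are eventually constant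
  have hwm : ∀ j l, ∃ m₀ : ℤ, w₀ j l = y (Sum.inl (j, σ₀ j l)) + m₀ ∧
      ∀ᶠ i in (F : Filter ℕ), w i j l = x i (Sum.inl (j, σ₀ j l)) + m₀ := by
    intro j l
    have h8 : Tendsto (fun i => (m i j l : ℝ)) F (𝓝 (w₀ j l - y (Sum.inl (j, σ₀ j l)))) := by
      refine Tendsto.congr' ?_ ((hw j l).sub (hxF (Sum.inl (j, σ₀ j l))))
      filter_upwards [hσ₀] with i hi
      rw [hσ i j l, hi]
      ring
    obtain ⟨m₀, hm₀, hev⟩ := int_eventually h8
    refine ⟨m₀, by rw [hm₀]; ring, ?_⟩
    filter_upwards [hev, hσ₀] with i hi hi'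
    rw [hσ i j l, hi, hi']
  have hem : ∀ l, ∃ m₀ : ℤ, e₀ l = y (Sum.inr (ρ₀ l)) + m₀ ∧
      ∀ᶠ i in (F : Filter ℕ), e i l = x i (Sum.inr (ρ₀ l)) + m₀ := by
    intro l
    have h8 : Tendsto (fun i => (m' i l : ℝ)) F (𝓝 (e₀ l - y (Sum.inr (ρ₀ l)))) := by
      refine Tendsto.congr' ?_ ((he l).sub (hxF (Sum.inr (ρ₀ l))))
      filter_upwards [hρ₀] with i hi
      rw [hρ i l, hi]
      ring
    obtain ⟨m₀, hm₀, hev⟩ := int_eventually h8
    refine ⟨m₀, by rw [hm₀]; ring, ?_⟩
    filter_upwards [hev, hρ₀] with i hi hi'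
    rw [hρ i l, hi, hi']
  choose m₀ hm₀ hm₀' using hwm
  choose k₀ hk₀ hk₀' using hem
  have hsem := semistable_up F h7 hw he
  have hinj : ∀ a b : Fin n, up K F (fun i => β i a) = up K F (fun i => β i b) → a = b := by
    intro a b h8
    by_contra hne
    rw [← sub_eq_zero, ← map_sub, up_eq_zero] at h8
    obtain ⟨i, hi⟩ := h8.exists
    rw [Pi.sub_apply, sub_eq_zero] at hi
    exact hne (h1 i hi)
  have hdet : ∀ j, up K F (Matrix.of fun a b => fun i => P i j a b :
        Matrix (Fin r) (Fin r) (∀ i, K i)).det ≠ 0 := by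
    intro j h8
    rw [up_eq_zero] at h8
    obtain ⟨i, hi⟩ := h8.exists
    apply h2 i j
    have h9 : (Pi.evalRingHom K i) (Matrix.of fun a b => fun i => P i j a b :
        Matrix (Fin r) (Fin r) (∀ i, K i)).det = (P i j).det := by
      rw [RingHom.map_det]
      rfl
    rw [← h9]
    exact hi
  have hst : Stable (fun j => up K F fun i => β i j)
      (fun j => (Matrix.of fun a b => fun i => P i j a b : Matrix (Fin r) (Fin r) (∀ i, K i)).map
        (up K F)) w₀ e₀ := by
    intro s hs hsr U hU τ hτ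
    by_contra hcon
    push Not at hcon
    have hlift : ∀ a b, ∃ f : (∀ i, K i)[X], mp K F f = U a b := fun a b => mp_surjective K F _
    choose V hV using hlift
    let V : Matrix (Fin s) (Fin r) (∀ i, K i)[X] := V
    have hUV : U = V.map (mp K F) := by
      ext1 a b
      exact (hV a b).symm
    let Q : Fin n → Matrix (Fin r) (Fin r) (∀ i, K i) := fun j =>
      Matrix.of fun a b => fun i => P i j a b
    have hQ : ∀ i j, (Q j).map (Pi.evalRingHom K i) = P i j := fun i j => rfl
    have hm : ∀ J, mnr U J = mp K F (mnr V J) := fun J => by rw [hUV, mnr_map]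
    have hP : ∀ j J, mnr (U * ((Q j).map (up K F)).map C) J =
        mp K F (mnr (V * (Q j).map C) J) := by
      intro j J
      rw [hUV, ← mnr_map, map_mul_C]
    have hPc : ∀ i j J, mnr (V.map (cp K i) * (P i j).map C) J =
        cp K i (mnr (V * (Q j).map C) J) := by
      intro i j J
      rw [← mnr_map, map_mul_C, hQ]
    have hUQ : ∀ j, ∃ J, mnr (U * ((Q j).map (up K F)).map C) J ≠ 0 := by
      intro j
      refine exists_mnr_mul hU fun h0 => hdet j ?_
      rw [RingHom.map_det]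
      exact h0
    obtain ⟨J₀, hJ₀⟩ := hU
    -- minimal and maximal terms
    let μ : Fin n → (Fin s → Fin r) → ℝ := fun j J =>
      ((mnr (U * ((Q j).map (up K F)).map C) J).rootMultiplicity (up K F fun i => β i j) : ℝ)
    let d : (Fin s → Fin r) → ℝ := fun J => ((mnr U J).natDegree : ℝ)
    have hmin : ∀ i, ∃ J : Fin n → (Fin s → Fin r), ∀ j,
        mnr (U * ((Q j).map (up K F)).map C) (J j) ≠ 0 ∧
        ∀ J', mnr (U * ((Q j).map (up K F)).map C) J' ≠ 0 →
          μ j (J j) + ∑ c, w i j (J j c) ≤ μ j J' + ∑ c, w i j (J' c) := by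
      intro i
      have h8 : ∀ j, ∃ J : Fin s → Fin r, mnr (U * ((Q j).map (up K F)).map C) J ≠ 0 ∧
          ∀ J', mnr (U * ((Q j).map (up K F)).map C) J' ≠ 0 →
          μ j J + ∑ c, w i j (J c) ≤ μ j J' + ∑ c, w i j (J' c) := by
        intro j
        obtain ⟨J₁, hJ₁⟩ := hUQ j
        obtain ⟨J, hJ, hJmin⟩ := Finset.exists_min_image
          (Finset.univ.filter fun J : Fin s → Fin r =>
            mnr (U * ((Q j).map (up K F)).map C) J ≠ 0)
          (fun J => μ j J + ∑ c, w i j (J c))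
          ⟨J₁, Finset.mem_filter.mpr ⟨Finset.mem_univ _, hJ₁⟩⟩
        exact ⟨J, (Finset.mem_filter.mp hJ).2, fun J' hJ' =>
          hJmin J' (Finset.mem_filter.mpr ⟨Finset.mem_univ _, hJ'⟩)⟩
      choose J hJ using h8
      exact ⟨J, hJ⟩
    have hmax : ∀ i, ∃ J : Fin s → Fin r, mnr U J ≠ 0 ∧
        ∀ J', mnr U J' ≠ 0 → d J' + ∑ c, e i (J' c) ≤ d J + ∑ c, e i (J c) := by
      intro i
      obtain ⟨J, hJ, hJmax⟩ := Finset.exists_max_image
        (Finset.univ.filter fun J : Fin s → Fin r => mnr U J ≠ 0)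
        (fun J => d J + ∑ c, e i (J c))
        ⟨J₀, Finset.mem_filter.mpr ⟨Finset.mem_univ _, hJ₀⟩⟩
      exact ⟨J, (Finset.mem_filter.mp hJ).2, fun J' hJ' =>
        hJmax J' (Finset.mem_filter.mpr ⟨Finset.mem_univ _, hJ'⟩)⟩
    choose Jm hJm using hmin
    choose Ji hJi hJi' using hmax
    obtain ⟨Ja, hJa⟩ := eventually_const (F := F) Jm
    obtain ⟨Jb, hJb⟩ := eventually_const (F := F) Ji
    have hJa0 : ∀ j, mnr (U * ((Q j).map (up K F)).map C) (Ja j) ≠ 0 := by
      obtain ⟨i, hi⟩ := hJa.exists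
      intro j
      rw [← hi]
      exact (hJm i j).1
    have hJb0 : mnr U Jb ≠ 0 := by
      obtain ⟨i, hi⟩ := hJb.exists
      rw [← hi]
      exact hJi i
    -- the difference is negative
    let g : ℕ → ℝ := fun i => ∑ j, (μ j (Ja j) + ∑ c, w i j (Ja j c)) - (d Jb + ∑ c, e i (Jb c))
    have E1 : ∀ᶠ i in (F : Filter ℕ), ∀ J, mnr U J ≠ 0 →
        ((cp K i (mnr V J)).natDegree : ℝ) ≤ d J := by
      rw [Filter.eventually_all]
      intro J
      filter_upwards [natDegree_cp_le K F (mnr V J)] with i h4 _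
      rw [← hm] at h4
      show ((cp K i (mnr V J)).natDegree : ℝ) ≤ ((mnr U J).natDegree : ℝ)
      exact_mod_cast h4
    have E2 : ∀ᶠ i in (F : Filter ℕ), ∀ J, mnr U J = 0 → cp K i (mnr V J) = 0 := by
      rw [Filter.eventually_all]
      intro J
      by_cases hJ : mnr U J = 0
      · have h1 := hJ
        rw [hm, mp_eq_zero] at h1
        filter_upwards [h1] with i h2 _
        exact h2
      · exact Filter.Eventually.of_forall fun _ h => absurd h hJ
    have E4 : ∀ᶠ i in (F : Filter ℕ), ∀ j J, mnr (V.map (cp K i) * (P i j).map C) J ≠ 0 →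
        mnr (U * ((Q j).map (up K F)).map C) J ≠ 0 ∧
        μ j J ≤ ((mnr (V.map (cp K i) * (P i j).map C) J).rootMultiplicity (β i j) : ℝ) := by
      rw [Filter.eventually_all]
      intro j
      rw [Filter.eventually_all]
      intro J
      by_cases hJ : mnr (U * ((Q j).map (up K F)).map C) J = 0
      · have h1 := hJ
        rw [hP, mp_eq_zero] at h1
        filter_upwards [h1] with i h2 h3
        rw [hPc] at h3
        exact absurd h2 h3
      · have h2 := hJ
        rw [hP] at h2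
        have h3 := le_rootMultiplicity_cp K F (fun i => β i j) h2
        filter_upwards [h3] with i h6 _
        refine ⟨hJ, ?_⟩
        rw [hPc]
        have h9 : μ j J = ((mp K F (mnr (V * (Q j).map C) J)).rootMultiplicity
            (up K F fun i => β i j) : ℝ) := by
          rw [← hP]
        rw [h9]
        exact_mod_cast h6
    have E5 : ∀ᶠ i in (F : Filter ℕ), cp K i (mnr V J₀) ≠ 0 := by
      rw [← mp_ne_zero, ← hm]
      exact hJ₀
    have hneg : ∀ᶠ i in (F : Filter ℕ), g i < 0 := by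
      filter_upwards [E1, E2, E4, E5, hJa, hJb] with i k1 k2 k4 k5 k6 k7
      obtain ⟨J, hJ, hlt⟩ := h7' i s hs hsr (V.map (cp K i)) ⟨J₀, by rw [mnr_map]; exact k5⟩
        (fun j => μ j (Ja j) + ∑ c, w i j (Ja j c)) (by
          intro j J hJ
          obtain ⟨k8, k9⟩ := k4 j J hJ
          have k10 := (hJm i j).2 J k8
          rw [k6] at k10
          linarith)
      rw [mnr_map] at hJ hlt
      have k8 : mnr U J ≠ 0 := fun h0 => hJ (k2 J h0)
      have k9 := k1 J k8
      have k10 := hJi' i J k8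
      rw [k7] at k10
      show ∑ j, (μ j (Ja j) + ∑ c, w i j (Ja j c)) - (d Jb + ∑ c, e i (Jb c)) < 0
      linarith
    have hglim : Tendsto g F (𝓝 (∑ j, (μ j (Ja j) + ∑ c, w₀ j (Ja j c)) -
        (d Jb + ∑ c, e₀ (Jb c)))) := by
      refine Tendsto.sub ?_ ?_
      · exact tendsto_finsetSum _ fun j _ => tendsto_const_nhds.add
          (tendsto_finsetSum _ fun c _ => hw j (Ja j c))
      · exact tendsto_const_nhds.add (tendsto_finsetSum _ fun c _ => he (Jb c))
    have hg0 : 0 ≤ ∑ j, (μ j (Ja j) + ∑ c, w₀ j (Ja j c)) - (d Jb + ∑ c, e₀ (Jb c)) := by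
      have k1 := hcon Jb hJb0
      have k2 : ∑ j, τ j ≤ ∑ j, (μ j (Ja j) + ∑ c, w₀ j (Ja j c)) :=
        Finset.sum_le_sum fun j _ => hτ j (Ja j) (hJa0 j)
      have k3 : d Jb + ∑ c, e₀ (Jb c) ≤ ∑ j, τ j := k1
      linarith
    have hg1 : ∑ j, (μ j (Ja j) + ∑ c, w₀ j (Ja j c)) - (d Jb + ∑ c, e₀ (Jb c)) ≤ 0 :=
      le_of_tendsto hglim (hneg.mono fun i hi => hi.le)
    have hg2 := le_antisymm hg1 hg0
    -- the wall
    let mm : ExponentIndex n r → ℤ :=
      ∑ j, ∑ c, Pi.single (Sum.inl (j, σ₀ j (Ja j c))) 1 - ∑ c, Pi.single (Sum.inr (ρ₀ (Jb c))) 1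
    have hmmsum : ∀ v : ExponentIndex n r → ℝ, ∑ c, (mm c : ℝ) * v c =
        ∑ j, ∑ c, v (Sum.inl (j, σ₀ j (Ja j c))) - ∑ c, v (Sum.inr (ρ₀ (Jb c))) := by
      intro v
      have hs1 : ∀ a : ExponentIndex n r, ∑ c, (((Pi.single a 1 : ExponentIndex n r → ℤ) c : ℤ) : ℝ) * v c
          = v a := by
        intro a
        rw [Finset.sum_eq_single a]
        · simp
        · intro b _ hb
          rw [Pi.single_eq_of_ne hb]
          simp
        · intro h; exact absurd (Finset.mem_univ a) h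
      have hs2 : ∀ c, (mm c : ℝ) * v c =
          ∑ j, ∑ c', (((Pi.single (Sum.inl (j, σ₀ j (Ja j c'))) 1 : ExponentIndex n r → ℤ) c : ℤ) : ℝ) * v c -
          ∑ c', (((Pi.single (Sum.inr (ρ₀ (Jb c'))) 1 : ExponentIndex n r → ℤ) c : ℤ) : ℝ) * v c := by
        intro c
        simp only [mm, Pi.sub_apply, Finset.sum_apply]
        push_cast
        rw [sub_mul, Finset.sum_mul, Finset.sum_mul]
        congr 1
        exact Finset.sum_congr rfl fun j _ => Finset.sum_mul _ _ _
      simp only [hs2, Finset.sum_sub_distrib]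
      congr 1
      · rw [Finset.sum_comm]
        refine Finset.sum_congr rfl fun j _ => ?_
        rw [Finset.sum_comm]
        exact Finset.sum_congr rfl fun c _ => hs1 _
      · rw [Finset.sum_comm]
        exact Finset.sum_congr rfl fun c _ => hs1 _
    have hmmb : ∀ c, |mm c| ≤ ((n + 1) * r : ℕ) := by
      intro c
      have hb1 : ∀ a : ExponentIndex n r, |(Pi.single a 1 : ExponentIndex n r → ℤ) c| ≤ 1 := by
        intro a
        by_cases hac : c = a
        · subst hac; simp
        · rw [Pi.single_eq_of_ne hac]; simp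
      have hb2 : |mm c| ≤ n * s + s := by
        simp only [mm, Pi.sub_apply, Finset.sum_apply]
        refine (abs_sub _ _).trans (add_le_add ?_ ?_)
        · refine (Finset.abs_sum_le_sum_abs _ _).trans ?_
          calc ∑ j : Fin n, |∑ c', (Pi.single (Sum.inl (j, σ₀ j (Ja j c'))) 1 : ExponentIndex n r → ℤ) c|
              ≤ ∑ _j : Fin n, ∑ _c : Fin s, (1 : ℤ) := Finset.sum_le_sum fun j _ =>
                (Finset.abs_sum_le_sum_abs _ _).trans (Finset.sum_le_sum fun c' _ => hb1 _)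
            _ = n * s := by simp
        · refine (Finset.abs_sum_le_sum_abs _ _).trans ?_
          calc ∑ c' : Fin s, |(Pi.single (Sum.inr (ρ₀ (Jb c'))) 1 : ExponentIndex n r → ℤ) c|
              ≤ ∑ _c : Fin s, (1 : ℤ) := Finset.sum_le_sum fun c' _ => hb1 _
            _ = s := by simp
      refine hb2.trans ?_
      have : (s : ℤ) ≤ r := by exact_mod_cast hsr.le
      push_cast
      nlinarith [Int.natCast_nonneg n, Int.natCast_nonneg s]
    -- integrality
    let z₀ : ℤ := ∑ j, ((mnr (U * ((Q j).map (up K F)).map C) (Ja j)).rootMultiplicity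
      (up K F fun i => β i j) : ℤ) + ∑ j, ∑ c, m₀ j (Ja j c) - (mnr U Jb).natDegree -
      ∑ c, k₀ (Jb c)
    have hy0 : ∑ c, (mm c : ℝ) * y c = ((-z₀ : ℤ) : ℝ) := by
      rw [hmmsum]
      have k1 : ∑ j, (μ j (Ja j) + ∑ c, w₀ j (Ja j c)) - (d Jb + ∑ c, e₀ (Jb c)) =
          ∑ j, ∑ c, y (Sum.inl (j, σ₀ j (Ja j c))) - ∑ c, y (Sum.inr (ρ₀ (Jb c))) + z₀ := by
        simp only [hm₀, hk₀, Finset.sum_add_distrib, z₀, μ, d]
        push_cast
        ring
      rw [hg2] at k1
      push_cast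
      linarith
    have hgint : ∀ᶠ i in (F : Filter ℕ), ∃ z : ℤ, g i = z := by
      have k1 : ∀ᶠ i in (F : Filter ℕ), ∀ j l, w i j l = x i (Sum.inl (j, σ₀ j l)) + m₀ j l := by
        rw [Filter.eventually_all]
        intro j
        rw [Filter.eventually_all]
        intro l
        exact hm₀' j l
      have k2 : ∀ᶠ i in (F : Filter ℕ), ∀ l, e i l = x i (Sum.inr (ρ₀ l)) + k₀ l := by
        rw [Filter.eventually_all]
        intro l
        exact hk₀' l
      filter_upwards [k1, k2] with i k3 k4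
      obtain ⟨z, hz⟩ := hwall i mm hmmb ⟨_, hy0⟩
      rw [hmmsum] at hz
      refine ⟨z + z₀, ?_⟩
      have k5 : g i = ∑ j, ∑ c, x i (Sum.inl (j, σ₀ j (Ja j c))) -
          ∑ c, x i (Sum.inr (ρ₀ (Jb c))) + z₀ := by
        simp only [g, k3, k4, Finset.sum_add_distrib, z₀, μ, d]
        push_cast
        ring
      rw [k5, hz]
      push_cast
      ring
    have hg3 : ∀ᶠ i in (F : Filter ℕ), g i ≤ -1 := by
      filter_upwards [hgint, hneg] with i k1 k2
      obtain ⟨z, hz⟩ := k1
      rw [hz] at k2 ⊢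
      have k3 : z < 0 := by exact_mod_cast k2
      have k4 : z ≤ -1 := by omega
      exact_mod_cast k4
    have hg4 := le_of_tendsto hglim hg3
    rw [hg2] at hg4
    linarith
  refine ⟨fun j => ψ (up K F fun i => β i j), fun j =>
    ((Matrix.of fun a b => fun i => P i j a b : Matrix (Fin r) (Fin r) (∀ i, K i)).map
        (up K F)).map ψ, w₀, e₀, ?_, ?_, hw₀, ?_, ?_, ?_, ?_, ?_⟩
  · intro a b hab
    exact hinj a b (ψ.injective hab)
  · intro j h0
    apply hdet j
    apply (map_eq_zero_iff ψ ψ.injective).mp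
    rw [RingHom.map_det, ← RingEquiv.coe_toRingHom, RingHom.map_det]
    exact h0
  · intro j
    exact ⟨σ₀ j, fun l => ⟨m₀ j l, hm₀ j l⟩⟩
  · exact ⟨ρ₀, fun l => ⟨k₀ l, hk₀ l⟩⟩
  · have h8 : Tendsto (fun i => ∑ j, ∑ l, w i j l) F (𝓝 (∑ j, ∑ l, w₀ j l)) :=
      tendsto_finsetSum _ fun j _ => tendsto_finsetSum _ fun l _ => hw j l
    have h9 : Tendsto (fun i => ∑ l, e i l) F (𝓝 (∑ l, e₀ l)) :=
      tendsto_finsetSum _ fun l _ => he l
    simp only [h6] at h8
    exact tendsto_nhds_unique h8 h9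
  · apply Semistable.restrict (ψ.symm : ℂ →+* UP K F)
    have h8 : (fun j : Fin n => (ψ.symm : ℂ →+* UP K F) (ψ (up K F fun i => β i j))) =
        fun j => up K F fun i => β i j := by
      ext1 j
      exact ψ.symm_apply_apply _
    have h9 : (fun j : Fin n => ((((Matrix.of fun a b => fun i => P i j a b :
        Matrix (Fin r) (Fin r) (∀ i, K i)).map (up K F)).map ψ).map (ψ.symm : ℂ →+* UP K F))) =
        fun j => ((Matrix.of fun a b => fun i => P i j a b :
        Matrix (Fin r) (Fin r) (∀ i, K i)).map (up K F)) := by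
      ext1 j
      ext1 a b
      exact ψ.symm_apply_apply _
    rw [h8, h9]
    exact hsem
  · apply Stable.restrict (ψ.symm : ℂ →+* UP K F)
    have h8 : (fun j : Fin n => (ψ.symm : ℂ →+* UP K F) (ψ (up K F fun i => β i j))) =
        fun j => up K F fun i => β i j := by
      ext1 j
      exact ψ.symm_apply_apply _
    have h9 : (fun j : Fin n => ((((Matrix.of fun a b => fun i => P i j a b :
        Matrix (Fin r) (Fin r) (∀ i, K i)).map (up K F)).map ψ).map (ψ.symm : ℂ →+* UP K F))) =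
        fun j => ((Matrix.of fun a b => fun i => P i j a b :
        Matrix (Fin r) (Fin r) (∀ i, K i)).map (up K F)) := by
      ext1 j
      ext1 a b
      exact ψ.symm_apply_apply _
    rw [h8, h9]
    exact hst

end limit

end Pool.Agent.Y227.SS
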